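import Pool.Agent.MP_c73ff6_gt.H73.Spec

/-! In a chart, `Phi` preserves the polynomials vanishing on the surface. -/

namespace Pool.Agent.MP_c73ff6_gt.H73

open MvPolynomial Filter Topology

namespace ChartA

/-- the pure algebra, in null coordinates -/
theorem alg (a0 a1 a2 c0 c1 c2 A B Z h00 h01 h02 h11 h12 h22 S g00 g01 g11 : ℂ)
    (e00 : g00 = a0 * a1 + a2 ^ 2) (e01 : g01 = (a0 * c1 + a1 * c0) / 2 + a2 * c2)
    (e11 : g11 = c0 * c1 + c2 ^ 2) (hW : g00 * g11 - g01 ^ 2 ≠ 0)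
    (ha : A * a0 + B * a1 + Z * a2 = 0) (hc : A * c0 + B * c1 + Z * c2 = 0)
    (he : g11 * (h00 * a0 * a0 + h11 * a1 * a1 + h22 * a2 * a2 + 2 * h01 * a0 * a1
          + 2 * h02 * a0 * a2 + 2 * h12 * a1 * a2)
        - 2 * g01 * (h00 * a0 * c0 + h11 * a1 * c1 + h22 * a2 * c2 + h01 * (a0 * c1 + a1 * c0)
          + h02 * (a0 * c2 + a2 * c0) + h12 * (a1 * c2 + a2 * c1))
        + g00 * (h00 * c0 * c0 + h11 * c1 * c1 + h22 * c2 * c2 + 2 * h01 * c0 * c1
          + 2 * h02 * c0 * c2 + 2 * h12 * c1 * c2) = (g00 * g11 - g01 ^ 2) * S / 2) :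
    2 * ((4 * A * B + Z ^ 2) * (4 * h01 + h22)
      - (4 * B ^ 2 * h00 + 4 * A ^ 2 * h11 + Z ^ 2 * h22 + 8 * A * B * h01 + 4 * B * Z * h02
        + 4 * A * Z * h12)) - (4 * A * B + Z ^ 2) * S = 0 := by
  subst e00 e01 e11
  obtain ⟨l, hl⟩ : ∃ l : ℂ, l * (-4 * ((a0 * a1 + a2 ^ 2) * (c0 * c1 + c2 ^ 2)
      - ((a0 * c1 + a1 * c0) / 2 + a2 * c2) ^ 2)) =
      A * (2 * (a2 * c0 - a0 * c2)) + B * (2 * (a1 * c2 - a2 * c1)) + Z * (a0 * c1 - a1 * c0) :=
    ⟨_, div_mul_cancel₀ _ (mul_ne_zero (by norm_num) hW)⟩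
  have hW' := mul_ne_zero (show (-4 : ℂ) ≠ 0 by norm_num) hW
  have hA : A = l * (a1 * c2 - a2 * c1) := by
    apply mul_right_cancel₀ hW'
    linear_combination (-(a1 * c2 - a2 * c1)) * hl
      + (2 * (a1 * c2 - a2 * c1) * a2 - (a0 * c1 - a1 * c0) * a1) * hc
      - (2 * (a1 * c2 - a2 * c1) * c2 - (a0 * c1 - a1 * c0) * c1) * ha
  have hB : B = l * (a2 * c0 - a0 * c2) := by
    apply mul_right_cancel₀ hW'
    linear_combination (-(a2 * c0 - a0 * c2)) * hl
      + ((a0 * c1 - a1 * c0) * a0 - 2 * (a2 * c0 - a0 * c2) * a2) * hc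
      - ((a0 * c1 - a1 * c0) * c0 - 2 * (a2 * c0 - a0 * c2) * c2) * ha
  have hZ : Z = l * (a0 * c1 - a1 * c0) := by
    apply mul_right_cancel₀ hW'
    linear_combination (-(a0 * c1 - a1 * c0)) * hl
      + (2 * (a2 * c0 - a0 * c2) * a1 - 2 * (a1 * c2 - a2 * c1) * a0) * hc
      - (2 * (a2 * c0 - a0 * c2) * c1 - 2 * (a1 * c2 - a2 * c1) * c0) * ha
  subst hA hB hZ
  linear_combination (-8 * l ^ 2) * he

theorem pderiv_swap (i j : Fin 3) (Q : P3) : pderiv i (pderiv j Q) = pderiv j (pderiv i Q) := by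
  induction Q using MvPolynomial.induction_on with
  | C a => simp
  | add p q hp hq => simp only [map_add, hp, hq]
  | mul_X p k hp =>
    have h1 : ∀ r s : Fin 3, pderiv r (pderiv s (X k : P3)) = 0 := by
      intro r s
      by_cases h : k = s
      · subst h; rw [pderiv_X_self, pderiv_one]
      · rw [pderiv_X_of_ne h, map_zero]
    simp only [pderiv_mul, map_add, hp, h1]
    ring

/-- a real coordinate as a complex valued functional -/
noncomputable def co (b : OrthonormalBasis (Fin 3) ℝ E3) (k : Fin 3) : E3 →L[ℝ] ℂ :=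
  Complex.ofRealCLM.comp (innerSL ℝ (b k))

theorem co_apply (b : OrthonormalBasis (Fin 3) ℝ E3) (k : Fin 3) (x : E3) :
    co b k x = (inner ℝ x (b k) : ℝ) := by
  rw [real_inner_comm]; rfl

/-- the null coordinates as functionals -/
noncomputable def cl (b : OrthonormalBasis (Fin 3) ℝ E3) : Fin 3 → E3 →L[ℝ] ℂ :=
  ![co b 0 - Complex.I • co b 1, co b 0 + Complex.I • co b 1, co b 2]

theorem cl_apply (b : OrthonormalBasis (Fin 3) ℝ E3) (i : Fin 3) (x : E3) :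
    cl b i x = cz b x i := by
  fin_cases i <;> simp [cl, cz, co_apply]

theorem inner_cz (b : OrthonormalBasis (Fin 3) ℝ E3) (x y : E3) :
    ((inner ℝ x y : ℝ) : ℂ) =
      (cz b x 0 * cz b y 1 + cz b x 1 * cz b y 0) / 2 + cz b x 2 * cz b y 2 := by
  rw [← b.sum_inner_mul_inner x y, Fin.sum_univ_three, real_inner_comm y (b 0),
    real_inner_comm y (b 1), real_inner_comm y (b 2)]
  simp only [cz, Matrix.cons_val_zero, Matrix.cons_val_one, Matrix.cons_val]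
  push_cast
  linear_combination ((inner ℝ x (b 1) : ℝ) * (inner ℝ y (b 1) : ℝ) : ℂ) * Complex.I_mul_I

theorem hasF_cz (b : OrthonormalBasis (Fin 3) ℝ E3) {V : E2 → E3} {u : E2}
    (hV : DifferentiableAt ℝ V u) (i : Fin 3) :
    HasFDerivAt (fun w => cz b (V w) i) ((cl b i).comp (fderiv ℝ V u)) u := by
  have h := (cl b i).hasFDerivAt.comp u hV.hasFDerivAt
  have e : (fun w => cz b (V w) i) = (cl b i) ∘ V := funext fun w => (cl_apply b i _).symm
  rw [e]
  exact h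

theorem hasF_eval (b : OrthonormalBasis (Fin 3) ℝ E3) {V : E2 → E3} {u : E2}
    (hV : DifferentiableAt ℝ V u) (Q : P3) :
    HasFDerivAt (fun w => eval (cz b (V w)) Q)
      (∑ i, eval (cz b (V u)) (pderiv i Q) • (cl b i).comp (fderiv ℝ V u)) u := by
  induction Q using MvPolynomial.induction_on with
  | C a =>
    simp only [eval_C]
    refine HasFDerivAt.congr_fderiv (hasFDerivAt_const a u) (ContinuousLinearMap.ext fun v => ?_)
    simp
  | add p q hp hq =>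
    simp only [map_add]
    refine HasFDerivAt.congr_fderiv (hp.add hq) (ContinuousLinearMap.ext fun v => ?_)
    simp [Fin.sum_univ_three]
    ring
  | mul_X p k hp =>
    simp only [map_mul, eval_X, pderiv_mul, map_add]
    refine HasFDerivAt.congr_fderiv (hp.mul (hasF_cz b hV k))
      (ContinuousLinearMap.ext fun v => ?_)
    fin_cases k <;> simp [Fin.sum_univ_three, pderiv_X] <;> ring

theorem zero_of_vanish {f : E2 → ℂ} {f' : E2 →L[ℝ] ℂ} {U : Set E2} (hU : IsOpen U) {u : E2}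
    (hu : u ∈ U) (h0 : ∀ w ∈ U, f w = 0) (hf : HasFDerivAt f f' u) : f' = 0 := by
  have h1 : f =ᶠ[𝓝 u] fun _ => (0 : ℂ) := eventually_of_mem (hU.mem_nhds hu) h0
  exact hf.unique ((hasFDerivAt_const (0 : ℂ) u).congr_of_eventuallyEq h1)

theorem first (b : OrthonormalBasis (Fin 3) ℝ E3) {V : E2 → E3} {U : Set E2} (hU : IsOpen U)
    (hV : AnalyticOnNhd ℝ V U) {Q : P3} (h0 : ∀ w ∈ U, eval (cz b (V w)) Q = 0) (k : Fin 2) :
    ∀ u ∈ U, ∑ i, eval (cz b (V u)) (pderiv i Q) * cz b (pd k V u) i = 0 := by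
  intro u hu
  have h := zero_of_vanish hU hu h0 (hasF_eval b (hV u hu).differentiableAt Q)
  have h2 := congrArg (fun L : E2 →L[ℝ] ℂ => L (EuclideanSpace.single k 1)) h
  simpa [cl_apply, pd] using h2

theorem second (b : OrthonormalBasis (Fin 3) ℝ E3) {V : E2 → E3} {U : Set E2} (hU : IsOpen U)
    (hV : AnalyticOnNhd ℝ V U) {Q : P3} (h0 : ∀ w ∈ U, eval (cz b (V w)) Q = 0) (l k : Fin 2) :
    ∀ u ∈ U, ∑ i, (eval (cz b (V u)) (pderiv i Q) * cz b (pd l (pd k V) u) i +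
      cz b (pd k V u) i * ∑ j, eval (cz b (V u)) (pderiv j (pderiv i Q)) * cz b (pd l V u) j)
      = 0 := by
  intro u hu
  have hd : DifferentiableAt ℝ (pd k V) u :=
    (hV.fderiv u hu).differentiableAt.clm_apply (differentiableAt_const _)
  have hF := HasFDerivAt.fun_sum (u := Finset.univ) fun i _ =>
    (hasF_eval b (hV u hu).differentiableAt (pderiv i Q)).mul (hasF_cz b hd i)
  have h := zero_of_vanish hU hu (first b hU hV h0 k) hF
  have h2 := congrArg (fun L : E2 →L[ℝ] ℂ => L (EuclideanSpace.single l 1)) h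
  simpa [cl_apply, pd] using h2

/-- the shrinker equation tested against a complex conormal -/
theorem shr {V : E2 → E3} {U : Set E2} (hS : ShrinkerOn V U) {u : E2} (hu : u ∈ U)
    (G : E3 →L[ℝ] ℂ) (hG : ∀ i, G (pd i V u) = 0) :
    (gI V 1 1 u : ℂ) * G (pd 0 (pd 0 V) u) - 2 * (gI V 0 1 u : ℂ) * G (pd 0 (pd 1 V) u)
      + (gI V 0 0 u : ℂ) * G (pd 1 (pd 1 V) u) =
      -(((gI V 0 0 u : ℂ) * (gI V 1 1 u : ℂ) - (gI V 0 1 u : ℂ) ^ 2) * G (V u) / 2) := by
  obtain ⟨hW, hn⟩ := hS.2 u hu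
  have key : ∀ φ : E3 →L[ℝ] ℝ, (∀ i, φ (pd i V u) = 0) →
      gI V 1 1 u * φ (pd 0 (pd 0 V) u) - 2 * gI V 0 1 u * φ (pd 0 (pd 1 V) u)
        + gI V 0 0 u * φ (pd 1 (pd 1 V) u) =
        -((gI V 0 0 u * gI V 1 1 u - gI V 0 1 u ^ 2) * φ (V u) / 2) := by
    intro φ hφ
    have h := hn ((InnerProductSpace.toDual ℝ E3).symm φ)
      (fun i => by rw [InnerProductSpace.toDual_symm_apply]; exact hφ i)
    simp only [InnerProductSpace.toDual_symm_apply] at h
    rw [div_eq_iff hW] at h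
    linear_combination h
  have h1 := key (Complex.reCLM.comp G) fun i => by simp [hG i]
  have h2 := key (Complex.imCLM.comp G) fun i => by simp [hG i]
  simp only [ContinuousLinearMap.comp_apply, Complex.reCLM_apply, Complex.imCLM_apply] at h1 h2
  have h1' := congrArg (fun x : ℝ => (x : ℂ)) h1
  have h2' := congrArg (fun x : ℝ => (x : ℂ)) h2
  push_cast at h1' h2'
  rw [← Complex.re_add_im (G (pd 0 (pd 0 V) u)), ← Complex.re_add_im (G (pd 0 (pd 1 V) u)),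
    ← Complex.re_add_im (G (pd 1 (pd 1 V) u)), ← Complex.re_add_im (G (V u))]
  linear_combination h1' + Complex.I * h2'

end ChartA

open ChartA in
theorem chart : StmtCHART := by
  intro Xm U b Q hU hS h0 u hu
  have hV := hS.1
  set G : E3 →L[ℝ] ℂ := ∑ i, eval (cz b (Xm u)) (pderiv i Q) • cl b i with hGd
  have hG : ∀ x, G x = ∑ i, eval (cz b (Xm u)) (pderiv i Q) * cz b x i := by
    intro x
    simp [hGd, cl_apply]
  have hs := shr hS hu G fun i => by rw [hG]; exact first b hU hV h0 i u hu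
  have f0 := first b hU hV h0 0 u hu
  have f1 := first b hU hV h0 1 u hu
  have s00 := second b hU hV h0 0 0 u hu
  have s01 := second b hU hV h0 0 1 u hu
  have s11 := second b hU hV h0 1 1 u hu
  simp only [hG, Fin.sum_univ_three] at hs
  simp only [Fin.sum_univ_three, pderiv_swap 1 0, pderiv_swap 2 0, pderiv_swap 2 1]
    at f0 f1 s00 s01 s11
  have hW : (gI Xm 0 0 u : ℂ) * (gI Xm 1 1 u : ℂ) - (gI Xm 0 1 u : ℂ) ^ 2 ≠ 0 := by
    exact_mod_cast (hS.2 u hu).1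
  have h := alg (cz b (pd 0 Xm u) 0) (cz b (pd 0 Xm u) 1) (cz b (pd 0 Xm u) 2)
    (cz b (pd 1 Xm u) 0) (cz b (pd 1 Xm u) 1) (cz b (pd 1 Xm u) 2)
    (eval (cz b (Xm u)) (pderiv 0 Q)) (eval (cz b (Xm u)) (pderiv 1 Q))
    (eval (cz b (Xm u)) (pderiv 2 Q))
    (eval (cz b (Xm u)) (pderiv 0 (pderiv 0 Q))) (eval (cz b (Xm u)) (pderiv 0 (pderiv 1 Q)))
    (eval (cz b (Xm u)) (pderiv 0 (pderiv 2 Q))) (eval (cz b (Xm u)) (pderiv 1 (pderiv 1 Q)))
    (eval (cz b (Xm u)) (pderiv 1 (pderiv 2 Q))) (eval (cz b (Xm u)) (pderiv 2 (pderiv 2 Q)))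
    (cz b (Xm u) 0 * eval (cz b (Xm u)) (pderiv 0 Q)
      + cz b (Xm u) 1 * eval (cz b (Xm u)) (pderiv 1 Q)
      + cz b (Xm u) 2 * eval (cz b (Xm u)) (pderiv 2 Q))
    (gI Xm 0 0 u) (gI Xm 0 1 u) (gI Xm 1 1 u)
    (by rw [gI, inner_cz b]; ring) (by rw [gI, inner_cz b]) (by rw [gI, inner_cz b]; ring)
    hW f0 f1
    (by linear_combination (gI Xm 1 1 u : ℂ) * s00 - 2 * (gI Xm 0 1 u : ℂ) * s01
      + (gI Xm 0 0 u : ℂ) * s11 - hs)
  simp only [Phi, map_sub, map_mul, map_add, map_pow, eval_X, map_ofNat]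
  exact h

end Pool.Agent.MP_c73ff6_gt.H73
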