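import Pool.Agent.MP_c73ff6_gt.H73.Ode

/-! The algebraic theorem from its parts. -/

namespace Pool.Agent.MP_c73ff6_gt.H73

open MvPolynomial

theorem closed1 (h : StmtHAHN) : IsAlgClosed H1 :=
  h ℚ fun g n hn => ⟨g / n, by
    have : (n : ℚ) ≠ 0 := by positivity
    rw [nsmul_eq_mul]; field_simp⟩

theorem closed2 (h : StmtHAHN) : IsAlgClosed H2 :=
  h G2 fun g n hn => ⟨toLex ((ofLex g).1 / n, (ofLex g).2 / n), by
    have : (n : ℚ) ≠ 0 := by positivity
    change toLex (n • ((ofLex g).1 / n, (ofLex g).2 / n)) = g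
    rw [Prod.smul_mk, nsmul_eq_mul, nsmul_eq_mul, mul_div_cancel₀ _ this, mul_div_cancel₀ _ this]
    rfl⟩

theorem alg2_of_root (hind : StmtIND) {Q : P3} (hQ : Q ≠ 0) {f : H2}
    (hf : aeval ![f, pp, zz] Q = 0) : Alg2 (pp * f) := by
  let A := Algebra.adjoin ℂ ({pp, pp⁻¹, ww, zz} : Set H2)
  let a : A := ⟨pp, Algebra.subset_adjoin (by simp)⟩
  let c : A := ⟨zz, Algebra.subset_adjoin (by simp)⟩
  let T : P3 →ₐ[ℂ] Polynomial A := aeval ![Polynomial.X, Polynomial.C a, Polynomial.C c]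
  have h1 : (Polynomial.mapAlgHom A.val).comp T =
      aeval ![Polynomial.X, Polynomial.C pp, Polynomial.C zz] := by
    ext i : 1
    fin_cases i <;> simp [T, a, c]
  have h2 : ((Polynomial.aeval f : Polynomial A →ₐ[A] H2).restrictScalars ℂ).comp T =
      aeval ![f, pp, zz] := by
    ext i : 1
    fin_cases i <;> simp [T, a, c]
  have hT : T Q ≠ 0 := fun h => hQ (hind (by
    rw [← h1, map_zero, AlgHom.comp_apply, h, map_zero]))
  have hfa : IsAlgebraic A f := ⟨T Q, hT, by rw [← hf, ← h2]; rfl⟩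
  exact (isAlgebraic_algebraMap a).mul hfa

theorem core (hh : StmtHAHN) (hode : StmtODE) (hs : StmtSUPP) (hf : StmtFACE) (hn : StmtNEAR)
    (hk : StmtKER) (hp : StmtPDE) (hind : StmtIND) : StmtCORE := by
  intro I hI hI0 hPhi hEnd
  have hc := closed2 hh
  obtain ⟨Q, hQI, hQ0, hQd, hker⟩ := hk I hI hI0 fun Q hQ h0 =>
    (hn hc Q h0 (hEnd Q hQ)).imp fun _ h => h.1
  obtain ⟨f, hroot, hsm⟩ := hn hc Q hQ0 (hEnd Q hQI)
  have hK := hker f hroot
  have e : pp * f = 2 + (pp * f - 2) := by ring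
  have hpde := hp f Q hroot ((hK _).2 (hPhi Q hQI)) fun h => hQd ((hK _).1 h)
  have halg := alg2_of_root hind hQ0 hroot
  rw [e] at hpde halg
  refine (hK _).1 ?_
  by_contra hne
  have hY : pp * f - 2 ≠ 0 := fun h => hne (by
    rw [map_sub, map_mul, aeval_X, aeval_X, map_ofNat, ← h, mul_comm]; rfl)
  obtain ⟨j, hj, hA, hsupp⟩ := hs _ hY hsm hpde
  have hj0 : j ≠ 0 := by rintro rfl; norm_num at hj
  have hβ : j ^ 2 - 2 ≠ 0 := by linarith
  obtain ⟨Y0, hY0, ha1, ho⟩ := hf ((j ^ 2 - 2) / j) _ (div_ne_zero hβ hj0)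
    (fun g hg => (hsupp g hg).2) halg hpde
  refine hode j Y0 hj (fun b hb => (hsupp _ (hY0 b ▸ hb)).1) ?_ ha1 ho
  rw [hY0, div_div_cancel₀ hβ]
  exact hA

end Pool.Agent.MP_c73ff6_gt.H73
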