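import Mathlib

/-! Self-shrinkers of the mean curvature flow in `ℝ³`, written in local parametrisations. -/

namespace Pool.Agent.MP_c73ff6_gt.H73

open Filter Topology

/-- The Euclidean plane. -/
abbrev E2 := EuclideanSpace ℝ (Fin 2)

/-- Euclidean three-space. -/
abbrev E3 := EuclideanSpace ℝ (Fin 3)

/-- The derivative `∂X/∂u_i` of a parametrised surface. -/
noncomputable def pd (i : Fin 2) (X : E2 → E3) (u : E2) : E3 :=
  fderiv ℝ X u (EuclideanSpace.single i 1)

/-- The first fundamental form `g_ij = ⟨∂_i X, ∂_j X⟩`. -/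
noncomputable def gI (X : E2 → E3) (i j : Fin 2) (u : E2) : ℝ :=
  inner ℝ (pd i X u) (pd j X u)

/-- `X` is a real-analytic immersion on `U` that solves the self-shrinker equation: the mean
curvature vector (the normal part of `g^{ij} ∂_i ∂_j X`) equals minus one half of the normal part
of the position vector. -/
def ShrinkerOn (X : E2 → E3) (U : Set E2) : Prop :=
  AnalyticOnNhd ℝ X U ∧ ∀ u ∈ U,
    gI X 0 0 u * gI X 1 1 u - gI X 0 1 u ^ 2 ≠ 0 ∧
    ∀ n : E3, (∀ i, inner ℝ n (pd i X u) = 0) →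
      (gI X 1 1 u * inner ℝ n (pd 0 (pd 0 X) u) - 2 * gI X 0 1 u * inner ℝ n (pd 0 (pd 1 X) u)
          + gI X 0 0 u * inner ℝ n (pd 1 (pd 1 X) u))
        / (gI X 0 0 u * gI X 1 1 u - gI X 0 1 u ^ 2) = -inner ℝ n (X u) / 2

/-- The round shrinking cylinder of radius `√2` whose axis is spanned by the unit vector `v`. -/
def cylinder (v : E3) : Set E3 := {x | ‖x‖ ^ 2 - inner ℝ x v ^ 2 = 2}

/-- The points `c` of the cross-section circle (`c ⊥ v`, `|c| = √2`) of the cylinder with axis `v`
that are approached by the surface `Ψ` far out in the direction `v`: along some sequence of points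
of the surface the height `⟨Ψ, v⟩` tends to `+∞` and the part orthogonal to `v` tends to `c`. -/
def endPoints {M : Type*} (Ψ : M → E3) (v : E3) : Set E3 :=
  {c | inner ℝ c v = 0 ∧ ‖c‖ ^ 2 = 2 ∧ ∃ m : ℕ → M,
    Tendsto (fun k => inner ℝ (Ψ (m k)) v) atTop atTop ∧
    Tendsto (fun k => Ψ (m k) - inner ℝ (Ψ (m k)) v • v) atTop (𝓝 c)}

end Pool.Agent.MP_c73ff6_gt.H73
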