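import Pool.Agent.MP_c73ff6_gt.H73.Spec

/-! A transcendental element of a function field in one variable can be sent to `s⁻¹`. -/

namespace Pool.Agent.MP_c73ff6_gt.H73

open Polynomial

namespace EmbA

theorem alg_over {K H : Type} [Field K] [Field H] [Algebra K H] (x u e : H)
    (hu : Transcendental K u) (hux : IsAlgebraic (Algebra.adjoin K ({x} : Set H)) u)
    (he : IsAlgebraic (Algebra.adjoin K ({x} : Set H)) e) :
    IsAlgebraic (Algebra.adjoin K ({u} : Set H)) e := by
  have hx : Transcendental K x := by
    intro h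
    have h1 : (Algebra.adjoin K ({x} : Set H)).IsAlgebraic :=
      Algebra.isAlgebraic_adjoin_singleton_iff.2 h
    have h2 : Algebra.IsAlgebraic K (Algebra.adjoin K ({x} : Set H)) :=
      (Subalgebra.isAlgebraic_iff _).1 h1
    exact hu (hux.restrictScalars K)
  have h3 : IsAlgebraic (Algebra.adjoin K ({u} : Set H)) (algebraMap H H x) :=
    IsAlgebraic.adjoin_singleton hx hu hux
  refine IsAlgebraic.adjoin_of_forall_isAlgebraic (S := H) (s := {x}) (t := {u}) ?_ he
  intro y hy
  have : y = x := hy.1
  subst this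
  exact h3

theorem gen {K H L : Type} [Field K] [Field H] [Field L] [Algebra K H] [Algebra K L]
    [IsAlgClosed L] (S : Subalgebra K H) (u : S) (t : L) (ht : Transcendental K t)
    (hu : Transcendental K (u : H))
    (he : ∀ e : S, IsAlgebraic (Algebra.adjoin K ({(u : H)} : Set H)) (e : H)) :
    ∃ σ : S →ₐ[K] L, Function.Injective σ ∧ σ u = t := by
  have hle : Algebra.adjoin K ({(u : H)} : Set H) ≤ S :=
    Algebra.adjoin_le (Set.singleton_subset_iff.2 u.2)
  set R := Algebra.adjoin K ({(u : H)} : Set H) with hR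
  let φ : R →ₐ[K] S := Subalgebra.inclusion hle
  let ψ : R →ₐ[K] L :=
    (aeval t : K[X] →ₐ[K] L).comp (algEquivOfTranscendental K (u : H) hu).symm.toAlgHom
  have hφ : Function.Injective φ := Subalgebra.inclusion_injective hle
  have hψ : Function.Injective ψ :=
    (transcendental_iff_injective.1 ht).comp (algEquivOfTranscendental K (u : H) hu).symm.injective
  let _ : Algebra R S := φ.toRingHom.toAlgebra
  let _ : Algebra R L := ψ.toRingHom.toAlgebra
  have : IsScalarTower R S H := IsScalarTower.of_algebraMap_eq fun _ => rfl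
  have : FaithfulSMul R S := (faithfulSMul_iff_algebraMap_injective R S).2 hφ
  have : FaithfulSMul R L := (faithfulSMul_iff_algebraMap_injective R L).2 hψ
  have : Algebra.IsAlgebraic R S :=
    ⟨fun e => (isAlgebraic_algebraMap_iff (R := R) (A := H) Subtype.val_injective).1 (he e)⟩
  let τ : S →ₐ[R] L := IsAlgClosed.lift
  have hτ : ∀ r : R, τ (φ r) = ψ r := fun r => τ.commutes r
  refine ⟨{ τ.toRingHom with commutes' := fun c => ?_ }, ?_, ?_⟩
  · have := hτ (algebraMap K R c)
    rw [φ.commutes, ψ.commutes] at this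
    exact this
  · show Function.Injective τ
    rw [injective_iff_map_eq_zero]
    intro e h0
    by_contra hne
    have hmem : e ∈ RingHom.ker τ.toRingHom := h0
    refine Ideal.comap_ne_bot_of_algebraic_mem (R := R) hne hmem
      (Algebra.IsAlgebraic.isAlgebraic e) ?_
    rw [eq_bot_iff]
    intro r hr
    have h1 : τ (φ r) = 0 := hr
    rw [hτ] at h1
    exact hψ (h1.trans (map_zero ψ).symm)
  · have := hτ ⟨(u : H), Algebra.self_mem_adjoin_singleton K _⟩
    have h2 : ψ ⟨(u : H), Algebra.self_mem_adjoin_singleton K _⟩ = t := by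
      show aeval t ((algEquivOfTranscendental K (u : H) hu).symm
        ⟨(u : H), Algebra.self_mem_adjoin_singleton K _⟩) = t
      rw [algEquivOfTranscendental_symm_gen, aeval_X]
    rw [h2] at this
    exact this

theorem coeff_aeval (p : ℂ[X]) (n : ℕ) :
    (aeval (HahnSeries.single (-1) 1 : H1) p).coeff (-(n : ℚ)) = p.coeff n := by
  induction p using Polynomial.induction_on' with
  | add p q hp hq => rw [map_add, HahnSeries.coeff_add, hp, hq, coeff_add]
  | monomial m a =>
    rw [aeval_monomial, HahnSeries.single_pow, one_pow, ← Algebra.smul_def,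
      HahnSeries.coeff_smul, coeff_monomial, HahnSeries.coeff_single]
    have : (-(n : ℚ) = m • (-1 : ℚ)) ↔ m = n := by
      rw [nsmul_eq_mul, mul_neg_one, neg_inj, Nat.cast_inj, eq_comm]
    by_cases h : m = n
    · rw [if_pos (this.2 h), if_pos h, smul_eq_mul, mul_one]
    · rw [if_neg fun h' => h (this.1 h'), if_neg h, smul_zero]

theorem transc : Transcendental ℂ (HahnSeries.single (-1) 1 : H1) := by
  rintro ⟨p, hp, h⟩
  apply hp
  ext n
  rw [← coeff_aeval, h]
  rfl

end EmbA

theorem emb : StmtEMB := by
  intro hc S x u hx hu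
  exact EmbA.gen S u _ EmbA.transc hu fun e => EmbA.alg_over (x : H1) u e hu (hx u) (hx e)

end Pool.Agent.MP_c73ff6_gt.H73
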