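import Pool.Agent.MP_c73ff6_gt.H73.Spec

/-! A closed immersed surface inside the cylinder is the whole cylinder. -/

namespace Pool.Agent.MP_c73ff6_gt.H73

open Filter Topology

namespace EqA

/-- An immersion into the standard cylinder is locally onto it. -/
theorem core (Y : E2 → E3) (U : Set E2) (u0 : E2) (hU : U ∈ 𝓝 u0) (D : E2 →L[ℝ] E3)
    (hd : HasStrictFDerivAt Y D u0) (hinj : Function.Injective D)
    (hC : ∀ u ∈ U, Y u 0 ^ 2 + Y u 1 ^ 2 = 2) :
    ∀ᶠ s in 𝓝 (Y u0), s 0 ^ 2 + s 1 ^ 2 = 2 → ∃ u ∈ U, Y u = s := by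
  have h0 := hC u0 (mem_of_mem_nhds hU)
  let p : Fin 3 → E3 →L[ℝ] ℝ := fun i => EuclideanSpace.proj i
  have hp : ∀ i (s : E3), p i s = s i := fun i s => rfl
  have hi : ∀ i, HasFDerivAt (fun u => Y u i) ((p i).comp D) u0 := fun i =>
    (p i).hasFDerivAt.comp u0 hd.hasFDerivAt
  have ht : ∀ w, Y u0 0 * D w 0 + Y u0 1 * D w 1 = 0 := by
    intro w
    have h1 := ((hi 0).mul (hi 0)).add ((hi 1).mul (hi 1))
    have h2 : HasFDerivAt (fun _ : E2 => (2 : ℝ)) (0 : E2 →L[ℝ] ℝ) u0 := hasFDerivAt_const _ _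
    have h3 := h1.unique (h2.congr_of_eventuallyEq (by
      filter_upwards [hU] with u hu
      have := hC u hu
      simp only [Pi.add_apply, Pi.mul_apply]
      linarith))
    have h4 := congrArg (fun f : E2 →L[ℝ] ℝ => f w) h3
    simp only [add_apply, smul_apply,
      ContinuousLinearMap.comp_apply, hp, smul_eq_mul, zero_apply] at h4
    linarith
  let L : E3 →L[ℝ] ℝ × ℝ := ((-Y u0 1) • p 0 + Y u0 0 • p 1).prod (p 2)
  have hL : ∀ s : E3, L s = (-Y u0 1 * s 0 + Y u0 0 * s 1, s 2) := fun s => rfl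
  have hLi : Function.Injective (L.comp D) := by
    rw [injective_iff_map_eq_zero]
    intro w hw
    apply hinj
    rw [map_zero]
    rw [ContinuousLinearMap.comp_apply, hL, Prod.mk_eq_zero] at hw
    have h1 := ht w
    have a0 : D w 0 = 0 := by
      have : (Y u0 0 ^ 2 + Y u0 1 ^ 2) * D w 0 = 0 := by
        linear_combination Y u0 0 * h1 - Y u0 1 * hw.1
      rw [h0] at this
      linarith
    have a1 : D w 1 = 0 := by
      have : (Y u0 0 ^ 2 + Y u0 1 ^ 2) * D w 1 = 0 := by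
        linear_combination Y u0 1 * h1 + Y u0 0 * hw.1
      rw [h0] at this
      linarith
    ext i
    fin_cases i
    · exact a0
    · exact a1
    · exact hw.2
  have hLs : Function.Surjective (L.comp D) :=
    (LinearMap.injective_iff_surjective_of_finrank_eq_finrank
      (f := (L.comp D).toLinearMap) (by simp)).1 hLi
  have hm := (L.hasStrictFDerivAt.comp u0 hd).map_nhds_eq_of_surj
    (LinearMap.range_eq_top.2 hLs)
  have hq : ∀ᶠ s : E3 in 𝓝 (Y u0), 0 < Y u0 0 * s 0 + Y u0 1 * s 1 := by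
    have hc : Continuous fun s : E3 => Y u0 0 * s 0 + Y u0 1 * s 1 := by fun_prop
    exact hc.continuousAt.eventually (lt_mem_nhds (by nlinarith))
  have hV : {u | u ∈ U ∧ 0 < Y u0 0 * Y u 0 + Y u0 1 * Y u 1} ∈ 𝓝 u0 :=
    inter_mem hU (hd.continuousAt.eventually hq)
  have hW := image_mem_map (m := fun u => L (Y u)) hV
  rw [hm] at hW
  filter_upwards [hq, L.continuous.continuousAt.eventually hW] with s hs1 hs2 hs3
  obtain ⟨u, ⟨hu1, hu2⟩, hu3⟩ := hs2
  refine ⟨u, hu1, ?_⟩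
  have h5 := hC u hu1
  simp only [hL, Prod.mk.injEq] at hu3
  have h6 : Y u0 0 * Y u 0 + Y u0 1 * Y u 1 = Y u0 0 * s 0 + Y u0 1 * s 1 := by
    refine (pow_left_inj₀ hu2.le hs1.le two_ne_zero).1 ?_
    linear_combination (Y u0 0 ^ 2 + Y u0 1 ^ 2) * (h5 - hs3) -
      (-Y u0 1 * Y u 0 + Y u0 0 * Y u 1 + (-Y u0 1 * s 0 + Y u0 0 * s 1)) * hu3.1
  have a0 : Y u 0 = s 0 := by
    have : (Y u0 0 ^ 2 + Y u0 1 ^ 2) * (Y u 0 - s 0) = 0 := by
      linear_combination Y u0 0 * h6 - Y u0 1 * hu3.1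
    rw [h0] at this
    linarith
  have a1 : Y u 1 = s 1 := by
    have : (Y u0 0 ^ 2 + Y u0 1 ^ 2) * (Y u 1 - s 1) = 0 := by
      linear_combination Y u0 1 * h6 + Y u0 0 * hu3.1
    rw [h0] at this
    linarith
  ext i
  fin_cases i
  · exact a0
  · exact a1
  · exact hu3.2

/-- The standard cylinder is connected. -/
theorem conn (S : Set E3) (hc : IsClosed S) (s0 : E3) (h0 : s0 ∈ S)
    (h1 : s0 0 ^ 2 + s0 1 ^ 2 = 2)
    (ho : ∀ s ∈ S, ∀ᶠ s' in 𝓝 s, s' 0 ^ 2 + s' 1 ^ 2 = 2 → s' ∈ S) :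
    ∀ s : E3, s 0 ^ 2 + s 1 ^ 2 = 2 → s ∈ S := by
  let P : ℝ × ℝ → E3 := fun t => !₂[√2 * Real.cos t.1, √2 * Real.sin t.1, t.2]
  have hP : Continuous P := by
    refine (PiLp.continuous_toLp 2 _).comp (continuous_pi fun i => ?_)
    fin_cases i <;> simp <;> fun_prop
  have hPC : ∀ t, P t 0 ^ 2 + P t 1 ^ 2 = 2 := by
    intro t
    have e : √2 ^ 2 = 2 := Real.sq_sqrt (by norm_num)
    have e2 := Real.cos_sq_add_sin_sq t.1
    change (√2 * Real.cos t.1) ^ 2 + (√2 * Real.sin t.1) ^ 2 = 2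
    linear_combination (Real.cos t.1 ^ 2 + Real.sin t.1 ^ 2) * e + 2 * e2
  have hPs : ∀ s : E3, s 0 ^ 2 + s 1 ^ 2 = 2 → ∃ t, P t = s := by
    intro s hs
    have hn : ‖(⟨s 0, s 1⟩ : ℂ)‖ = √2 := by
      rw [Complex.norm_def, Complex.normSq_mk]
      congr 1
      linarith
    refine ⟨(Complex.arg ⟨s 0, s 1⟩, s 2), ?_⟩
    ext i
    fin_cases i
    · have := Complex.norm_mul_cos_arg ⟨s 0, s 1⟩
      rw [hn] at this
      exact this
    · have := Complex.norm_mul_sin_arg ⟨s 0, s 1⟩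
      rw [hn] at this
      exact this
    · rfl
  have hcl : IsClopen (P ⁻¹' S) := by
    refine ⟨hc.preimage hP, isOpen_iff_mem_nhds.2 fun t ht => ?_⟩
    filter_upwards [hP.continuousAt.eventually (ho _ ht)] with t' ht'
    exact ht' (hPC t')
  obtain ⟨t0, ht0⟩ := hPs s0 h1
  have hu := hcl.eq_univ ⟨t0, by rw [Set.mem_preimage, ht0]; exact h0⟩
  intro s hs
  obtain ⟨t, rfl⟩ := hPs s hs
  exact (hu ▸ Set.mem_univ t : t ∈ P ⁻¹' S)

/-- A non-zero Gram determinant makes the derivative injective. -/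
theorem inj (X : E2 → E3) (u : E2) (h : gI X 0 0 u * gI X 1 1 u - gI X 0 1 u ^ 2 ≠ 0) :
    Function.Injective (fderiv ℝ X u) := by
  rw [injective_iff_map_eq_zero]
  intro w hw
  have e : w = w 0 • EuclideanSpace.single (0 : Fin 2) (1 : ℝ) +
      w 1 • EuclideanSpace.single (1 : Fin 2) (1 : ℝ) := by
    ext i
    fin_cases i <;> simp
  have h1 : w 0 • pd 0 X u + w 1 • pd 1 X u = 0 := by
    rw [e, map_add, map_smul, map_smul] at hw
    exact hw
  have a0 : w 0 * gI X 0 0 u + w 1 * gI X 0 1 u = 0 := by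
    have := congrArg (fun z => inner ℝ (pd 0 X u) z) h1
    simpa only [gI, inner_add_right, real_inner_smul_right, inner_zero_right] using this
  have a1 : w 0 * gI X 0 1 u + w 1 * gI X 1 1 u = 0 := by
    have := congrArg (fun z => inner ℝ z (pd 1 X u)) h1
    simpa only [gI, inner_add_left, real_inner_smul_left, inner_zero_left] using this
  ext i
  fin_cases i
  · refine mul_left_cancel₀ h ?_
    change _ * w 0 = _ * 0
    linear_combination gI X 1 1 u * a0 - gI X 0 1 u * a1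
  · refine mul_left_cancel₀ h ?_
    change _ * w 1 = _ * 0
    linear_combination gI X 0 0 u * a1 - gI X 0 1 u * a0

/-- Coordinates adapted to the axis. -/
theorem coord (v : E3) (hv : ‖v‖ = 1) : ∃ e : E3 ≃ₗᵢ[ℝ] E3,
    ∀ s, s ∈ cylinder v ↔ e s 0 ^ 2 + e s 1 ^ 2 = 2 := by
  obtain ⟨b, hb⟩ := Orthonormal.exists_orthonormalBasis_extension_of_card_eq (𝕜 := ℝ)
    (E := E3) (ι := Fin 3) (by simp) (v := fun _ => v) (s := {2})
    ⟨fun _ => hv, fun i j hij => (hij (Subsingleton.elim _ _)).elim⟩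
  refine ⟨b.repr, fun s => ?_⟩
  have h1 : inner ℝ s v = b.repr s 2 := by
    rw [b.repr_apply_apply, hb 2 rfl, real_inner_comm]
  have h2 : ‖s‖ ^ 2 = b.repr s 0 ^ 2 + b.repr s 1 ^ 2 + b.repr s 2 ^ 2 := by
    rw [← b.repr.norm_map s, EuclideanSpace.real_norm_sq_eq, Fin.sum_univ_three]
  rw [cylinder, Set.mem_ofPred_eq, h1, h2]
  constructor <;> intro h <;> linarith

end EqA

theorem eq_ : StmtEQ := by
  intro M _ _ _ Ψ hΨ v hv hsub hcl
  obtain ⟨e, he⟩ := EqA.coord v hv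
  refine hsub.antisymm fun s hs => ?_
  obtain ⟨m0⟩ := (inferInstance : Nonempty M)
  have key := EqA.conn (e.symm ⁻¹' Set.range Ψ) (hcl.preimage e.symm.continuous) (e (Ψ m0))
    (by simp) ((he _).1 (hsub ⟨m0, rfl⟩)) ?_ (e s) ((he s).1 hs)
  · simpa using key
  rintro s' ⟨m, hm⟩
  have hu := mem_chart_target E2 m
  obtain ⟨ha, hg⟩ := hΨ m
  have hd := (e.toContinuousLinearEquiv : E3 →L[ℝ] E3).hasStrictFDerivAt.comp _
    (ha _ hu).hasStrictFDerivAt
  have hc := EqA.core _ (chartAt E2 m).target _ ((chartAt E2 m).open_target.mem_nhds hu) _ hd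
    (e.injective.comp (EqA.inj _ _ (hg _ hu).1)) fun u _ => (he _).1 (hsub ⟨_, rfl⟩)
  have e0 : s' = e ((Ψ ∘ (chartAt E2 m).symm) (chartAt E2 m m)) := by
    rw [Function.comp_apply, (chartAt E2 m).left_inv (mem_chart_source E2 m), hm,
      e.apply_symm_apply]
  rw [e0]
  filter_upwards [hc] with t ht h2
  obtain ⟨u, -, hu2⟩ := ht h2
  exact ⟨(chartAt E2 m).symm u, by rw [← hu2]; exact (e.symm_apply_apply _).symm⟩

end Pool.Agent.MP_c73ff6_gt.H73
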