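import Pool.Agent.MP_c73ff6_gt.H73.Spec

/-! Restriction of a solution of the graph equation to the face `b = γ a`. -/

namespace Pool.Agent.MP_c73ff6_gt.H73

namespace FaceA

/-- The point of the face of level `b`. -/
def ph (γ b : ℚ) : G2 := toLex (b, b / γ)

theorem lev_ph (γ b : ℚ) : lev (ph γ b) = b := rfl

theorem pex_ph (γ b : ℚ) : pex (ph γ b) = b / γ := rfl

theorem g2_ext {g h : G2} (h1 : lev g = lev h) (h2 : pex g = pex h) : g = h :=
  ofLex.injective (Prod.ext h1 h2)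

theorem ph_add (γ a b : ℚ) : ph γ (a + b) = ph γ a + ph γ b :=
  g2_ext (by rw [map_add]; rfl) (by rw [map_add, pex_ph, pex_ph, pex_ph, add_div])

theorem ph_zero (γ : ℚ) : ph γ 0 = 0 :=
  g2_ext (by rw [map_zero]; rfl) (by rw [map_zero, pex_ph, zero_div])

theorem ph_inj {γ a b : ℚ} (h : ph γ a = ph γ b) : a = b := congrArg lev h

theorem le_of_ph {γ a b : ℚ} (h : ph γ a ≤ ph γ b) : a ≤ b := by
  rcases Prod.Lex.toLex_le_toLex.1 h with h | h
  · exact h.le
  · exact h.1.le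

theorem ph_lev {γ : ℚ} (hγ : γ ≠ 0) {g : G2} (h : γ * pex g = lev g) : ph γ (lev g) = g :=
  g2_ext rfl (by rw [pex_ph, ← h]; field_simp)

/-- Restriction to the face. -/
noncomputable def pr (γ : ℚ) : H2 →+ H1 where
  toFun x := ⟨fun b => x.coeff (ph γ b), by
    have hx := x.isPWO_support
    rw [Set.IsPWO, Set.partiallyWellOrderedOn_iff_exists_lt] at hx ⊢
    intro f hf
    obtain ⟨m, n, h1, h2⟩ := hx (fun k => ph γ (f k)) hf
    exact ⟨m, n, h1, le_of_ph h2⟩⟩
  map_zero' := by ext b; rfl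
  map_add' x y := by ext b; rfl

theorem pr_coeff (γ : ℚ) (x : H2) (b : ℚ) : (pr γ x).coeff b = x.coeff (ph γ b) := rfl

/-- Series supported in the half-plane. -/
def R (γ : ℚ) : Subring H2 where
  carrier := {x | ∀ g, x.coeff g ≠ 0 → γ * pex g ≤ lev g}
  zero_mem' := fun g h => absurd rfl h
  one_mem' := fun g h => by
    have : g = 0 := by
      by_contra e
      exact h (HahnSeries.coeff_single_of_ne e)
    subst this
    simp
  add_mem' := fun {x y} hx hy g h => by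
    by_cases e : x.coeff g = 0
    · exact hy g fun e' => h (by rw [HahnSeries.coeff_add, e, e', add_zero])
    · exact hx g e
  neg_mem' := fun {x} hx g h => hx g fun e => h (by rw [HahnSeries.coeff_neg, e, neg_zero])
  mul_mem' := fun {x y} hx hy g h => by
    obtain ⟨a, ha, b, hb, rfl⟩ := HahnSeries.support_mul_subset (x := x) (y := y) h
    have h1 := hx a ha
    have h2 := hy b hb
    simp only [map_add]
    linarith

theorem th_mem {γ : ℚ} (χ : G2 →+ ℚ) {x : H2} (hx : x ∈ R γ) : th χ x ∈ R γ :=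
  fun g h => hx g (th_support χ x h)

theorem ww_mem (γ : ℚ) : ww ∈ R γ := fun g h => by
  have : g = toLex (1, 0) := by
    by_contra e
    exact h (HahnSeries.coeff_single_of_ne e)
  subst this
  show γ * 0 ≤ 1
  simp

theorem pr_mul {γ : ℚ} (hγ : γ ≠ 0) {x y : H2} (hx : x ∈ R γ) (hy : y ∈ R γ) :
    pr γ (x * y) = pr γ x * pr γ y := by
  ext b
  rw [pr_coeff, HahnSeries.coeff_mul, HahnSeries.coeff_mul]
  have key : ∀ ij ∈ Finset.antidiagonal x.isPWO_support y.isPWO_support (ph γ b),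
      ph γ (lev ij.1) = ij.1 ∧ ph γ (lev ij.2) = ij.2 ∧ lev ij.1 + lev ij.2 = b := by
    intro ij hij
    obtain ⟨h1, h2, h3⟩ := Finset.mem_antidiagonal.1 hij
    have e1 : lev ij.1 + lev ij.2 = b := by rw [← map_add, h3, lev_ph]
    have e2 : pex ij.1 + pex ij.2 = b / γ := by rw [← map_add, h3, pex_ph]
    have e3 : γ * pex ij.1 + γ * pex ij.2 = b := by rw [← mul_add, e2]; field_simp
    have k1 := hx _ h1
    have k2 := hy _ h2
    exact ⟨ph_lev hγ (by linarith), ph_lev hγ (by linarith), e1⟩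
  refine Finset.sum_nbij' (fun ij => (lev ij.1, lev ij.2)) (fun ab => (ph γ ab.1, ph γ ab.2))
    ?_ ?_ ?_ ?_ ?_
  · intro ij hij
    obtain ⟨k1, k2, k3⟩ := key ij hij
    obtain ⟨h1, h2, -⟩ := Finset.mem_antidiagonal.1 hij
    refine Finset.mem_antidiagonal.2 ⟨?_, ?_, k3⟩
    · show x.coeff (ph γ (lev ij.1)) ≠ 0
      rw [k1]; exact h1
    · show y.coeff (ph γ (lev ij.2)) ≠ 0
      rw [k2]; exact h2
  · intro ab hab
    obtain ⟨h1, h2, h3⟩ := Finset.mem_antidiagonal.1 hab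
    exact Finset.mem_antidiagonal.2 ⟨h1, h2, by rw [← ph_add, h3]⟩
  · intro ij hij
    obtain ⟨k1, k2, -⟩ := key ij hij
    exact Prod.ext k1 k2
  · intro ab _
    rfl
  · intro ij hij
    obtain ⟨k1, k2, -⟩ := key ij hij
    rw [pr_coeff, pr_coeff, k1, k2]

theorem pr_single (γ b : ℚ) (c : ℂ) :
    pr γ (HahnSeries.single (ph γ b) c) = HahnSeries.single b c := by
  ext a
  rw [pr_coeff]
  by_cases e : a = b
  · subst e; simp
  · rw [HahnSeries.coeff_single_of_ne e, HahnSeries.coeff_single_of_ne fun h => e (ph_inj h)]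

theorem pr_one (γ : ℚ) : pr γ 1 = 1 := by
  have := pr_single γ 0 1
  rwa [ph_zero] at this

/-- The restriction as a ring homomorphism. -/
noncomputable def prR {γ : ℚ} (hγ : γ ≠ 0) : R γ →+* H1 where
  toFun x := pr γ x
  map_zero' := map_zero _
  map_add' _ _ := map_add _ _ _
  map_one' := pr_one γ
  map_mul' x y := pr_mul hγ x.2 y.2

theorem prR_mk {γ : ℚ} (hγ : γ ≠ 0) (x : H2) (hx : x ∈ R γ) : prR hγ ⟨x, hx⟩ = pr γ x := rfl

theorem pr_ww {γ : ℚ} (hγ : γ ≠ 0) : pr γ ww = 0 := by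
  ext b
  rw [pr_coeff, HahnSeries.coeff_zero]
  refine HahnSeries.coeff_single_of_ne fun h => ?_
  have h1 : b = 1 := congrArg lev h
  have h2 : b / γ = 0 := congrArg pex h
  rw [h1] at h2
  exact hγ (by simpa using h2)

theorem pr_dA (γ : ℚ) (x : H2) : pr γ (dA x) = dX γ (pr γ x) := by
  ext b
  rw [pr_coeff, dA, dX, th_coeff, th_coeff, pr_coeff, pex_ph, AddMonoidHom.coe_mulLeft,
    div_eq_inv_mul]

theorem pr_dB {γ : ℚ} (hγ : γ ≠ 0) (x : H2) :
    pr γ (dB x) = -(algebraMap ℂ H1 (γ : ℂ) * dX γ (pr γ x)) := by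
  ext b
  have hc : (γ : ℂ) ≠ 0 := by exact_mod_cast hγ
  rw [HahnSeries.algebraMap_apply, HahnSeries.C_mul_eq_smul, HahnSeries.coeff_neg,
    HahnSeries.coeff_smul, pr_coeff, dB, dX, th_coeff, th_coeff, pr_coeff,
    AddMonoidHom.coe_mulLeft, AddMonoidHom.neg_apply, lev_ph]
  simp only [Algebra.algebraMap_self, RingHom.id_apply, smul_eq_mul]
  push_cast
  field_simp

theorem ode_pr {γ : ℚ} (hγ : γ ≠ 0) {F : H2} (hF : F ∈ R γ) (h : pde F = 0) :
    ode γ (pr γ F) = 0 := by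
  have ha : dA F - F ∈ R γ := sub_mem (th_mem _ hF) hF
  have hb : dB F ∈ R γ := th_mem _ hF
  have haa : dA (dA F - F) ∈ R γ := th_mem _ ha
  have hbb : dB (dB F) ∈ R γ := th_mem _ hb
  have hba : dB (dA F - F) ∈ R γ := th_mem _ ha
  have e : (8 * (⟨dA (dA F - F), haa⟩ - 2 * ⟨dA F - F, ha⟩)
      + 4 * ⟨dA F - F, ha⟩ * (⟨F, hF⟩ - ⟨dA F - F, ha⟩ - ⟨dB F, hb⟩)
      + ⟨ww, ww_mem γ⟩ ^ 2 * (8 * ⟨dA F - F, ha⟩ * (⟨dB (dB F), hbb⟩ - ⟨dB F, hb⟩)
        - 8 * ⟨dB F, hb⟩ * ⟨dB (dA F - F), hba⟩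
        - ⟨dB F, hb⟩ ^ 2 * (⟨F, hF⟩ - ⟨dA F - F, ha⟩ - ⟨dB F, hb⟩)) : R γ) = 0 := by
    apply Subtype.ext
    rw [Subring.coe_zero, ← h]
    rfl
  have e2 := congrArg (prR hγ) e
  simp only [map_add, map_mul, map_pow, map_ofNat, map_zero, RingHom.map_sub, prR_mk] at e2
  rw [pr_ww hγ, pr_dA, map_sub (pr γ), pr_dA, pr_dB hγ F] at e2
  have h4 : (4 : H1) ≠ 0 := by norm_num
  refine mul_left_cancel₀ h4 ?_
  rw [mul_zero, ← e2, ode]
  ring

/-- Finite sums of monomials with an integer exponent of `p`. -/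
def P : Subalgebra ℂ H2 where
  carrier := {x | x.support.Finite ∧ ∀ g ∈ x.support, ∃ n : ℤ, pex g = n}
  add_mem' := fun {x y} hx hy => ⟨(hx.1.union hy.1).subset (HahnSeries.support_add_subset x y),
    fun g hg => (HahnSeries.support_add_subset x y hg).elim (hx.2 g) (hy.2 g)⟩
  mul_mem' := fun {x y} hx hy => ⟨(hx.1.add hy.1).subset HahnSeries.support_mul_subset,
    fun g hg => by
      obtain ⟨a, ha, b, hb, rfl⟩ := HahnSeries.support_mul_subset hg
      obtain ⟨m, hm⟩ := hx.2 a ha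
      obtain ⟨n, hn⟩ := hy.2 b hb
      exact ⟨m + n, by simp only [map_add, hm, hn, Int.cast_add]⟩⟩
  algebraMap_mem' := fun c => by
    have hs : (algebraMap ℂ H2 c).support ⊆ {0} := HahnSeries.support_single_subset
    refine ⟨(Set.finite_singleton _).subset hs, fun g hg => ⟨0, ?_⟩⟩
    rw [Set.mem_singleton_iff.1 (hs hg), map_zero, Int.cast_zero]

theorem single_mem (b : ℚ) (n : ℤ) (c : ℂ) : HahnSeries.single (toLex (b, (n : ℚ))) c ∈ P := by
  have hs : (HahnSeries.single (toLex (b, (n : ℚ))) c : H2).support ⊆ {toLex (b, (n : ℚ))} :=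
    HahnSeries.support_single_subset
  refine ⟨(Set.finite_singleton _).subset hs, fun g hg => ⟨n, ?_⟩⟩
  rw [Set.mem_singleton_iff.1 (hs hg)]
  rfl

theorem adj_le : Algebra.adjoin ℂ ({pp, pp⁻¹, ww, zz} : Set H2) ≤ P := by
  refine Algebra.adjoin_le ?_
  rintro x (rfl | rfl | rfl | rfl)
  · simpa [pp] using single_mem 0 1 1
  · have : (-toLex ((0 : ℚ), (1 : ℚ)) : G2) = toLex (0, ((-1 : ℤ) : ℚ)) :=
      g2_ext (by rw [map_neg]; show -(0 : ℚ) = 0; simp)
        (by rw [map_neg]; show -(1 : ℚ) = ((-1 : ℤ) : ℚ); simp)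
    rw [pp, HahnSeries.inv_single, this]
    exact single_mem _ _ _
  · simpa [ww] using single_mem 1 0 1
  · simpa [zz] using single_mem (-1) 0 1

theorem xi_pow (γ : ℚ) (n : ℤ) : (HahnSeries.single (n * γ) 1 : H1) ∈
    Algebra.adjoin ℂ ({xi γ, (xi γ)⁻¹} : Set H1) := by
  have h1 : xi γ ∈ Algebra.adjoin ℂ ({xi γ, (xi γ)⁻¹} : Set H1) :=
    Algebra.subset_adjoin (by simp)
  have h2 : (xi γ)⁻¹ ∈ Algebra.adjoin ℂ ({xi γ, (xi γ)⁻¹} : Set H1) :=
    Algebra.subset_adjoin (by simp)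
  induction n using Int.induction_on with
  | zero =>
    rw [Int.cast_zero, zero_mul]
    exact one_mem _
  | succ n ih =>
    have := mul_mem ih h1
    rw [show (HahnSeries.single (((n : ℤ) : ℚ) * γ) 1 : H1) * xi γ =
      HahnSeries.single ((((n : ℤ) + 1 : ℤ) : ℚ) * γ) 1 by
        rw [xi, HahnSeries.single_mul_single, mul_one]; congr 2; push_cast; ring] at this
    exact this
  | pred n ih =>
    have := mul_mem ih h2
    rw [show (HahnSeries.single (((-(n : ℤ) : ℤ) : ℚ) * γ) 1 : H1) * (xi γ)⁻¹ =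
      HahnSeries.single (((-(n : ℤ) - 1 : ℤ) : ℚ) * γ) 1 by
        rw [xi, HahnSeries.inv_single, HahnSeries.single_mul_single, inv_one, mul_one]
        congr 2; push_cast; ring] at this
    exact this

theorem pr_mem {γ : ℚ} (hγ : γ ≠ 0) {x : H2} (hx : x ∈ P) :
    pr γ x ∈ Algebra.adjoin ℂ ({xi γ, (xi γ)⁻¹} : Set H1) := by
  have hf : (pr γ x).support.Finite :=
    (hx.1.preimage (f := ph γ) fun _ _ _ _ h => ph_inj h).subset fun b hb => hb
  have e : pr γ x = ∑ b ∈ hf.toFinset, HahnSeries.single b ((pr γ x).coeff b) := by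
    ext a
    rw [HahnSeries.coeff_sum, Finset.sum_eq_single a]
    · simp
    · intro b _ hb
      exact HahnSeries.coeff_single_of_ne hb.symm
    · intro ha
      have : (pr γ x).coeff a = 0 := by
        by_contra h
        exact ha (hf.mem_toFinset.2 h)
      simp [this]
  rw [e]
  refine sum_mem fun b hb => ?_
  obtain ⟨n, hn⟩ := hx.2 (ph γ b) (hf.mem_toFinset.1 hb)
  rw [pex_ph, div_eq_iff hγ] at hn
  have := mul_mem (Subalgebra.algebraMap_mem _ ((pr γ x).coeff b)) (xi_pow γ n)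
  rw [HahnSeries.algebraMap_apply, HahnSeries.C_apply, HahnSeries.single_mul_single, zero_add,
    mul_one, ← hn] at this
  exact this

theorem alg_pr {γ : ℚ} (hγ : γ ≠ 0) {F : H2} (hF : F ∈ R γ) (h : Alg2 F) : Alg1 γ (pr γ F) := by
  classical
  obtain ⟨T, hT, hE⟩ := h
  have hP : ∀ i, (T.coeff i : H2) ∈ P := fun i => adj_le (T.coeff i).2
  have hfin : (⋃ i ∈ T.support, (T.coeff i : H2).support).Finite :=
    T.support.finite_toSet.biUnion fun i _ => (hP i).1
  have hne : (⋃ i ∈ T.support, (T.coeff i : H2).support).Nonempty := by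
    obtain ⟨i, hi⟩ := Polynomial.nonempty_support_iff.2 hT
    have h0 : (T.coeff i : H2) ≠ 0 := fun e => Polynomial.mem_support_iff.1 hi (Subtype.ext e)
    obtain ⟨g, hg⟩ := HahnSeries.support_nonempty_iff.2 h0
    exact ⟨g, Set.mem_biUnion hi hg⟩
  obtain ⟨g0, hg0, hmin⟩ := Set.exists_min_image _ (fun g => lev g - γ * pex g) hfin hne
  obtain ⟨i0, hi0, hg⟩ := Set.mem_iUnion₂.1 hg0
  set μ := lev g0 - γ * pex g0 with hμ
  set s : G2 := toLex (-μ, ((0 : ℤ) : ℚ)) with hs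
  have ls : lev s = -μ := rfl
  have ps : pex s = 0 := by show ((0 : ℤ) : ℚ) = 0; simp
  set m : H2 := HahnSeries.single s 1 with hm
  have hR : ∀ i, m * (T.coeff i : H2) ∈ R γ := by
    intro i g h
    rw [hm, HahnSeries.coeff_single_mul, one_mul] at h
    have hi : i ∈ T.support := Polynomial.mem_support_iff.2 fun e => h (by rw [e]; rfl)
    have := hmin (g - s) (Set.mem_biUnion hi h)
    simp only [map_sub, ls, ps] at this
    linarith
  have hQ : ∀ i, m * (T.coeff i : H2) ∈ P := fun i => mul_mem (single_mem _ _ _) (hP i)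
  refine ⟨∑ i ∈ T.support, Polynomial.monomial i ⟨pr γ (m * (T.coeff i : H2)), pr_mem hγ (hQ i)⟩,
    fun e => ?_, ?_⟩
  · have e1 := congrArg (fun p => Polynomial.coeff p i0) e
    simp only [Polynomial.finsetSum_coeff, Polynomial.coeff_monomial, Finset.sum_ite_eq', hi0,
      if_true, Polynomial.coeff_zero] at e1
    have e2 : (pr γ (m * (T.coeff i0 : H2))).coeff (γ * pex g0) = 0 := by
      rw [show pr γ (m * (T.coeff i0 : H2)) = 0 from congrArg Subtype.val e1]; rfl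
    rw [pr_coeff, hm, HahnSeries.coeff_single_mul, one_mul] at e2
    have e3 : ph γ (γ * pex g0) - s = g0 :=
      g2_ext (by rw [map_sub, ls, lev_ph, hμ]; ring)
        (by rw [map_sub, ps, pex_ph]; field_simp; ring)
    rw [e3] at e2
    exact hg e2
  · have e : (∑ i ∈ T.support, (⟨m * (T.coeff i : H2), hR i⟩ : R γ) * ⟨F, hF⟩ ^ i) = 0 := by
      apply Subtype.ext
      rw [Polynomial.aeval_def, Polynomial.eval₂_eq_sum, Polynomial.sum_def] at hE
      have := congrArg (m * ·) hE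
      simp only [Finset.mul_sum, mul_zero, ← mul_assoc] at this
      rw [Subring.coe_zero, ← this, AddSubmonoidClass.coe_finsetSum]
      rfl
    have e2 := congrArg (prR hγ) e
    simp only [map_sum, map_mul, map_pow, map_zero, prR_mk] at e2
    rw [map_sum, ← e2]
    refine Finset.sum_congr rfl fun i _ => ?_
    rw [Polynomial.aeval_monomial]
    rfl

end FaceA

open FaceA in
theorem face : StmtFACE := by
  intro γ Y hγ hY hA hP
  have hF : 2 + Y ∈ R γ := add_mem (ofNat_mem _ 2) hY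
  have e : pr γ (2 + Y) = 2 + pr γ Y := by
    rw [map_add, ← one_add_one_eq_two, map_add, pr_one, one_add_one_eq_two]
  refine ⟨pr γ Y, fun b => rfl, ?_, ?_⟩
  · rw [← e]; exact alg_pr hγ hF hA
  · rw [← e]; exact ode_pr hγ hF hP

end Pool.Agent.MP_c73ff6_gt.H73
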