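import Pool.Agent.MP_c73ff6_gt.H73.Spec

/-! Hahn series over `ℂ` with divisible exponent group form an algebraically closed field. -/

namespace Pool.Agent.MP_c73ff6_gt.H73

namespace HahnA

open HahnSeries

variable {Γ : Type} [AddCommGroup Γ] [LinearOrder Γ] [IsOrderedAddMonoid Γ]

theorem ot_inv {x : HahnSeries Γ ℂ} (hx : x ≠ 0) : x⁻¹.orderTop = ((-x.order : Γ) : WithTop Γ) := by
  have hi : x⁻¹ ≠ 0 := inv_ne_zero hx
  have h := orderTop_mul x x⁻¹
  rw [mul_inv_cancel₀ hx, orderTop_one, ← order_eq_orderTop_of_ne_zero hx,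
    ← order_eq_orderTop_of_ne_zero hi, ← WithTop.coe_add, ← WithTop.coe_zero,
    WithTop.coe_inj] at h
  rw [← order_eq_orderTop_of_ne_zero hi, WithTop.coe_inj]
  exact eq_neg_of_add_eq_zero_right h.symm

/-- The series of nonnegative order. -/
noncomputable def OO (Γ : Type) [AddCommGroup Γ] [LinearOrder Γ] [IsOrderedAddMonoid Γ] :
    ValuationSubring (HahnSeries Γ ℂ) where
  carrier := {x | 0 ≤ x.orderTop}
  mul_mem' := fun {a b} ha hb => by
    show 0 ≤ (a * b).orderTop
    rw [orderTop_mul]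
    exact add_nonneg ha hb
  one_mem' := by
    show 0 ≤ (1 : HahnSeries Γ ℂ).orderTop
    rw [orderTop_one]
  add_mem' := fun {a b} ha hb => by
    show 0 ≤ (a + b).orderTop
    exact le_trans (le_min (show 0 ≤ a.orderTop from ha) (show 0 ≤ b.orderTop from hb))
      min_orderTop_le_orderTop_add
  zero_mem' := by
    show 0 ≤ (0 : HahnSeries Γ ℂ).orderTop
    rw [orderTop_zero]
    exact le_top
  neg_mem' := fun {a} ha => by
    show 0 ≤ (-a).orderTop
    rw [orderTop_neg]
    exact ha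
  mem_or_inv_mem' := fun x => by
    by_cases hx : x = 0
    · left
      show 0 ≤ x.orderTop
      rw [hx, orderTop_zero]
      exact le_top
    · rcases le_total 0 x.order with h | h
      · left
        exact zero_le_orderTop_iff.2 h
      · right
        show 0 ≤ x⁻¹.orderTop
        rw [ot_inv hx]
        exact_mod_cast neg_nonneg.2 h

theorem exists_val (K : Type) [Field K] (f : HahnSeries Γ ℂ →+* K) :
    ∃ A : ValuationSubring K, ∀ x y : HahnSeries Γ ℂ,
      A.valuation (f x) ≤ A.valuation (f y) ↔ y.orderTop ≤ x.orderTop := by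
  obtain ⟨A, hA, hl⟩ := IsLocalRing.exists_factor_valuationRing (f.comp (OO Γ).subtype)
  have h1 : ∀ x : HahnSeries Γ ℂ, 0 ≤ x.orderTop → A.valuation (f x) ≤ 1 := fun x hx =>
    (A.valuation_le_one_iff _).2 (hA ⟨x, hx⟩)
  have h2 : ∀ x : HahnSeries Γ ℂ, 0 < x.orderTop → A.valuation (f x) < 1 := fun x hx => by
    refine lt_of_le_of_ne (h1 x hx.le) fun h => ?_
    have hu : IsUnit ((f.comp (OO Γ).subtype).codRestrict A.toSubring hA ⟨x, hx.le⟩) :=
      (A.valuation_eq_one_iff ⟨f x, hA ⟨x, hx.le⟩⟩).2 h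
    obtain ⟨y, hy⟩ := (hl.map_nonunit _ hu).exists_right_inv
    have h3 : x * (y : HahnSeries Γ ℂ) = 1 := congrArg Subtype.val hy
    have h4 := orderTop_mul x (y : HahnSeries Γ ℂ)
    rw [h3, orderTop_one] at h4
    have h5 : 0 ≤ (y : HahnSeries Γ ℂ).orderTop := y.2
    exact absurd h4 (ne_of_lt (lt_of_lt_of_le hx (le_add_of_nonneg_right h5)))
  have h3 : ∀ x : HahnSeries Γ ℂ, A.valuation (f x) ≤ 1 ↔ 0 ≤ x.orderTop := fun x => by
    refine ⟨fun h => ?_, h1 x⟩
    by_contra hn
    have hx : x ≠ 0 := fun e => hn (by rw [e, orderTop_zero]; exact le_top)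
    have h4 : x.order < 0 := lt_of_not_ge fun e => hn (zero_le_orderTop_iff.2 e)
    have h5 := h2 x⁻¹ (by rw [ot_inv hx]; exact_mod_cast neg_pos.2 h4)
    have h6 : 0 < A.valuation (f x) := (A.valuation.pos_iff).2 ((map_ne_zero f).2 hx)
    rw [map_inv₀, map_inv₀, inv_lt_one₀ h6] at h5
    exact absurd h (not_le.2 h5)
  refine ⟨A, fun x y => ?_⟩
  by_cases hy : y = 0
  · subst hy
    simp
  have h6 : 0 < A.valuation (f y) := (A.valuation.pos_iff).2 ((map_ne_zero f).2 hy)
  rw [← div_le_one₀ h6, ← map_div₀, ← map_div₀, h3, div_eq_mul_inv, orderTop_mul, ot_inv hy, ← order_eq_orderTop_of_ne_zero hy]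
  by_cases hx : x = 0
  · subst hx
    simp
  rw [← order_eq_orderTop_of_ne_zero hx, ← WithTop.coe_add, ← WithTop.coe_zero, WithTop.coe_le_coe,
    WithTop.coe_le_coe, ← sub_eq_add_neg, sub_nonneg]

section step

variable {K : Type} [Field K] [Algebra (HahnSeries Γ ℂ) K] {V : Type}
  [LinearOrderedCommGroupWithZero V] (v : Valuation K V)

theorem val_mon
    (hv : ∀ x y : HahnSeries Γ ℂ,
      v (algebraMap _ K x) ≤ v (algebraMap _ K y) ↔ y.orderTop ≤ x.orderTop)
    (hd : ∀ (g : Γ) (n : ℕ), 0 < n → ∃ h : Γ, n • h = g) {β : K} (h0 : β ≠ 0)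
    (ha : IsAlgebraic (HahnSeries Γ ℂ) β) :
    ∃ g : Γ, v β = v (algebraMap (HahnSeries Γ ℂ) K (single g 1)) := by
  classical
  obtain ⟨P, hP, hr⟩ := ha
  set f := algebraMap (HahnSeries Γ ℂ) K with hf
  have hb : v β ≠ 0 := (v.ne_zero_iff).2 h0
  have hc : ∀ i ∈ P.support, v (f (P.coeff i)) ≠ 0 := fun i hi =>
    (v.ne_zero_iff).2 ((map_ne_zero f).2 (Polynomial.mem_support_iff.1 hi))
  have key : ∀ i ∈ P.support, ∀ j ∈ P.support, i < j →
      v (f (P.coeff i) * β ^ i) = v (f (P.coeff j) * β ^ j) →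
      ∃ g : Γ, v β = v (f (single g 1)) := by
    intro i hi j hj hij e
    obtain ⟨n, rfl⟩ := Nat.exists_eq_add_of_lt hij
    have hq : P.coeff i / P.coeff (i + n + 1) ≠ 0 :=
      div_ne_zero (Polynomial.mem_support_iff.1 hi) (Polynomial.mem_support_iff.1 hj)
    obtain ⟨h, hh⟩ := hd (P.coeff i / P.coeff (i + n + 1)).order (n + 1) n.succ_pos
    refine ⟨h, ?_⟩
    have e1 : v β ^ (n + 1) = v (f (P.coeff i / P.coeff (i + n + 1))) := by
      rw [map_div₀, map_div₀, eq_div_iff (hc _ hj)]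
      rw [map_mul, map_mul, map_pow, map_pow, add_assoc, _root_.pow_add] at e
      apply mul_right_cancel₀ (pow_ne_zero i hb)
      rw [e, add_assoc]
      ac_rfl
    have e2 : v (f (single h 1)) ^ (n + 1) = v (f (P.coeff i / P.coeff (i + n + 1))) := by
      rw [← map_pow, ← map_pow, single_pow, one_pow, hh]
      apply le_antisymm <;> rw [hv, orderTop_single one_ne_zero, order_eq_orderTop_of_ne_zero hq]
    exact (pow_left_inj₀ zero_le zero_le n.succ_ne_zero).1 (e1.trans e2.symm)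
  obtain ⟨j, hj, hm⟩ := P.support.exists_max_image (fun i => v (f (P.coeff i) * β ^ i))
    (Polynomial.support_nonempty.2 hP)
  by_contra hn
  have hs := v.map_sum_eq_of_lt (f := fun i => f (P.coeff i) * β ^ i) hj fun i hi => by
    obtain ⟨hi1, hi2⟩ := Finset.mem_sdiff.1 hi
    refine lt_of_le_of_ne (hm i hi1) fun e => hn ?_
    rcases lt_or_gt_of_ne (fun e => hi2 (Finset.mem_singleton.2 e) : i ≠ j) with h | h
    · exact key i hi1 j hj h e
    · exact key j hj i hi1 h e.symm
  rw [Polynomial.aeval_def, Polynomial.eval₂_eq_sum, Polynomial.sum_def] at hr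
  rw [hr, map_zero, map_mul, map_pow] at hs
  exact mul_ne_zero (hc j hj) (pow_ne_zero j hb) hs.symm

theorem val_res
    (hv : ∀ x y : HahnSeries Γ ℂ,
      v (algebraMap _ K x) ≤ v (algebraMap _ K y) ↔ y.orderTop ≤ x.orderTop)
    {y : K} (h1 : v y = 1) (ha : IsAlgebraic (HahnSeries Γ ℂ) y) :
    ∃ c : ℂ, v (y - algebraMap (HahnSeries Γ ℂ) K (C c)) < 1 := by
  classical
  obtain ⟨P, hP, hr⟩ := ha
  set f := algebraMap (HahnSeries Γ ℂ) K with hf
  obtain ⟨j, hj, hm⟩ := P.support.exists_max_image (fun i => v (f (P.coeff i)))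
    (Polynomial.support_nonempty.2 hP)
  have hj0 : P.coeff j ≠ 0 := Polynomial.mem_support_iff.1 hj
  set q : ℕ → HahnSeries Γ ℂ := fun i => P.coeff i / P.coeff j with hq
  have hq0 : ∀ i ∈ P.support, 0 ≤ (q i).orderTop := fun i hi => by
    have h6 : 0 < v (f (P.coeff j)) := (v.pos_iff).2 ((map_ne_zero f).2 hj0)
    rw [← orderTop_one (Γ := Γ) (R := ℂ), ← hv, map_one, map_one, hq]
    simp only [map_div₀]
    rw [div_le_one₀ h6]
    exact hm i hi
  set R : Polynomial ℂ := ∑ i ∈ P.support, Polynomial.monomial i ((q i).coeff 0) with hR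
  have hRj : R.coeff j = 1 := by
    rw [hR, Polynomial.finsetSum_coeff, Finset.sum_eq_single j]
    · simp [hq, div_self hj0]
    · intro i _ hi
      simp [Polynomial.coeff_monomial, hi]
    · intro h
      exact absurd hj h
  have hR0 : R ≠ 0 := fun e => by simp [e] at hRj
  set φ : ℂ →+* K := f.comp (C : ℂ →+* HahnSeries Γ ℂ) with hφ
  have hφ1 : ∀ c : ℂ, c ≠ 0 → v (φ c) = 1 := fun c hc => by
    have e : (C c : HahnSeries Γ ℂ).orderTop = (1 : HahnSeries Γ ℂ).orderTop := by
      rw [orderTop_one, C_apply, orderTop_single hc]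
      rfl
    rw [← map_one v, ← map_one f, hφ, RingHom.comp_apply]
    apply le_antisymm <;> rw [hv, e]
  have hs : ∑ i ∈ P.support, f (q i) * y ^ i = 0 := by
    rw [Polynomial.aeval_def, Polynomial.eval₂_eq_sum, Polynomial.sum_def] at hr
    have e : ∑ i ∈ P.support, f (q i) * y ^ i =
        (∑ i ∈ P.support, f (P.coeff i) * y ^ i) / f (P.coeff j) := by
      rw [Finset.sum_div]
      refine Finset.sum_congr rfl fun i _ => ?_
      simp only [hq, map_div₀]
      ring
    rw [e, hr, zero_div]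
  have hlt : v (R.eval₂ φ y) < 1 := by
    have e : R.eval₂ φ y = ∑ i ∈ P.support, f (C ((q i).coeff 0) - q i) * y ^ i := by
      simp only [map_sub, sub_mul, Finset.sum_sub_distrib, hs, sub_zero]
      rw [hR, Polynomial.eval₂_finsetSum]
      refine Finset.sum_congr rfl fun i _ => ?_
      rw [Polynomial.eval₂_monomial]
      rfl
    rw [e]
    refine v.map_sum_lt one_ne_zero fun i hi => ?_
    rw [map_mul, map_pow, h1, one_pow, mul_one, ← map_one v, ← map_one f, ← not_le, hv,
      orderTop_one, not_le]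
    by_contra hn
    have h2 : (C ((q i).coeff 0) - q i).orderTop = ((0 : Γ) : WithTop Γ) := by
      refine le_antisymm (not_lt.1 hn) (le_trans (le_min ?_ (hq0 i hi)) min_orderTop_le_orderTop_sub)
      rw [C_apply]
      exact orderTop_single_le
    exact coeff_orderTop_ne h2 (by simp)
  by_contra hn
  push Not at hn
  have hsp := (IsAlgClosed.splits R).eq_prod_roots
  rw [hsp, Polynomial.eval₂_mul, Polynomial.eval₂_C, map_mul,
    hφ1 _ (Polynomial.leadingCoeff_ne_zero.2 hR0), one_mul] at hlt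
  refine absurd hlt (not_lt.2 ?_)
  generalize R.roots = s
  induction s using Multiset.induction_on with
  | empty => simp
  | cons a s ih =>
    rw [Multiset.map_cons, Multiset.prod_cons, Polynomial.eval₂_mul, map_mul,
      Polynomial.eval₂_sub, Polynomial.eval₂_X, Polynomial.eval₂_C]
    exact one_le_mul_of_one_le_of_one_le (hn a) ih

theorem step
    (hv : ∀ x y : HahnSeries Γ ℂ,
      v (algebraMap _ K x) ≤ v (algebraMap _ K y) ↔ y.orderTop ≤ x.orderTop)
    (hd : ∀ (g : Γ) (n : ℕ), 0 < n → ∃ h : Γ, n • h = g) {β : K} (h0 : β ≠ 0)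
    [Algebra.IsAlgebraic (HahnSeries Γ ℂ) K] :
    ∃ b : HahnSeries Γ ℂ, v (β - algebraMap (HahnSeries Γ ℂ) K b) < v β := by
  obtain ⟨g, hg⟩ := val_mon v hv hd h0 (Algebra.IsAlgebraic.isAlgebraic β)
  set t := algebraMap (HahnSeries Γ ℂ) K (single g 1) with ht
  have hb : v β ≠ 0 := (v.ne_zero_iff).2 h0
  have ht0 : t ≠ 0 := fun e => hb (by rw [hg, e, map_zero])
  obtain ⟨c, hc⟩ := val_res v hv (y := β / t) (by rw [map_div₀, ← hg, div_self hb])
    (Algebra.IsAlgebraic.isAlgebraic _)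
  refine ⟨C c * single g 1, ?_⟩
  have e : β - algebraMap (HahnSeries Γ ℂ) K (C c * single g 1) =
      (β / t - algebraMap (HahnSeries Γ ℂ) K (C c)) * t := by
    rw [map_mul, ← ht, sub_mul, div_mul_cancel₀ _ ht0]
  rw [e, map_mul, ← hg]
  exact mul_lt_of_lt_one_left (zero_lt_iff.2 hb) hc

theorem surj
    (hv : ∀ x y : HahnSeries Γ ℂ,
      v (algebraMap _ K x) ≤ v (algebraMap _ K y) ↔ y.orderTop ≤ x.orderTop)
    (hd : ∀ (g : Γ) (n : ℕ), 0 < n → ∃ h : Γ, n • h = g)
    [Algebra.IsAlgebraic (HahnSeries Γ ℂ) K] :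
    Function.Surjective (algebraMap (HahnSeries Γ ℂ) K) := by
  classical
  intro α
  by_contra hn
  set f := algebraMap (HahnSeries Γ ℂ) K with hf
  have h0 : ∀ a, α - f a ≠ 0 := fun a e => hn ⟨a, (sub_eq_zero.1 e).symm⟩
  choose g hg using fun a => val_mon v hv hd (h0 a) (Algebra.IsAlgebraic.isAlgebraic _)
  have hag : ∀ a b s, s < g a → s < g b → a.coeff s = b.coeff s := fun a b s ha hb => by
    have e : f (a - b) = (α - f b) - (α - f a) := by rw [map_sub]; ring
    have h1 := v.map_sub (α - f b) (α - f a)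
    rw [← e, hg, hg, le_max_iff, hv, hv, orderTop_single one_ne_zero,
      orderTop_single one_ne_zero] at h1
    have h2 : (a - b).coeff s = 0 := coeff_eq_zero_of_lt_orderTop (by
      rcases h1 with h | h
      · exact lt_of_lt_of_le (WithTop.coe_lt_coe.2 hb) h
      · exact lt_of_lt_of_le (WithTop.coe_lt_coe.2 ha) h)
    rwa [coeff_sub, sub_eq_zero] at h2
  set F : Γ → ℂ := fun s => if h : ∃ a, s < g a then h.choose.coeff s else 0 with hF
  have hFa : ∀ a s, s < g a → F s = a.coeff s := fun a s hs => by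
    have h : ∃ a, s < g a := ⟨a, hs⟩
    simp only [hF, dif_pos h]
    exact hag _ _ s h.choose_spec hs
  have hw : (Function.support F).IsPWO := by
    refine Set.IsWF.isPWO (Set.isWF_iff_no_descending_seq.2 fun u hu hm => ?_)
    have h : ∃ a, u 0 < g a := by
      by_contra h
      exact hm 0 (by simp only [hF, dif_neg h])
    obtain ⟨a, ha⟩ := h
    refine Set.isWF_iff_no_descending_seq.1 a.isWF_support u hu fun n => ?_
    have h1 := hm n
    rw [Function.mem_support, hFa a _ (lt_of_le_of_lt (hu.antitone (Nat.zero_le n)) ha)] at h1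
    exact h1
  set m : HahnSeries Γ ℂ := ⟨F, hw⟩ with hm
  obtain ⟨b, hb⟩ := step v hv hd (h0 m)
  have e1 : α - f m - f b = α - f (m + b) := by rw [map_add]; ring
  have h2 : v (f (m + b - m)) ≤ v (α - f (m + b)) := by
    rw [hg, hv, orderTop_single one_ne_zero, le_orderTop_iff_forall]
    intro s hs
    rw [coeff_sub, sub_eq_zero]
    exact (hFa _ s (WithTop.coe_lt_coe.1 hs)).symm
  have e2 : α - f m = (α - f (m + b)) + f (m + b - m) := by rw [map_sub]; ring
  have h3 : v (α - f m) ≤ v (α - f (m + b)) := by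
    rw [e2]
    exact v.map_add_le le_rfl h2
  rw [e1] at hb
  exact absurd h3 (not_le.2 hb)

end step

end HahnA

theorem hahn : StmtHAHN := by
  intro Γ _ _ _ hd
  obtain ⟨A, hA⟩ := HahnA.exists_val (AlgebraicClosure (HahnSeries Γ ℂ))
    (algebraMap (HahnSeries Γ ℂ) _)
  exact IsAlgClosed.of_ringEquiv (AlgebraicClosure (HahnSeries Γ ℂ)) _
    (RingEquiv.ofBijective (algebraMap (HahnSeries Γ ℂ) _)
      ⟨RingHom.injective _, HahnA.surj A.valuation hA hd⟩).symm

end Pool.Agent.MP_c73ff6_gt.H73
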