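import Pool.Agent.MP_c73ff6_gt.H73.Spec

/-! An algebraic shrinker with a cylindrical end lies on the cylinder. -/

namespace Pool.Agent.MP_c73ff6_gt.H73

open MvPolynomial Filter Topology

namespace IncA

variable (b : OrthonormalBasis (Fin 3) ℝ E3)

theorem cz0 (x : E3) :
    cz b x 0 = (inner ℝ x (b 0) : ℝ) - Complex.I * (inner ℝ x (b 1) : ℝ) := rfl

theorem cz1 (x : E3) :
    cz b x 1 = (inner ℝ x (b 0) : ℝ) + Complex.I * (inner ℝ x (b 1) : ℝ) := rfl

theorem cz2 (x : E3) : cz b x 2 = (inner ℝ x (b 2) : ℝ) := rfl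

theorem an_inner (c x : E3) : AnalyticAt ℝ (fun y : E3 => ((inner ℝ y c : ℝ) : ℂ)) x := by
  have h := (Complex.ofRealCLM.comp (innerSL ℝ c)).analyticAt x
  refine h.congr (Eventually.of_forall fun y => ?_)
  simp [real_inner_comm]

theorem an_cz (i : Fin 3) (x : E3) : AnalyticAt ℝ (fun y : E3 => cz b y i) x := by
  fin_cases i
  · exact (an_inner (b 0) x).sub (analyticAt_const.mul (an_inner (b 1) x))
  · exact (an_inner (b 0) x).add (analyticAt_const.mul (an_inner (b 1) x))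
  · exact an_inner (b 2) x

theorem an_eval (Q : P3) (x : E3) : AnalyticAt ℝ (fun y : E3 => eval (cz b y) Q) x :=
  AnalyticAt.aeval_mvPolynomial (A := ℂ) (B := ℂ) (f := fun y : E3 => cz b y)
    (fun i => an_cz b i x) Q

theorem cz_mul (x : E3) :
    cz b x 0 * cz b x 1 = ((‖x‖ ^ 2 - inner ℝ x (b 2) ^ 2 : ℝ) : ℂ) := by
  have h := b.sum_sq_inner_left x
  rw [Fin.sum_univ_three] at h
  rw [cz0, cz1, ← h]
  push_cast
  linear_combination (-((inner ℝ x (b 1) : ℝ) : ℂ) ^ 2) * Complex.I_sq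

theorem cz_inj {x y : E3} (h1 : cz b x 1 = cz b y 1) (h2 : inner ℝ x (b 2) = inner ℝ y (b 2)) :
    x = y := by
  have hre := congrArg Complex.re h1
  have him := congrArg Complex.im h1
  simp only [cz1, Complex.add_re, Complex.ofReal_re, Complex.mul_re, Complex.I_re, zero_mul,
    Complex.I_im, Complex.ofReal_im, mul_zero, sub_zero, add_zero, Complex.add_im,
    Complex.mul_im, one_mul, zero_add] at hre him
  rw [← b.sum_repr' x, ← b.sum_repr' y, Fin.sum_univ_three, Fin.sum_univ_three,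
    real_inner_comm x, real_inner_comm x, real_inner_comm x, real_inner_comm y,
    real_inner_comm y, real_inner_comm y, hre, him, h2]

/-- The coordinate `x i` as a polynomial in the null coordinates. -/
noncomputable def co (i : Fin 3) : P3 :=
  C ((b 0 i : ℂ) / 2) * (X 0 + X 1) + C ((b 1 i : ℂ) * Complex.I / 2) * (X 0 - X 1)
    + C (b 2 i : ℂ) * X 2

theorem eval_co (x : E3) (i : Fin 3) : eval (cz b x) (co b i) = (x i : ℂ) := by
  have h := congrArg (fun y : E3 => y i) (b.sum_repr' x)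
  simp only [Fin.sum_univ_three, PiLp.add_apply, PiLp.smul_apply, smul_eq_mul] at h
  rw [real_inner_comm x, real_inner_comm x, real_inner_comm x] at h
  simp only [co, map_add, map_mul, map_sub, eval_C, eval_X, cz0, cz1, cz2]
  rw [← h]
  push_cast
  linear_combination (-((inner ℝ x (b 1) : ℝ) : ℂ) * (b 1 i : ℂ)) * Complex.I_sq

/-- A real polynomial written in null coordinates. -/
noncomputable def cx : MvPolynomial (Fin 3) ℝ →+* P3 :=
  eval₂Hom (C.comp Complex.ofRealHom) (co b)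

theorem eval_cx (x : E3) (P : MvPolynomial (Fin 3) ℝ) :
    eval (cz b x) (cx b P) = ((eval (fun i => x i) P : ℝ) : ℂ) := by
  have h : (eval (cz b x)).comp (cx b) = Complex.ofRealHom.comp (eval fun i => x i) := by
    refine MvPolynomial.ringHom_ext (fun r => ?_) fun i => ?_
    · simp [cx]
    · simp [cx, eval_co]
  exact RingHom.congr_fun h P

theorem cx_ne {P : MvPolynomial (Fin 3) ℝ} (hP : P ≠ 0) : cx b P ≠ 0 := by
  intro h
  refine hP (MvPolynomial.funext fun x => ?_)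
  have h1 := eval_cx b (WithLp.toLp 2 x) P
  rw [h, map_zero] at h1
  rw [map_zero]
  exact_mod_cast h1.symm

variable {M : Type} [TopologicalSpace M] [ChartedSpace E2 M] {Ψ : M → E3}

theorem an_chart (hS : ∀ m : M, ShrinkerOn (Ψ ∘ (chartAt E2 m).symm) (chartAt E2 m).target)
    (Q : P3) (m : M) : AnalyticOnNhd ℝ (fun u => eval (cz b (Ψ ((chartAt E2 m).symm u))) Q)
      (chartAt E2 m).target := fun u hu =>
  (an_eval b Q _).comp ((hS m).1 u hu)

theorem cont (hS : ∀ m : M, ShrinkerOn (Ψ ∘ (chartAt E2 m).symm) (chartAt E2 m).target)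
    (Q : P3) (m : M) : ContinuousAt (fun m' => eval (cz b (Ψ m')) Q) m := by
  have h1 := (an_chart b hS Q m _ (mem_chart_target E2 m)).continuousAt
  have h2 := h1.comp ((chartAt E2 m).continuousAt (mem_chart_source E2 m))
  refine h2.congr ?_
  filter_upwards [chart_source_mem_nhds E2 m] with m' hm'
  simp only [Function.comp_apply, (chartAt E2 m).left_inv hm']

theorem spread [PreconnectedSpace M]
    (hS : ∀ m : M, ShrinkerOn (Ψ ∘ (chartAt E2 m).symm) (chartAt E2 m).target) (Q : P3) {m0 : M}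
    (h0 : ∀ᶠ m in 𝓝 m0, eval (cz b (Ψ m)) Q = 0) (m : M) : eval (cz b (Ψ m)) Q = 0 := by
  have hcl : IsClopen {m : M | ∀ᶠ m' in 𝓝 m, eval (cz b (Ψ m')) Q = 0} := by
    refine ⟨isClosed_of_closure_subset fun m hm => ?_, isOpen_setOfPred_eventually_nhds⟩
    set e := chartAt E2 m with he
    obtain ⟨r, hr, hb⟩ := Metric.isOpen_iff.1 e.open_target _ (mem_chart_target E2 m)
    have hN : e.source ∩ e ⁻¹' Metric.ball (e m) r ∈ 𝓝 m :=
      (e.isOpen_inter_preimage Metric.isOpen_ball).mem_nhds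
        ⟨mem_chart_source E2 m, Metric.mem_ball_self hr⟩
    obtain ⟨m', hm1, hm2⟩ := mem_closure_iff_nhds.1 hm _ hN
    have ht : Tendsto e.symm (𝓝 (e m')) (𝓝 m') := e.tendsto_symm hm1.1
    have hz := ((an_chart b hS Q m).mono hb).eqOn_zero_of_preconnected_of_eventuallyEq_zero
      (convex_ball (e m) r).isPreconnected hm1.2 (ht.eventually hm2)
    filter_upwards [hN] with y hy
    have := hz hy.2
    simp only [Pi.zero_apply] at this
    rwa [e.left_inv hy.1] at this
  have hu := hcl.eq_univ ⟨m0, h0⟩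
  have hm : m ∈ {m : M | ∀ᶠ m' in 𝓝 m, eval (cz b (Ψ m')) Q = 0} := hu ▸ Set.mem_univ m
  exact Eventually.self_of_nhds (p := fun m' => eval (cz b (Ψ m')) Q = 0) hm

/-- The polynomials vanishing on the surface. -/
noncomputable def van (Ψ : M → E3) : Ideal P3 := ⨅ m, RingHom.ker (eval (cz b (Ψ m)))

omit [TopologicalSpace M] [ChartedSpace E2 M] in
theorem mem_van {Q : P3} : Q ∈ van b Ψ ↔ ∀ m, eval (cz b (Ψ m)) Q = 0 := by
  simp only [van, Ideal.mem_iInf, RingHom.mem_ker]

theorem van_prime [PreconnectedSpace M]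
    (hS : ∀ m : M, ShrinkerOn (Ψ ∘ (chartAt E2 m).symm) (chartAt E2 m).target) (m0 : M) :
    (van b Ψ).IsPrime := by
  refine ⟨fun h => ?_, fun {Q R} h => ?_⟩
  · have h1 : (1 : P3) ∈ van b Ψ := h ▸ Submodule.mem_top
    have := (mem_van b).1 h1 m0
    rw [map_one] at this
    exact one_ne_zero this
  · by_cases hQ : Q ∈ van b Ψ
    · exact Or.inl hQ
    · obtain ⟨m, hm⟩ := not_forall.1 (mt (mem_van b).2 hQ)
      refine Or.inr ((mem_van b).2 (spread b hS R (m0 := m) ?_))
      filter_upwards [(cont b hS Q m).eventually_ne hm] with y hy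
      have := (mem_van b).1 h y
      rw [map_mul] at this
      exact (mul_eq_zero.1 this).resolve_left hy

omit [TopologicalSpace M] [ChartedSpace E2 M] in
theorem end_zero (hR : StmtREV) {Q : P3} (hQ : Q ∈ van b Ψ) {c : E3}
    (hc : c ∈ endPoints Ψ (b 2)) : eval ![cz b c 0, cz b c 1, 0] (rev Q) = 0 := by
  obtain ⟨-, -, m, h1, h2⟩ := hc
  have hz : Tendsto (fun k => (((inner ℝ (Ψ (m k)) (b 2) : ℝ) : ℂ))⁻¹) atTop (𝓝 0) := by
    have := (Complex.continuous_ofReal.tendsto 0).comp h1.inv_tendsto_atTop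
    refine this.congr fun k => ?_
    simp
  have hc : ∀ i : Fin 3, i ≠ 2 → ∀ (x : E3) (t : ℝ),
      inner ℝ (x - t • b 2) (b i) = inner ℝ x (b i) := fun i hi x t => by
    rw [inner_sub_left, inner_smul_left, b.inner_eq_zero hi.symm, mul_zero, sub_zero]
  have hq : Tendsto (fun k => cz b (Ψ (m k)) 0) atTop (𝓝 (cz b c 0)) := by
    refine ((an_cz b 0 c).continuousAt.tendsto.comp h2).congr fun k => ?_
    simp only [Function.comp_apply, cz0, hc 0 (by decide), hc 1 (by decide)]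
  have hp : Tendsto (fun k => cz b (Ψ (m k)) 1) atTop (𝓝 (cz b c 1)) := by
    refine ((an_cz b 1 c).continuousAt.tendsto.comp h2).congr fun k => ?_
    simp only [Function.comp_apply, cz1, hc 0 (by decide), hc 1 (by decide)]
  have hv : Tendsto (fun k => (![cz b (Ψ (m k)) 0, cz b (Ψ (m k)) 1,
      (((inner ℝ (Ψ (m k)) (b 2) : ℝ) : ℂ))⁻¹] : Fin 3 → ℂ)) atTop
      (𝓝 ![cz b c 0, cz b c 1, 0]) := by
    refine tendsto_pi_nhds.2 fun i => ?_
    fin_cases i
    · exact hq
    · exact hp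
    · exact hz
  have hl := ((MvPolynomial.continuous_eval (rev Q)).tendsto _).comp hv
  refine tendsto_nhds_unique hl (tendsto_const_nhds.congr' ?_)
  filter_upwards [h1.eventually_gt_atTop 0] with k hk
  have hne : ((inner ℝ (Ψ (m k)) (b 2) : ℝ) : ℂ) ≠ 0 := by exact_mod_cast hk.ne'
  have h3 := (hR Q).1 ℂ (cz b (Ψ (m k)) 0) (cz b (Ψ (m k)) 1) _ hne
  have h4 : (![cz b (Ψ (m k)) 0, cz b (Ψ (m k)) 1, ((inner ℝ (Ψ (m k)) (b 2) : ℝ) : ℂ)] :
      Fin 3 → ℂ) = cz b (Ψ (m k)) := by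
    funext i
    fin_cases i <;> rfl
  rw [h4, aeval_eq_eval, aeval_eq_eval, (mem_van b).1 hQ] at h3
  exact ((mul_eq_zero.1 h3).resolve_right (pow_ne_zero _ hne)).symm

omit [TopologicalSpace M] [ChartedSpace E2 M] in
theorem end_hyp (hR : StmtREV) (hE : (endPoints Ψ (b 2)).Infinite) : EndHyp (van b Ψ) := by
  intro Q hQ
  refine Set.infinite_of_injOn_mapsTo (f := fun c => cz b c 1) (fun c hc d hd h => ?_)
    (fun c hc => ?_) hE
  · exact cz_inj b h (hc.1.trans hd.1.symm)
  · have h1 := cz_mul b c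
    rw [hc.1, hc.2.1] at h1
    have h2 : cz b c 0 * cz b c 1 = 2 := by
      rw [h1]
      norm_num
    have hp : cz b c 1 ≠ 0 := fun h => by
      rw [h, mul_zero] at h2
      exact two_ne_zero h2.symm
    refine ⟨hp, ?_⟩
    have h3 : 2 / cz b c 1 = cz b c 0 := by
      rw [div_eq_iff hp, h2]
    show eval ![2 / cz b c 1, cz b c 1, 0] (rev Q) = 0
    rw [h3]
    exact end_zero b hR hQ hc

theorem exists_basis {v : E3} (hv : ‖v‖ = 1) : ∃ b : OrthonormalBasis (Fin 3) ℝ E3, b 2 = v := by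
  have h : Orthonormal ℝ (({2} : Set (Fin 3)).domRestrict fun _ => v) :=
    ⟨fun _ => hv, fun i j hij => absurd (Subsingleton.elim i j) hij⟩
  obtain ⟨b, hb⟩ := Orthonormal.exists_orthonormalBasis_extension_of_card_eq (by simp) h
  exact ⟨b, hb 2 rfl⟩

end IncA

open IncA in
theorem inc : StmtCORE → StmtCHART → StmtREV → StmtINC := by
  intro hC hH hR M _ _ _ Ψ hS P W hP hW hne h0 v hv hE
  obtain ⟨b, rfl⟩ := exists_basis hv
  obtain ⟨m0, hm0⟩ := hne
  have h1 : cx b P ∈ van b Ψ := by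
    refine (mem_van b).2 (spread b hS _ (m0 := m0) ?_)
    filter_upwards [hW.mem_nhds hm0] with m hm
    rw [eval_cx, h0 m hm, Complex.ofReal_zero]
  have h2 : van b Ψ ≠ ⊥ := fun h => cx_ne b hP (Ideal.mem_bot.1 (h ▸ h1))
  have h3 : ∀ Q ∈ van b Ψ, Phi Q ∈ van b Ψ := fun Q hQ => (mem_van b).2 fun m => by
    have := hH _ _ b Q (chartAt E2 m).open_target (hS m) (fun u _ => (mem_van b).1 hQ _) _
      (mem_chart_target E2 m)
    rwa [Function.comp_apply, (chartAt E2 m).left_inv (mem_chart_source E2 m)] at this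
  have h4 := hC _ (van_prime b hS m0) h2 h3 (end_hyp b hR hE)
  rintro _ ⟨m, rfl⟩
  have h5 := (mem_van b).1 h4 m
  rw [map_sub, map_mul, eval_X, eval_X, cz_mul, map_ofNat, sub_eq_zero] at h5
  exact_mod_cast h5

end Pool.Agent.MP_c73ff6_gt.H73
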