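import Pool.Agent.MP_c73ff6_gt.H73.Spec

/-! Roots of a member of least degree in `q` of a prime ideal are generic points. -/

namespace Pool.Agent.MP_c73ff6_gt.H73

namespace KerA

open Polynomial

/-- Pseudo-division over a domain. -/
theorem pdiv {A : Type} [CommRing A] [IsDomain A] (m : A[X]) (hm : m ≠ 0) (Q : A[X]) :
    ∃ (a : A) (S r : A[X]), a ≠ 0 ∧ C a * Q = S * m + r ∧ r.degree < m.degree := by
  induction Q using degree_lt_wf.induction with
  | _ Q ih =>
  by_cases hlt : Q.degree < m.degree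
  · exact ⟨1, 0, Q, one_ne_zero, by simp, hlt⟩
  have hle : m.degree ≤ Q.degree := not_lt.1 hlt
  have hQ : Q ≠ 0 := by
    rintro rfl
    exact hm (degree_eq_bot.1 (by simpa using hle))
  have hn : m.natDegree ≤ Q.natDegree := natDegree_le_natDegree hle
  have hlm : m.leadingCoeff ≠ 0 := leadingCoeff_ne_zero.2 hm
  have hlQ : Q.leadingCoeff ≠ 0 := leadingCoeff_ne_zero.2 hQ
  have hd1 : (C m.leadingCoeff * Q).degree = Q.degree := degree_C_mul hlm
  have hd2 : (C Q.leadingCoeff * X ^ (Q.natDegree - m.natDegree) * m).degree = Q.degree := by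
    rw [degree_mul, degree_C_mul_X_pow _ hlQ, degree_eq_natDegree hm, degree_eq_natDegree hQ,
      ← Nat.cast_add, Nat.sub_add_cancel hn]
  have hlt' : (C m.leadingCoeff * Q
      - C Q.leadingCoeff * X ^ (Q.natDegree - m.natDegree) * m).degree < Q.degree := by
    rw [← hd1]
    refine degree_sub_lt_left (hd1.trans hd2.symm) (mul_ne_zero (C_ne_zero.2 hlm) hQ) ?_
    rw [leadingCoeff_mul, leadingCoeff_mul, leadingCoeff_C, leadingCoeff_C_mul_X_pow, mul_comm]
  obtain ⟨a, S, r, ha, hS, hr⟩ := ih _ hlt'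
  refine ⟨a * m.leadingCoeff,
    S + C a * (C Q.leadingCoeff * X ^ (Q.natDegree - m.natDegree)), r, mul_ne_zero ha hlm, ?_, hr⟩
  rw [C_mul]
  linear_combination hS

/-- A nonzero ideal of `A[X]` has a member of least degree, which divides all members up to a
constant. -/
theorem exists_least {A : Type} [CommRing A] [IsDomain A] (T : Ideal A[X]) (hT : T ≠ ⊥) :
    ∃ m ∈ T, m ≠ 0 ∧ (∀ r ∈ T, r.degree < m.degree → r = 0) ∧
      ∀ Q ∈ T, ∃ (a : A) (S : A[X]), a ≠ 0 ∧ C a * Q = S * m := by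
  obtain ⟨q, hq, hq0⟩ := Submodule.exists_mem_ne_zero_of_ne_bot hT
  obtain ⟨m, ⟨hmT, hm0⟩, hmin⟩ :=
    degree_lt_wf.has_min {p : A[X] | p ∈ T ∧ p ≠ 0} ⟨q, hq, hq0⟩
  have hz : ∀ r ∈ T, r.degree < m.degree → r = 0 := fun r hr hlt => by
    by_contra h
    exact hmin r ⟨hr, h⟩ hlt
  refine ⟨m, hmT, hm0, hz, fun Q hQ => ?_⟩
  obtain ⟨a, S, r, ha, hS, hr⟩ := pdiv m hm0 Q
  have hrT : r ∈ T := by
    have : r = C a * Q - S * m := by linear_combination -hS
    rw [this]
    exact T.sub_mem (T.mul_mem_left _ hQ) (T.mul_mem_left _ hmT)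
  exact ⟨a, S, ha, by rw [hS, hz r hrT hr, add_zero]⟩

/-- The statement for a prime ideal of `A[X]`. -/
theorem generic {A K : Type} [CommRing A] [IsDomain A] [CharZero A] [Field K] (φ : A →+* K)
    (hφ : Function.Injective φ) (J : Ideal A[X]) (hJ : J.IsPrime) (hne : J ≠ ⊥)
    (hroot : ∀ Q ∈ J, Q ≠ 0 → ∃ f : K, eval₂ φ f Q = 0) :
    ∃ Q0 ∈ J, Q0 ≠ 0 ∧ derivative Q0 ∉ J ∧ ∀ f : K, eval₂ φ f Q0 = 0 →
      ∀ Q : A[X], eval₂ φ f Q = 0 ↔ Q ∈ J := by
  have hφ0 : ∀ a : A, a ≠ 0 → φ a ≠ 0 := fun a ha h => ha (hφ (by rw [h, map_zero]))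
  have hC : ∀ a : A, a ≠ 0 → C a ∉ J := fun a ha h => by
    obtain ⟨f, hf⟩ := hroot _ h (C_ne_zero.2 ha)
    rw [eval₂_C] at hf
    exact hφ0 a ha hf
  have hconst : ∀ (f : K) (m : A[X]), m ≠ 0 → eval₂ φ f m = 0 → 0 < m.natDegree := by
    intro f m hm hf
    by_contra h
    have h0 : m.natDegree = 0 := by omega
    rw [eq_C_of_natDegree_eq_zero h0] at hf hm
    rw [eval₂_C] at hf
    exact hφ0 _ (C_ne_zero.1 hm) hf
  obtain ⟨Q0, hQ0J, hQ0, hmin, hdiv⟩ := exists_least J hne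
  refine ⟨Q0, hQ0J, hQ0, fun hd => ?_, fun f hf Q => ⟨fun hQ => ?_, fun hQ => ?_⟩⟩
  · obtain ⟨f, hf⟩ := hroot _ hQ0J hQ0
    have hpos := hconst f Q0 hQ0 hf
    have h0 := hmin _ hd (degree_derivative_lt hQ0)
    have := derivative_eq_zero.1 h0
    omega
  · let T : Ideal A[X] := RingHom.ker (eval₂RingHom φ f)
    have hT : ∀ p : A[X], p ∈ T ↔ eval₂ φ f p = 0 := fun p => RingHom.mem_ker
    have hTne : T ≠ ⊥ := fun h => hQ0 (by
      have := (hT Q0).2 hf
      rwa [h, Ideal.mem_bot] at this)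
    obtain ⟨m, hmT, hm0, -, hmdiv⟩ := exists_least T hTne
    have hmpos := hconst f m hm0 ((hT m).1 hmT)
    obtain ⟨a, S, ha, hS⟩ := hmdiv Q0 ((hT Q0).2 hf)
    have hSm : S * m ∈ J := hS ▸ J.mul_mem_left _ hQ0J
    have hmJ : m ∈ J := by
      refine (hJ.mem_or_mem hSm).resolve_left fun hSJ => ?_
      have hS0 : S ≠ 0 := by
        rintro rfl
        exact mul_ne_zero (C_ne_zero.2 ha) hQ0 (by rw [hS, zero_mul])
      refine hS0 (hmin S hSJ ?_)
      have hdeg : Q0.natDegree = S.natDegree + m.natDegree := by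
        rw [← natDegree_mul hS0 hm0, ← hS, natDegree_C_mul ha]
      exact degree_lt_degree (by omega)
    obtain ⟨b, S2, hb, hS2⟩ := hmdiv Q ((hT Q).2 hQ)
    have hbQ : C b * Q ∈ J := hS2 ▸ J.mul_mem_left _ hmJ
    exact (hJ.mem_or_mem hbQ).resolve_left (hC b hb)
  · obtain ⟨a, S, ha, hS⟩ := hdiv Q hQ
    have h := congrArg (eval₂ φ f) hS
    rw [eval₂_mul, eval₂_mul, hf, mul_zero, eval₂_C] at h
    exact (mul_eq_zero.1 h).resolve_left (hφ0 a ha)

end KerA

open MvPolynomial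

namespace KerA

/-- Substitution of `p, z`. -/
noncomputable def ph : MvPolynomial (Fin 2) ℂ →ₐ[ℂ] H2 := aeval ![pp, zz]

theorem aeval_eq (f : H2) (Q : P3) :
    aeval ![f, pp, zz] Q = Polynomial.eval₂ (ph : MvPolynomial (Fin 2) ℂ →+* H2) f
      (finSuccEquiv ℂ 2 Q) := by
  induction Q using MvPolynomial.induction_on with
  | C a =>
    have : finSuccEquiv ℂ 2 (C a) = Polynomial.C (C a) := by simp [finSuccEquiv_apply]
    rw [this, Polynomial.eval₂_C]
    simp [ph]
  | add p q hp hq => rw [map_add, map_add, Polynomial.eval₂_add, hp, hq]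
  | mul_X p i hp =>
    rw [map_mul, map_mul, Polynomial.eval₂_mul, hp]
    congr 1
    refine Fin.cases ?_ (fun j => ?_) i
    · rw [finSuccEquiv_X_zero, Polynomial.eval₂_X]
      simp
    · rw [finSuccEquiv_X_succ, Polynomial.eval₂_C]
      simp [ph]

theorem deriv_eq (Q : P3) :
    finSuccEquiv ℂ 2 (pderiv 0 Q) = Polynomial.derivative (finSuccEquiv ℂ 2 Q) := by
  induction Q using MvPolynomial.induction_on with
  | C a =>
    have : finSuccEquiv ℂ 2 (C a) = Polynomial.C (C a) := by simp [finSuccEquiv_apply]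
    rw [this]
    simp
  | add p q hp hq => rw [map_add, map_add, map_add, map_add, hp, hq]
  | mul_X p i hp =>
    rw [Derivation.leibniz, smul_eq_mul, smul_eq_mul, map_add, map_mul, map_mul, map_mul,
      Polynomial.derivative_mul, hp]
    refine Fin.cases ?_ (fun j => ?_) i
    · rw [finSuccEquiv_X_zero, pderiv_X_self]
      simp only [map_one, Polynomial.derivative_X]
      ring
    · rw [finSuccEquiv_X_succ, pderiv_X_of_ne (Fin.succ_ne_zero j)]
      simp only [map_zero, Polynomial.derivative_C]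
      ring

theorem key_C {K : Type} [CommRing K] [Algebra ℂ K] (p z : K) (c : MvPolynomial (Fin 2) ℂ) :
    (aeval ![Polynomial.X, Polynomial.C p, Polynomial.C z] : P3 →ₐ[ℂ] Polynomial K)
      (rename Fin.succ c) = Polynomial.C (aeval ![p, z] c) := by
  induction c using MvPolynomial.induction_on with
  | C a => simp [Polynomial.algebraMap_apply]
  | add p q hp hq => simp only [map_add, hp, hq]
  | mul_X p i hp =>
    simp only [map_mul, hp]
    congr 1
    fin_cases i <;> simp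

theorem ph_injective (h : StmtIND) : Function.Injective ph := by
  intro a b hab
  refine rename_injective _ (Fin.succ_injective 2) (h ?_)
  exact (key_C pp zz a).trans ((congrArg Polynomial.C hab).trans (key_C pp zz b).symm)

end KerA

open KerA in
theorem ker : StmtIND → StmtKER := by
  intro hind I hI hne hroot
  let e := finSuccEquiv ℂ 2
  let J : Ideal (Polynomial (MvPolynomial (Fin 2) ℂ)) := I.comap e.symm
  have hJ : ∀ Q : P3, e Q ∈ J ↔ Q ∈ I := fun Q => by
    simp [J, Ideal.mem_comap]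
  have hJp : J.IsPrime := Ideal.comap_isPrime _ _
  have hJne : J ≠ ⊥ := fun h => hne (by
    refine (Submodule.eq_bot_iff _).2 fun Q hQ => e.injective ?_
    have := (hJ Q).2 hQ
    rwa [h, Ideal.mem_bot, ← map_zero e] at this)
  obtain ⟨Q0, hQ0J, hQ0, hd, hgen⟩ := generic (ph : MvPolynomial (Fin 2) ℂ →+* H2)
    (ph_injective hind) J hJp hJne (fun Q hQ hQ0 => by
      obtain ⟨Q, rfl⟩ := e.surjective Q
      obtain ⟨f, hf⟩ := hroot Q ((hJ Q).1 hQ) (fun h => hQ0 (by rw [h, map_zero]))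
      exact ⟨f, (aeval_eq f Q).symm.trans hf⟩)
  obtain ⟨Q0, rfl⟩ := e.surjective Q0
  refine ⟨Q0, (hJ Q0).1 hQ0J, fun h => hQ0 (by rw [h, map_zero]), fun h => hd ?_,
    fun f hf Q => ?_⟩
  · rw [← deriv_eq]
    exact (hJ _).2 h
  · rw [aeval_eq, ← hJ]
    exact hgen f ((aeval_eq f Q0).symm.trans hf) _

end Pool.Agent.MP_c73ff6_gt.H73
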