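import Pool.Agent.MP_c73ff6_gt.H73.Spec

/-! Local analysis at a place where `u` has a pole. -/

namespace Pool.Agent.MP_c73ff6_gt.H73

open HahnSeries

namespace LocA

theorem ord_le {y : H1} (h : th (AddMonoidHom.id ℚ) y ≠ 0) :
    y.order ≤ (th (AddMonoidHom.id ℚ) y).order :=
  order_le_of_coeff_ne_zero (th_support _ y fun e => h (coeff_order_eq_zero.1 e))

theorem ord_eq {y : H1} (hy : y ≠ 0) (h : y.order ≠ 0) :
    th (AddMonoidHom.id ℚ) y ≠ 0 ∧ (th (AddMonoidHom.id ℚ) y).order = y.order := by
  have c : (th (AddMonoidHom.id ℚ) y).coeff y.order ≠ 0 := by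
    rw [th_coeff]
    exact mul_ne_zero (by simpa using h) fun e => hy (coeff_order_eq_zero.1 e)
  have n : th (AddMonoidHom.id ℚ) y ≠ 0 := fun e => c (by rw [e]; rfl)
  exact ⟨n, le_antisymm (order_le_of_coeff_ne_zero c) (ord_le n)⟩

theorem ord_ne {y : H1} (h : th (AddMonoidHom.id ℚ) y ≠ 0) :
    (th (AddMonoidHom.id ℚ) y).order ≠ 0 := fun e => by
  apply h
  rw [← coeff_order_eq_zero, e, th_coeff]
  simp

theorem third {γ : ℂ} {F G : H1} (h : 2 * single (-1) 1 =
    4 - (algebraMap ℂ H1 (1 + γ) * F - algebraMap ℂ H1 (1 - γ) * G)) {g : ℚ} (hg : g < 0)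
    (hF : F.coeff g = 0) : (1 - γ) * G.coeff g = if g = -1 then 2 else 0 := by
  have e4 : (4 : H1) = single 0 4 := (map_ofNat (C : ℂ →+* H1) 4).symm
  have := congrArg (fun y : H1 => y.coeff g) h
  simp only [two_mul, e4, ← Algebra.smul_def, coeff_add, coeff_sub, coeff_smul, hF,
    coeff_single_of_ne hg.ne, smul_eq_mul] at this
  split_ifs with e
  · rw [e, coeff_single_same] at this
    rw [e]
    linear_combination -this
  · rw [coeff_single_of_ne e] at this
    linear_combination -this

end LocA

open LocA in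
theorem loc : StmtLOC := by
  intro γ x F G hγ hx hG ht h1 h2 h3
  have g1 : (1 - γ) ≠ 0 := sub_ne_zero.2 hγ.symm
  have s0 : (single (-1) 1 : H1) ≠ 0 := single_ne_zero one_ne_zero
  have tG : th (AddMonoidHom.id ℚ) G ≠ 0 := fun e => by
    rw [e, mul_zero] at h2
    exact mul_ne_zero ht (mul_ne_zero s0 hG) h2.symm
  have o2 := congrArg order h2
  rw [order_mul hx tG, order_mul ht (mul_ne_zero s0 hG), order_mul s0 hG,
    order_single one_ne_zero] at o2
  have l1 := ord_le tG
  have x0 : x.order = 0 := by
    by_contra h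
    linarith [(ord_eq hx h).2]
  have e1 : ∀ g, g < 0 → G.coeff g ≠ 0 → (th (AddMonoidHom.id ℚ) x).order = 1 := fun g hg c => by
    have := order_le_of_coeff_ne_zero c
    linarith [(ord_eq hG (by linarith : G.order < 0).ne).2]
  by_cases hF : ∀ g, g < 0 → F.coeff g = 0
  · have c1 : G.coeff (-1) ≠ 0 := fun e => by
      have := third h3 (by norm_num : (-1 : ℚ) < 0) (hF _ (by norm_num))
      simp [e] at this
    have c2 : (F + G).coeff (-1) ≠ 0 := by
      rwa [coeff_add, hF _ (by norm_num), zero_add]
    have n : F + G ≠ 0 := fun e => c2 (by rw [e]; rfl)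
    have o : (F + G).order = -1 := by
      refine le_antisymm (order_le_of_coeff_ne_zero c2) (not_lt.1 fun h => n ?_)
      have h' := hF (F + G).order (by linarith)
      have := third h3 (by linarith) h'
      rw [if_neg h.ne] at this
      rw [← coeff_order_eq_zero, coeff_add, h', zero_add]
      exact (mul_eq_zero.1 this).resolve_left g1
    have tF : th (AddMonoidHom.id ℚ) F ≠ 0 := fun e => by
      rw [e, mul_zero] at h1
      exact mul_ne_zero ht n h1.symm
    have o1 := congrArg order h1
    rw [order_mul hx tF, order_mul ht n, o, x0, e1 _ (by norm_num) c1] at o1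
    exact ord_ne tF (by linarith)
  · push Not at hF
    obtain ⟨g, hg, c⟩ := hF
    have F0 : F ≠ 0 := fun e => c (by rw [e]; rfl)
    have a0 : F.order < 0 := (order_le_of_coeff_ne_zero c).trans_lt hg
    obtain ⟨tF, oF⟩ := ord_eq F0 a0.ne
    have n : F + G ≠ 0 := fun e => by
      rw [e, mul_zero] at h1
      exact mul_ne_zero hx tF h1
    have o1 := congrArg order h1
    rw [order_mul hx tF, order_mul ht n, oF] at o1
    have c1 : F.coeff (F + G).order = 0 := coeff_eq_zero_of_lt_order (by linarith)
    have c2 : G.coeff (F + G).order ≠ 0 := fun e => n (by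
      rw [← coeff_order_eq_zero, coeff_add, c1, e, add_zero])
    have lt : (F + G).order < 0 := by linarith
    have := third h3 lt c1
    split_ifs at this with e
    · linarith [e1 _ lt c2]
    · exact mul_ne_zero g1 c2 this

end Pool.Agent.MP_c73ff6_gt.H73
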