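import Pool.Agent.MP_c73ff6_gt.H73.Spec

/-! A root in the Hahn field close to the cylinder. -/

namespace Pool.Agent.MP_c73ff6_gt.H73

open MvPolynomial

namespace NearA

/-- All monomials have non-negative level. -/
def In (Y : H2) : Prop := ∀ g, Y.coeff g ≠ 0 → 0 ≤ lev g

theorem lev_mono {a b : G2} (h : a ≤ b) : lev a ≤ lev b := Prod.Lex.monotone_fst a b h

theorem split {x y : H2} {g : G2} (h : (x * y).coeff g ≠ 0) :
    ∃ a b, x.coeff a ≠ 0 ∧ y.coeff b ≠ 0 ∧ a + b = g := by
  obtain ⟨a, ha, b, hb, e⟩ := HahnSeries.support_mul_subset (show g ∈ (x * y).support from h)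
  exact ⟨a, b, ha, hb, e⟩

theorem In.mul {x y : H2} (hx : In x) (hy : In y) : In (x * y) := fun g h => by
  obtain ⟨a, b, ha, hb, rfl⟩ := split h
  rw [map_add]
  exact add_nonneg (hx a ha) (hy b hb)

theorem small_mul {x y : H2} (hx : Small x) (hy : In y) : Small (x * y) := fun g h => by
  obtain ⟨a, b, ha, hb, rfl⟩ := split h
  rw [map_add]
  exact add_pos_of_pos_of_nonneg (hx a ha) (hy b hb)

theorem In.add {x y : H2} (hx : In x) (hy : In y) : In (x + y) := fun g h => by
  by_cases e : x.coeff g = 0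
  · exact hy g fun e' => h (by simp [e, e'])
  · exact hx g e

theorem small_add {x y : H2} (hx : Small x) (hy : Small y) : Small (x + y) := fun g h => by
  by_cases e : x.coeff g = 0
  · exact hy g fun e' => h (by simp [e, e'])
  · exact hx g e

theorem In.neg {x : H2} (hx : In x) : In (-x) := fun g h => hx g fun e => h (by simp [e])

theorem small_neg {x : H2} (hx : Small x) : Small (-x) := fun g h =>
  hx g fun e => h (by simp [e])

theorem in_single {g : G2} (hg : 0 ≤ lev g) (c : ℂ) : In (HahnSeries.single g c) := fun a h => by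
  by_cases e : a = g
  · rwa [e]
  · exact absurd (HahnSeries.coeff_single_of_ne e) h

theorem alg_eq (c : ℂ) : algebraMap ℂ H2 c = HahnSeries.single 0 c := rfl

theorem in_const (c : ℂ) : In (algebraMap ℂ H2 c) := in_single (by simp) c

theorem in_one : In 1 := by simpa using in_const 1

theorem in_zero : In 0 := fun _ h => absurd rfl h

theorem in_pp : In pp := in_single le_rfl _

theorem small_ww : Small ww := fun a h => by
  by_cases e : a = toLex (1, 0)
  · rw [e]; exact one_pos
  · exact absurd (HahnSeries.coeff_single_of_ne e) h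

theorem in_inv {x : H2} (hx : ¬ Small x) : x ≠ 0 ∧ In x⁻¹ := by
  simp only [Small, not_forall, not_lt] at hx
  obtain ⟨g, hg, hl⟩ := hx
  have h0 : x ≠ 0 := fun e => hg (by simp [e])
  refine ⟨h0, fun a ha => ?_⟩
  have h1 := HahnSeries.order_mul h0 (inv_ne_zero h0)
  rw [mul_inv_cancel₀ h0, HahnSeries.order_one] at h1
  have h2 := congrArg lev h1
  rw [map_zero, map_add] at h2
  have h3 := lev_mono (HahnSeries.order_le_of_coeff_ne_zero hg)
  have h4 := lev_mono (HahnSeries.order_le_of_coeff_ne_zero ha)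
  linarith

theorem not_small_pp : ¬ Small pp := fun h =>
  lt_irrefl (0 : ℚ) (h (toLex (0, 1)) (by simp [pp]))

theorem diff {q : H2} (hq : In q) (P : P3) : In (aeval ![q, pp, 0] P) ∧
    Small (aeval ![q, pp, ww] P - aeval ![q, pp, 0] P) := by
  induction P using MvPolynomial.induction_on with
  | C a => exact ⟨by rw [aeval_C]; exact in_const a, fun g h => absurd (by simp) h⟩
  | add P R hP hR =>
    refine ⟨by rw [map_add]; exact hP.1.add hR.1, ?_⟩
    rw [map_add, map_add, add_sub_add_comm]
    exact small_add hP.2 hR.2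
  | mul_X P i hP =>
    have h1 : In (![q, pp, 0] i) ∧ In (![q, pp, ww] i) ∧
        Small (![q, pp, ww] i - ![q, pp, 0] i) := by
      fin_cases i
      · exact ⟨hq, hq, fun g h => absurd (by simp) h⟩
      · exact ⟨in_pp, in_pp, fun g h => absurd (by simp) h⟩
      · exact ⟨in_zero, fun g h => (small_ww g h).le, by simpa using small_ww⟩
    refine ⟨by rw [map_mul, aeval_X]; exact hP.1.mul h1.1, ?_⟩
    rw [map_mul, map_mul, aeval_X, aeval_X, show ∀ a b c d : H2, a * b - c * d =
      (a - c) * b + (b - d) * c from fun a b c d => by ring]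
    exact small_add (small_mul hP.2 h1.2.1) (small_mul h1.2.2 hP.1)

theorem coeff_aeval (r : Polynomial ℂ) (n : ℕ) :
    (Polynomial.aeval pp r).coeff (toLex (0, (n : ℚ))) = r.coeff n := by
  induction r using Polynomial.induction_on' with
  | add r s hr hs => rw [map_add, HahnSeries.coeff_add, hr, hs, Polynomial.coeff_add]
  | monomial k a =>
    have h : (0 : G2) + k • toLex ((0 : ℚ), (1 : ℚ)) = toLex (0, (k : ℚ)) := by
      rw [zero_add]
      exact congrArg toLex (show k • ((0 : ℚ), (1 : ℚ)) = (0, (k : ℚ)) by simp)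
    rw [Polynomial.aeval_monomial, alg_eq, pp, HahnSeries.single_pow,
      HahnSeries.single_mul_single, h, one_pow, mul_one, Polynomial.coeff_monomial]
    split_ifs with e
    · subst e; simp
    · refine HahnSeries.coeff_single_of_ne fun e' => e ?_
      have : (n : ℚ) = k := congrArg pex e'
      exact_mod_cast this.symm

theorem prod_ratio {q0 q1 : H2} (h : In (q0 - q1)) (s : Multiset H2)
    (hs : ∀ f ∈ s, q1 - f ≠ 0 ∧ In (q1 - f)⁻¹) :
    ∃ u, In u ∧ (s.map fun f => q0 - f).prod = (s.map fun f => q1 - f).prod * u := by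
  induction s using Multiset.induction_on with
  | empty => exact ⟨1, in_one, by simp⟩
  | cons f s ih =>
    obtain ⟨u, hu, e⟩ := ih fun a ha => hs a (Multiset.mem_cons_of_mem ha)
    obtain ⟨h0, h1⟩ := hs f (Multiset.mem_cons_self _ _)
    refine ⟨u * (1 + (q0 - q1) * (q1 - f)⁻¹), hu.mul (in_one.add (h.mul h1)), ?_⟩
    rw [Multiset.map_cons, Multiset.map_cons, Multiset.prod_cons, Multiset.prod_cons, e]
    field_simp
    ring

end NearA

open NearA

theorem near (hR : StmtREV) (hI : StmtIND) : StmtNEAR := by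
  intro hc Q hQ hinf
  obtain ⟨R1, R2, R3⟩ := hR Q
  set T : Polynomial H2 := aeval ![Polynomial.X, Polynomial.C pp, Polynomial.C zz] Q with hT
  have hT0 : T ≠ 0 := fun e => hQ (hI (by rw [← hT, e, map_zero]))
  have hev : ∀ q : H2, T.eval q = aeval ![q, pp, zz] Q := fun q => by
    have h := comp_aeval_apply ![Polynomial.X, Polynomial.C pp, Polynomial.C zz]
      ((Polynomial.aeval q).restrictScalars ℂ) Q
    rw [AlgHom.restrictScalars_apply, Polynomial.coe_aeval_eq_eval] at h
    rw [hT, h]
    congr 2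
    funext i
    fin_cases i <;> simp
  have hzw : zz * ww = 1 := by
    rw [zz, ww, HahnSeries.single_mul_single, ← toLex_add]
    simp only [Prod.mk_add_mk, neg_add_cancel, add_zero, mul_one]
    rfl
  have hz0 : zz ≠ 0 := left_ne_zero_of_mul_eq_one hzw
  have hzi : zz⁻¹ = ww := inv_eq_of_mul_eq_one_right hzw
  have hRq : ∀ q : H2, aeval ![q, pp, ww] (rev Q) = T.eval q * ww ^ Q.degreeOf 2 := fun q => by
    rw [hev, ← R1 H2 q pp zz hz0, hzi, mul_assoc, ← mul_pow, hzw, one_pow, mul_one]
  obtain ⟨hp0, hpi⟩ := in_inv not_small_pp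
  have h2 : In 2 := by rw [← map_ofNat (algebraMap ℂ H2) 2]; exact in_const 2
  have hq1 : In (2 / pp) := by rw [div_eq_mul_inv]; exact h2.mul hpi
  have hs1 : Small (T.eval (2 / pp) * ww ^ Q.degreeOf 2) := by
    have h := (diff hq1 (rev Q)).2
    rwa [R3 hinf H2 pp hp0, sub_zero, hRq] at h
  by_contra hn
  push Not at hn
  have hroots : ∀ f ∈ T.roots, 2 / pp - f ≠ 0 ∧ In (2 / pp - f)⁻¹ := by
    intro f hf
    obtain ⟨h0, h1⟩ := in_inv (hn f (by rw [← hev]; exact (Polynomial.mem_roots hT0).1 hf))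
    have e : 2 / pp - f = -(pp * f - 2) * pp⁻¹ := by field_simp; ring
    rw [e]
    refine ⟨mul_ne_zero (neg_ne_zero.2 h0) (inv_ne_zero hp0), ?_⟩
    rw [show (-(pp * f - 2) * pp⁻¹)⁻¹ = -(pp * f - 2)⁻¹ * pp from
      inv_eq_of_mul_eq_one_right (by field_simp)]
    exact h1.neg.mul in_pp
  obtain ⟨q0, p0, hne⟩ := R2 hQ
  obtain ⟨u, hu, e⟩ := prod_ratio (q0 := algebraMap ℂ H2 q0) (q1 := 2 / pp)
    (by rw [sub_eq_add_neg]; exact (in_const q0).add hq1.neg) T.roots hroots
  have hsp := IsAlgClosed.splits T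
  have hs0 : Small (aeval ![algebraMap ℂ H2 q0, pp, ww] (rev Q)) := by
    have h := small_mul hs1 hu
    rw [hRq, hsp.eval_eq_prod_roots, e]
    rw [hsp.eval_eq_prod_roots] at h
    convert h using 1
    ring
  have hs2 : Small (aeval ![algebraMap ℂ H2 q0, pp, 0] (rev Q)) := by
    have h := small_add hs0 (small_neg (diff (in_const q0) (rev Q)).2)
    convert h using 1
    ring
  set r : Polynomial ℂ := aeval ![Polynomial.C q0, Polynomial.X, 0] (rev Q) with hr
  have hr1 : Polynomial.aeval pp r = aeval ![algebraMap ℂ H2 q0, pp, 0] (rev Q) := by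
    rw [hr, comp_aeval_apply]
    congr 2
    funext i
    fin_cases i <;> simp
  have hr0 : r = 0 := by
    ext n
    by_contra h
    refine lt_irrefl (0 : ℚ) (hs2 (toLex (0, (n : ℚ))) ?_)
    rw [← hr1, coeff_aeval]
    exact h
  have hr2 : Polynomial.aeval p0 r = eval ![q0, p0, 0] (rev Q) := by
    rw [hr, comp_aeval_apply, ← coe_aeval_eq_eval]
    change _ = aeval _ _
    congr 2
    funext i
    fin_cases i <;> simp
  exact hne (by rw [← hr2, hr0, map_zero])

end Pool.Agent.MP_c73ff6_gt.H73
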