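import Pool.Agent.MP_c73ff6_gt.H73.Spec

/-! The self-similar curve-shortening equation has no algebraic solution branching off the circle. -/

namespace Pool.Agent.MP_c73ff6_gt.H73

namespace OdeA

/-- The elements algebraic over `ℂ[x]`. -/
noncomputable def SA (x : H1) : Subalgebra ℂ H1 :=
  (Subalgebra.algebraicClosure (Algebra.adjoin ℂ ({x} : Set H1)) H1).restrictScalars ℂ

theorem mem_SA {x e : H1} : e ∈ SA x ↔ IsAlgebraic (Algebra.adjoin ℂ ({x} : Set H1)) e := Iff.rfl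

theorem self_mem (x : H1) : x ∈ SA x :=
  isAlgebraic_algebraMap (R := Algebra.adjoin ℂ ({x} : Set H1))
    ⟨x, Algebra.self_mem_adjoin_singleton ℂ x⟩

theorem coeff_alg (c : ℂ) {b : ℚ} (hb : b ≠ 0) : (algebraMap ℂ H1 c).coeff b = 0 :=
  HahnSeries.coeff_single_of_ne hb

theorem coeff_alg_mul (c : ℂ) (y : H1) (b : ℚ) : (algebraMap ℂ H1 c * y).coeff b = c * y.coeff b := by
  rw [← Algebra.smul_def]; rfl

theorem coeff_nat (n : ℕ) [n.AtLeastTwo] {b : ℚ} (hb : b ≠ 0) :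
    (OfNat.ofNat n : H1).coeff b = 0 := by
  rw [← map_ofNat (algebraMap ℂ H1) n]; exact coeff_alg _ hb

theorem coeff_nat_mul (n : ℕ) [n.AtLeastTwo] (y : H1) (b : ℚ) :
    ((OfNat.ofNat n : H1) * y).coeff b = (OfNat.ofNat n : ℂ) * y.coeff b := by
  rw [← map_ofNat (algebraMap ℂ H1) n]; exact coeff_alg_mul _ _ _

theorem transc {u : H1} {b : ℚ} (hb : b ≠ 0) (h : u.coeff b ≠ 0) : Transcendental ℂ u := by
  intro ha
  have hi := ha.isIntegral
  obtain ⟨c, hc⟩ := minpoly.mem_range_of_degree_eq_one ℂ u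
    (IsAlgClosed.degree_eq_one_of_irreducible ℂ (minpoly.irreducible hi))
  exact h (hc ▸ coeff_alg c hb)

theorem const_of_th {y : H1} (h : th (AddMonoidHom.id ℚ) y = 0) :
    y = algebraMap ℂ H1 (y.coeff 0) := by
  ext b
  by_cases hb : b = 0
  · subst hb; exact (HahnSeries.coeff_single_same _ _).symm
  · rw [coeff_alg _ hb]
    have := congrArg (fun z : H1 => z.coeff b) h
    simpa [th_coeff, hb] using this

theorem logd {r v : H1} (hr : r ≠ 0) (h : th (AddMonoidHom.id ℚ) r = r * v) : v.coeff (-1) = 0 := by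
  by_cases hv : v = 0
  · simp [hv]
  have h1 : r.coeff (r * v).order ≠ 0 :=
    th_support (AddMonoidHom.id ℚ) r (by
      rw [h]; exact HahnSeries.coeff_order_eq_zero.not.2 (mul_ne_zero hr hv))
  have h2 := HahnSeries.order_le_of_coeff_ne_zero h1
  rw [HahnSeries.order_mul hr hv] at h2
  exact HahnSeries.coeff_eq_zero_of_lt_order (by linarith)

theorem dX_coeff (γ : ℚ) (y : H1) (b : ℚ) : (dX γ y).coeff b = ((γ⁻¹ * b : ℚ) : ℂ) * y.coeff b := rfl

theorem dX_xi {γ : ℚ} (h : γ ≠ 0) : dX γ (xi γ) = xi γ := by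
  rw [dX, xi, th_single]
  simp [h]

theorem xi_ne (γ : ℚ) : xi γ ≠ 0 := HahnSeries.single_ne_zero one_ne_zero

theorem caseA (hc : IsAlgClosed H1) (htr : StmtTRANS) (hda : StmtDALG) (hemb : StmtEMB)
    (hloc : StmtLOC) (j : ℚ) (Y : H1) (hj : 2 < j ^ 2) (hA : Y.coeff (j ^ 2 - 2) ≠ 0) (γ : ℚ)
    (hγ : γ = (j ^ 2 - 2) / j) (h1 : γ ≠ 1) (halg : Alg1 γ (2 + Y)) (hode : ode γ (2 + Y) = 0) :
    False := by
  have hj0 : j ≠ 0 := by rintro rfl; norm_num at hj
  have hj1 : j ≠ 1 := by rintro rfl; norm_num at hj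
  have hβ : j ^ 2 - 2 ≠ 0 := by linarith
  have hγ0 : γ ≠ 0 := hγ ▸ div_ne_zero hβ hj0
  set F : H1 := 2 + Y with hF
  set G : H1 := dX γ F - F with hG
  have hFc : F.coeff (j ^ 2 - 2) = Y.coeff (j ^ 2 - 2) := by
    rw [hF, HahnSeries.coeff_add, coeff_nat 2 hβ, zero_add]
  have hinv : γ⁻¹ * (j ^ 2 - 2) = j := by rw [hγ]; field_simp
  have hGc : G.coeff (j ^ 2 - 2) = ((j : ℂ) - 1) * Y.coeff (j ^ 2 - 2) := by
    rw [hG, HahnSeries.coeff_sub, dX_coeff, hinv, hFc]; ring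
  have hjc : (j : ℂ) ≠ 0 := by exact_mod_cast hj0
  have hjc1 : (j : ℂ) - 1 ≠ 0 := sub_ne_zero.2 (by exact_mod_cast hj1)
  have hG0 : G ≠ 0 := fun h => mul_ne_zero hjc1 hA (by rw [← hGc, h]; rfl)
  have hFS : F ∈ SA (xi γ) := (hda _ _ (xi_ne γ)).2 halg
  have hDF : dX γ F = F + G := by rw [hG]; ring
  have hGS : G ∈ SA (xi γ) :=
    sub_mem (mem_SA.2 ((hda _ _ (xi_ne γ)).1 _ (dX_xi hγ0) hFS)) hFS
  let x : SA (xi γ) := ⟨xi γ, self_mem _⟩
  let f : SA (xi γ) := ⟨F, hFS⟩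
  let g : SA (xi γ) := ⟨G, hGS⟩
  let u : SA (xi γ) := algebraMap ℂ _ (1 / 2) *
    (4 - (algebraMap ℂ _ (1 + (γ : ℂ)) * f - algebraMap ℂ _ (1 - (γ : ℂ)) * g))
  have hu : (u : H1) = algebraMap ℂ H1 (1 / 2) *
      (4 - (algebraMap ℂ H1 (1 + (γ : ℂ)) * F - algebraMap ℂ H1 (1 - (γ : ℂ)) * G)) := rfl
  have hhalf : (2 : H1) * algebraMap ℂ H1 (1 / 2) = 1 := by
    rw [← map_ofNat (algebraMap ℂ H1) 2, ← map_mul]; norm_num
  have hDG : dX γ G = ((u * g : SA (xi γ)) : H1) := by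
    have e : ((u * g : SA (xi γ)) : H1) = (u : H1) * G := rfl
    rw [e, hu, (algebraMap ℂ H1).map_add, (algebraMap ℂ H1).map_sub, map_one]
    have h2 : (2 : H1) ≠ 0 := two_ne_zero
    apply mul_left_cancel₀ h2
    have ho := hode
    rw [ode, ← hG, hDF] at ho
    linear_combination ho - (4 - ((1 + algebraMap ℂ H1 (γ : ℂ)) * F -
      (1 - algebraMap ℂ H1 (γ : ℂ)) * G)) * G * hhalf
  have hut : Transcendental ℂ (u : H1) := by
    refine transc hβ ?_
    rw [hu, coeff_alg_mul, HahnSeries.coeff_sub, HahnSeries.coeff_sub, coeff_alg_mul, coeff_alg_mul,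
      coeff_nat 4 hβ, hFc, hGc]
    have hγc : (γ : ℂ) * j = j ^ 2 - 2 := by
      have : γ * j = j ^ 2 - 2 := by rw [hγ]; field_simp
      exact_mod_cast this
    have : (1 / 2 : ℂ) * (0 - ((1 + γ) * Y.coeff (j ^ 2 - 2) -
        (1 - γ) * ((j - 1) * Y.coeff (j ^ 2 - 2)))) =
        -(1 / 2) * (j * ((j - 1) * Y.coeff (j ^ 2 - 2))) := by
      linear_combination (-(1 / 2) * Y.coeff (j ^ 2 - 2)) * hγc
    rw [this]
    exact mul_ne_zero (by norm_num) (mul_ne_zero hjc (mul_ne_zero hjc1 hA))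
  obtain ⟨σ, hσ, hσu⟩ := hemb hc (SA (xi γ)) x u (fun e => e.2) hut
  have t1 := htr (dX γ) (th (AddMonoidHom.id ℚ)) _ σ hσ x f x (f + g) (dX_xi hγ0) hDF hFS
  have t2 := htr (dX γ) (th (AddMonoidHom.id ℚ)) _ σ hσ x g x (u * g) (dX_xi hγ0) hDG hGS
  rw [map_add] at t1
  rw [map_mul, hσu] at t2
  refine hloc (γ : ℂ) (σ x) (σ f) (σ g) (by exact_mod_cast h1) ?_ ?_ ?_ t1 t2 ?_
  · exact (map_ne_zero_iff σ hσ).2 fun h => xi_ne γ (congrArg Subtype.val h)
  · exact (map_ne_zero_iff σ hσ).2 fun h => hG0 (congrArg Subtype.val h)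
  · intro h
    have e := const_of_th h
    rw [← σ.commutes] at e
    have e2 : xi γ = algebraMap ℂ H1 ((σ x).coeff 0) := congrArg Subtype.val (hσ e)
    have e3 := congrArg (fun z : H1 => z.coeff γ) e2
    simp only [coeff_alg _ hγ0, xi, HahnSeries.coeff_single_same] at e3
    exact one_ne_zero e3
  · have e : σ u = algebraMap ℂ H1 (1 / 2) *
        (4 - (algebraMap ℂ H1 (1 + (γ : ℂ)) * σ f - algebraMap ℂ H1 (1 - (γ : ℂ)) * σ g)) := by
      rw [map_mul σ, map_sub σ, map_sub σ, map_mul σ, map_mul σ, σ.commutes, σ.commutes,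
        σ.commutes, map_ofNat σ]
    rw [← hσu, e, ← mul_assoc, hhalf, one_mul]

theorem caseB (hc : IsAlgClosed H1) (htr : StmtTRANS) (hda : StmtDALG) (hemb : StmtEMB)
    (Y : H1) (hs : ∀ b, Y.coeff b ≠ 0 → 2 ≤ b) (hA : Y.coeff 2 ≠ 0)
    (halg : Alg1 1 (2 + Y)) (hode : ode 1 (2 + Y) = 0) : False := by
  set F : H1 := 2 + Y with hF
  set G : H1 := dX 1 F - F with hG
  have hDF : dX 1 F = F + G := by rw [hG]; ring
  have h2 : (2 : H1) ≠ 0 := two_ne_zero
  have hDG : dX 1 G = 2 * G - G * F := by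
    apply mul_left_cancel₀ h2
    have ho := hode
    rw [ode, ← hG, hDF, Rat.cast_one, map_one] at ho
    linear_combination ho
  have hW : dX 1 (2 * G + F * F) = 2 * (2 * G + F * F) := by
    rw [two_mul G, map_add, map_add, Derivation.leibniz, hDG, hDF]
    simp only [smul_eq_mul]
    ring
  have hYY : (Y * Y).coeff 2 = 0 := by
    by_contra h
    obtain ⟨a, ha, b, hb, hab⟩ := HahnSeries.support_mul_subset (show (2 : ℚ) ∈ (Y * Y).support from h)
    have := hs a ha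
    have := hs b hb
    simp only at hab
    linarith
  have hFc : F.coeff 2 = Y.coeff 2 := by
    rw [hF, HahnSeries.coeff_add, coeff_nat 2 two_ne_zero, zero_add]
  have hWc : (2 * G + F * F).coeff 2 = 6 * Y.coeff 2 := by
    have e : F * F = 4 + (4 * Y + Y * Y) := by rw [hF]; ring
    rw [e, HahnSeries.coeff_add, HahnSeries.coeff_add, HahnSeries.coeff_add, coeff_nat_mul 2,
      coeff_nat_mul 4, coeff_nat 4 two_ne_zero, hYY, hG, HahnSeries.coeff_sub, dX_coeff, hFc]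
    push_cast
    ring
  obtain ⟨c, hcc⟩ := IsAlgClosed.exists_pow_nat_eq (6 * Y.coeff 2 : ℂ) two_pos
  have hc0 : c ≠ 0 := by
    rintro rfl
    exact mul_ne_zero (by norm_num : (6 : ℂ) ≠ 0) hA (by rw [← hcc]; norm_num)
  have hWe : 2 * G + F * F = (algebraMap ℂ H1 c * xi 1) ^ 2 := by
    rw [mul_pow, ← map_pow, hcc, xi, HahnSeries.single_pow]
    ext b
    rw [coeff_alg_mul]
    by_cases hb : b = 2
    · subst hb
      rw [hWc, show (2 : ℕ) • (1 : ℚ) = 2 by norm_num, HahnSeries.coeff_single_same]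
      ring
    · rw [show (2 : ℕ) • (1 : ℚ) = 2 by norm_num, HahnSeries.coeff_single_of_ne hb, mul_zero]
      have e := congrArg (fun z : H1 => z.coeff b) hW
      simp only [dX_coeff, coeff_nat_mul 2] at e
      have hb' : ((1⁻¹ * b : ℚ) : ℂ) - 2 ≠ 0 := by
        rw [inv_one, one_mul]
        exact sub_ne_zero.2 (by exact_mod_cast hb)
      exact (mul_eq_zero.1 (by linear_combination e)).resolve_left hb'
  have hFS : F ∈ SA (xi 1) := (hda _ _ (xi_ne 1)).2 halg
  let x : SA (xi 1) := ⟨xi 1, self_mem _⟩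
  let f : SA (xi 1) := ⟨F, hFS⟩
  have hxt : Transcendental ℂ (x : H1) :=
    transc one_ne_zero (by simp [x, xi])
  obtain ⟨σ, hσ, hσx⟩ := hemb hc (SA (xi 1)) x x (fun e => e.2) hxt
  have hhalf : (2 : H1) * algebraMap ℂ H1 (1 / 2) = 1 := by
    rw [← map_ofNat (algebraMap ℂ H1) 2, ← map_mul]; norm_num
  have key : ∀ d : ℂ, (algebraMap ℂ H1 d * xi 1) ^ 2 = (algebraMap ℂ H1 c * xi 1) ^ 2 →
      (σ f).coeff (-1) + d = 0 := by
    intro d hd
    let r : SA (xi 1) := f - algebraMap ℂ _ d * x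
    let v : SA (xi 1) := 1 - algebraMap ℂ _ (1 / 2) * (f + algebraMap ℂ _ d * x)
    have hr : (r : H1) = F - algebraMap ℂ H1 d * xi 1 := rfl
    have hv : (v : H1) = 1 - algebraMap ℂ H1 (1 / 2) * (F + algebraMap ℂ H1 d * xi 1) := rfl
    have hD : dX 1 (r : H1) = ((r * v : SA (xi 1)) : H1) := by
      have e : ((r * v : SA (xi 1)) : H1) = (r : H1) * (v : H1) := rfl
      rw [e, hr, hv, map_sub, Derivation.leibniz, Derivation.map_algebraMap, dX_xi one_ne_zero, hDF]
      simp only [smul_eq_mul]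
      apply mul_left_cancel₀ h2
      linear_combination hWe - hd + (F ^ 2 - (algebraMap ℂ H1 d * xi 1) ^ 2) * hhalf
    have hr0 : σ r ≠ 0 := by
      refine (map_ne_zero_iff σ hσ).2 fun h => ?_
      have e : (r : H1).coeff 2 = 0 := by rw [h]; rfl
      rw [hr, HahnSeries.coeff_sub, coeff_alg_mul, hFc, xi,
        HahnSeries.coeff_single_of_ne (by norm_num)] at e
      exact hA (by simpa using e)
    have t := htr (dX 1) (th (AddMonoidHom.id ℚ)) _ σ hσ x r x (r * v) (dX_xi one_ne_zero) hD r.2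
    rw [hσx, th_single, map_mul σ] at t
    have hs0 : (HahnSeries.single (-1) 1 : H1) ≠ 0 := HahnSeries.single_ne_zero one_ne_zero
    have t2 : th (AddMonoidHom.id ℚ) (σ r) = σ r * (-σ v) := by
      apply mul_left_cancel₀ hs0
      rw [t]
      have : (HahnSeries.single (-1) ((((AddMonoidHom.id ℚ) (-1) : ℚ) : ℂ) * 1) : H1) =
          -HahnSeries.single (-1) 1 := by
        rw [← HahnSeries.single_neg]; simp
      rw [this]; ring
    have t3 := logd hr0 t2
    have e : σ v = 1 - algebraMap ℂ H1 (1 / 2) *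
        (σ f + algebraMap ℂ H1 d * HahnSeries.single (-1) 1) := by
      rw [map_sub σ, map_mul σ, map_add σ, map_mul σ, σ.commutes, σ.commutes, map_one, hσx]
    rw [e] at t3
    rw [HahnSeries.coeff_neg, HahnSeries.coeff_sub, coeff_alg_mul, HahnSeries.coeff_add,
      coeff_alg_mul, HahnSeries.coeff_single_same, HahnSeries.coeff_one, if_neg (by norm_num)] at t3
    linear_combination 2 * t3
  have k1 := key c rfl
  have k2 := key (-c) (by rw [map_neg]; ring)
  exact hc0 (by linear_combination (k1 - k2) / 2)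

end OdeA

theorem odeT (hc : IsAlgClosed H1) (htr : StmtTRANS) (hda : StmtDALG) (hemb : StmtEMB)
    (hloc : StmtLOC) : StmtODE := by
  intro j Y hj hs hA halg hode
  by_cases h1 : (j ^ 2 - 2) / j = 1
  · have hj0 : j ≠ 0 := by rintro rfl; norm_num at hj
    have h2 : j = 2 := by
      rw [div_eq_one_iff_eq hj0] at h1
      have : (j - 2) * (j + 1) = 0 := by linear_combination h1
      rcases mul_eq_zero.1 this with h | h
      · linarith
      · have : j = -1 := by linarith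
        subst this
        norm_num at hj
    subst h2
    rw [h1] at halg hode
    have e : (2 : ℚ) ^ 2 - 2 = 2 := by norm_num
    rw [e] at hs hA
    exact OdeA.caseB hc htr hda hemb Y hs hA halg hode
  · exact OdeA.caseA hc htr hda hemb hloc j Y hj hA _ rfl h1 halg hode

end Pool.Agent.MP_c73ff6_gt.H73
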