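import Pool.Agent.MP_c73ff6_gt.H73.Spec

/-! The level-set equation gives the graph equation. -/

namespace Pool.Agent.MP_c73ff6_gt.H73

open MvPolynomial

namespace PdeA

theorem chain (D : Derivation ℂ H2 H2) (x : Fin 3 → H2) (Q : P3) :
    D (aeval x Q) = aeval x (pderiv 0 Q) * D (x 0) + aeval x (pderiv 1 Q) * D (x 1) +
      aeval x (pderiv 2 Q) * D (x 2) := by
  induction Q using MvPolynomial.induction_on with
  | C a => simp
  | add p q hp hq => simp only [map_add, hp, hq]; ring
  | mul_X p i hp =>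
    rw [map_mul, Derivation.leibniz, hp, aeval_X]
    simp only [Derivation.leibniz, map_add, map_mul, aeval_X, smul_eq_mul, pderiv_X]
    fin_cases i <;> simp <;> ring

theorem pcomm (i j : Fin 3) (Q : P3) : pderiv i (pderiv j Q) = pderiv j (pderiv i Q) := by
  induction Q using MvPolynomial.induction_on with
  | C a => simp
  | add p q hp hq => simp only [map_add, hp, hq]
  | mul_X p k hp =>
    simp only [Derivation.leibniz, map_add, smul_eq_mul, pderiv_X, hp, Pi.single_apply]
    split_ifs <;> simp <;> ring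

theorem dA_pp : dA pp = pp := by
  rw [dA, pp, th_single]
  simp [pex]

theorem dA_zz : dA zz = 0 := by
  rw [dA, zz, th_single]
  simp [pex]

theorem dB_pp : dB pp = 0 := by
  rw [dB, pp, th_single]
  simp [lev]

theorem dB_zz : dB zz = zz := by
  rw [dB, zz, th_single]
  simp [lev]

theorem ww_zz : ww * zz = 1 := by
  rw [ww, zz, HahnSeries.single_mul_single, ← toLex_add]
  simp
  rfl

theorem pp_ne : pp ≠ 0 := HahnSeries.single_ne_zero one_ne_zero

theorem alg {K : Type} [Field K] (f p z w q P Z qq qp qz PP pz ZZ a b aa ab bb : K) (hp : p ≠ 0)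
    (hw : w * z = 1) (hq : q ≠ 0) (e1 : q * a + P * p = 0) (e2 : q * b + Z * z = 0)
    (e3 : (qq * a + qp * p) * a + q * aa + (qp * a + PP * p) * p + P * p = 0)
    (e4 : (qq * b + qz * z) * a + q * ab + (qp * b + pz * z) * p = 0)
    (e5 : (qq * b + qz * z) * b + q * bb + (qz * b + ZZ * z) * z + Z * z = 0)
    (h : 2 * ((4 * q * P + Z ^ 2) * (4 * qp + ZZ) - (4 * P ^ 2 * qq + 4 * q ^ 2 * PP + Z ^ 2 * ZZ
        + 8 * q * P * qp + 4 * P * Z * qz + 4 * q * Z * pz))
      - (4 * q * P + Z ^ 2) * (f * q + p * P + z * Z) = 0) :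
    8 * (p * aa - p * a) + 4 * (p * a) * (p * f - p * a - p * b)
      + w ^ 2 * (8 * (p * a) * (p * bb - p * b) - 8 * (p * b) * (p * ab)
        - (p * b) ^ 2 * (p * f - p * a - p * b)) = 0 := by
  have hz : z ≠ 0 := right_ne_zero_of_mul_eq_one hw
  obtain rfl : w = z⁻¹ := eq_inv_of_mul_eq_one_left hw
  obtain rfl : P = -(q * a) / p := by field_simp; linear_combination e1
  obtain rfl : Z = -(q * b) / z := by field_simp; linear_combination e2
  obtain rfl : PP = -((qq * a + qp * p) * a + q * aa + qp * a * p - q * a) / p ^ 2 := by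
    field_simp at e3 ⊢; linear_combination e3
  obtain rfl : pz = -((qq * b + qz * z) * a + q * ab + qp * b * p) / (z * p) := by
    field_simp; linear_combination e4
  obtain rfl : ZZ = -((qq * b + qz * z) * b + q * bb + qz * b * z - q * b) / z ^ 2 := by
    field_simp at e5 ⊢; linear_combination e5
  refine mul_left_cancel₀ (pow_ne_zero 3 hq) ?_
  rw [mul_zero, ← mul_zero (p ^ 3), ← h]
  field_simp
  ring

end PdeA

open PdeA in
theorem pde_ : StmtPDE := by
  intro f Q h0 h1 h2
  have cA : ∀ R : P3, dA (aeval ![f, pp, zz] R) =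
      aeval ![f, pp, zz] (pderiv 0 R) * dA f + aeval ![f, pp, zz] (pderiv 1 R) * pp := fun R => by
    rw [chain]
    simp [dA_pp, dA_zz]
  have cB : ∀ R : P3, dB (aeval ![f, pp, zz] R) =
      aeval ![f, pp, zz] (pderiv 0 R) * dB f + aeval ![f, pp, zz] (pderiv 2 R) * zz := fun R => by
    rw [chain]
    simp [dB_pp, dB_zz]
  have e1 := cA Q
  have e2 := cB Q
  rw [h0, map_zero] at e1 e2
  have e3 := congrArg dA e1
  have e4 := congrArg dB e1
  have e5 := congrArg dB e2
  simp only [map_zero, map_add, Derivation.leibniz, smul_eq_mul, cA, cB, dA_pp, dB_pp, dB_zz,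
    pcomm 1 0, pcomm 2 0, pcomm 2 1] at e3 e4 e5
  simp only [Phi, map_sub, map_add, map_mul, map_pow, aeval_X, map_ofNat, Matrix.cons_val_zero,
    Matrix.cons_val_one, Matrix.cons_val] at h1
  have h := alg f pp zz ww _ _ _ _ _ _ _ _ _ (dA f) (dB f) (dA (dA f)) (dB (dA f)) (dB (dB f))
    pp_ne ww_zz h2 e1.symm e2.symm (by linear_combination -e3) (by linear_combination -e4)
    (by linear_combination -e5) h1
  simp only [pde, map_sub, map_add, Derivation.leibniz, smul_eq_mul, dA_pp, dB_pp, mul_zero,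
    map_zero]
  linear_combination h

end Pool.Agent.MP_c73ff6_gt.H73
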