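import Pool.Agent.MP_c73ff6_gt.H73.Spec

/-! The reversal in the last variable, and independence of `p, z`. -/

namespace Pool.Agent.MP_c73ff6_gt.H73

open MvPolynomial

namespace RevA

theorem aeval_sum {A : Type} [CommRing A] [Algebra ℂ A] (a b c : A) (Q : P3) :
    aeval ![a, b, c] Q =
      ∑ d ∈ Q.support, algebraMap ℂ A (coeff d Q) * a ^ d 0 * b ^ d 1 * c ^ d 2 := by
  rw [aeval_def, eval₂_eq']
  refine Finset.sum_congr rfl fun d _ => ?_
  rw [Fin.prod_univ_three]
  simp [mul_assoc]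

theorem aeval_rev {A : Type} [CommRing A] [Algebra ℂ A] (a b c : A) (Q : P3) :
    aeval ![a, b, c] (rev Q) = ∑ d ∈ Q.support,
      algebraMap ℂ A (coeff d Q) * a ^ d 0 * b ^ d 1 * c ^ (Q.degreeOf 2 - d 2) := by
  rw [rev, map_sum]
  refine Finset.sum_congr rfl fun d _ => ?_
  simp

theorem mono_eq (d : Fin 3 →₀ ℕ) (c : ℂ) :
    (monomial d c : P3) = C c * X 0 ^ d 0 * X 1 ^ d 1 * X 2 ^ d 2 := by
  rw [monomial_eq, Finsupp.prod_fintype _ _ (by simp), Fin.prod_univ_three]
  ring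

theorem rev1 (Q : P3) (K : Type) [Field K] [Algebra ℂ K] (q p z : K) (hz : z ≠ 0) :
    aeval ![q, p, z⁻¹] (rev Q) * z ^ Q.degreeOf 2 = aeval ![q, p, z] Q := by
  rw [aeval_rev, aeval_sum, Finset.sum_mul]
  refine Finset.sum_congr rfl fun d hd => ?_
  have h : d 2 ≤ Q.degreeOf 2 := monomial_le_degreeOf 2 hd
  obtain ⟨k, hk⟩ := Nat.exists_eq_add_of_le h
  rw [hk, Nat.add_sub_cancel_left, pow_add, inv_pow]
  have hk0 : z ^ k ≠ 0 := pow_ne_zero _ hz
  field_simp

theorem rev2 (Q : P3) (hQ : Q ≠ 0) : ∃ q0 p0 : ℂ, eval ![q0, p0, 0] (rev Q) ≠ 0 := by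
  by_contra hcon
  push Not at hcon
  have hL : (aeval ![X 0, X 1, 0] (rev Q) : P3) = 0 := by
    refine MvPolynomial.funext fun x => ?_
    have h := hcon (x 0) (x 1)
    rw [← coe_aeval_eq_eval] at h
    have h' : aeval ![x 0, x 1, 0] (rev Q) = 0 := h
    rw [aeval_rev] at h' ⊢
    rw [map_sum, map_zero, ← h']
    refine Finset.sum_congr rfl fun d _ => ?_
    simp
  obtain ⟨e, he, hee⟩ : ∃ e ∈ Q.support, Q.degreeOf 2 = e 2 := by
    rw [degreeOf_eq_sup]
    exact Finset.exists_mem_eq_sup _ (support_nonempty.2 hQ) _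
  have h2 : (aeval ![X 0, X 1, 0] (rev Q) : P3) * X 2 ^ Q.degreeOf 2 =
      ∑ d ∈ Q.support, if d 2 = Q.degreeOf 2 then monomial d (coeff d Q) else 0 := by
    rw [aeval_rev, Finset.sum_mul]
    refine Finset.sum_congr rfl fun d hd => ?_
    have h : d 2 ≤ Q.degreeOf 2 := monomial_le_degreeOf 2 hd
    split_ifs with hd2
    · rw [mono_eq, ← hd2]
      simp
    · have : Q.degreeOf 2 - d 2 ≠ 0 := by omega
      simp [zero_pow this]
  rw [hL, zero_mul] at h2
  have h3 := congrArg (coeff e) h2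
  rw [coeff_zero, coeff_sum, Finset.sum_eq_single e] at h3
  · rw [if_pos hee.symm, coeff_monomial, if_pos rfl] at h3
    exact mem_support_iff.1 he h3.symm
  · intro d _ hde
    split_ifs
    · rw [coeff_monomial, if_neg hde]
    · rfl
  · intro h
    exact absurd he h

theorem conic (L : P3) : ∃ (N : ℕ) (r : Polynomial ℂ), ∀ (K : Type) [Field K] [Algebra ℂ K]
    (p : K), p ≠ 0 → aeval ![2 / p, p, 0] L * p ^ N = Polynomial.aeval p r := by
  induction L using MvPolynomial.induction_on with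
  | C a => exact ⟨0, Polynomial.C a, fun K _ _ p _ => by simp⟩
  | add f g hf hg =>
    obtain ⟨N, r, h⟩ := hf
    obtain ⟨M, s, h'⟩ := hg
    refine ⟨N + M, r * Polynomial.X ^ M + s * Polynomial.X ^ N, fun K _ _ p hp => ?_⟩
    simp only [map_add, map_mul, map_pow, Polynomial.aeval_X]
    rw [← h K p hp, ← h' K p hp]
    ring
  | mul_X f i hf =>
    obtain ⟨N, r, h⟩ := hf
    fin_cases i
    · refine ⟨N + 1, r * 2, fun K _ _ p hp => ?_⟩
      simp only [map_mul, map_ofNat, aeval_X]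
      rw [← h K p hp]
      simp
      field_simp
      ring
    · refine ⟨N, r * Polynomial.X, fun K _ _ p hp => ?_⟩
      simp only [map_mul, aeval_X, Polynomial.aeval_X]
      rw [← h K p hp]
      simp
      ring
    · exact ⟨0, 0, fun K _ _ p hp => by simp⟩

theorem rev3 (L : P3) (h : {p0 : ℂ | p0 ≠ 0 ∧ eval ![2 / p0, p0, 0] L = 0}.Infinite)
    (K : Type) [Field K] [Algebra ℂ K] (p : K) (hp : p ≠ 0) : aeval ![2 / p, p, 0] L = 0 := by
  obtain ⟨N, r, hr⟩ := conic L
  have h0 : r = 0 := by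
    refine Polynomial.eq_zero_of_infinite_isRoot r (h.mono fun x hx => ?_)
    have h1 := hr ℂ x hx.1
    have h2 : aeval ![2 / x, x, 0] L = 0 := by
      have h3 := hx.2
      rw [← coe_aeval_eq_eval] at h3
      exact h3
    rw [h2, zero_mul, Polynomial.coe_aeval_eq_eval] at h1
    exact h1.symm
  have h1 := hr K p hp
  rw [h0, map_zero] at h1
  exact (mul_eq_zero.1 h1).resolve_right (pow_ne_zero _ hp)

theorem term_eq (c : ℂ) (a b : ℕ) : algebraMap ℂ H2 c * pp ^ a * zz ^ b =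
    HahnSeries.single (toLex (-(b : ℚ), (a : ℚ))) c := by
  have h0 : algebraMap ℂ H2 c = HahnSeries.single 0 c := by
    rw [HahnSeries.algebraMap_apply]
    rfl
  rw [h0, pp, zz, HahnSeries.single_pow, HahnSeries.single_pow, HahnSeries.single_mul_single,
    HahnSeries.single_mul_single]
  have h1 : (0 : G2) + a • toLex ((0 : ℚ), (1 : ℚ)) + b • toLex ((-1 : ℚ), (0 : ℚ)) =
      toLex (-(b : ℚ), (a : ℚ)) := by
    change ((0 : ℚ × ℚ) + a • ((0 : ℚ), (1 : ℚ)) + b • ((-1 : ℚ), (0 : ℚ)) : ℚ × ℚ) =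
      (-(b : ℚ), (a : ℚ))
    simp
  rw [h1]
  simp

end RevA

theorem rev_ : StmtREV := fun Q =>
  ⟨RevA.rev1 Q, RevA.rev2 Q, fun h K _ _ p hp => RevA.rev3 _ h K p hp⟩

theorem ind : StmtIND := by
  refine (injective_iff_map_eq_zero _).2 fun (Q : P3) hQ0 => ?_
  ext e
  by_contra hne
  have he : e ∈ Q.support := mem_support_iff.2 hne
  have hQ := (RevA.aeval_sum (A := Polynomial H2) Polynomial.X (Polynomial.C pp)
    (Polynomial.C zz) Q).symm.trans hQ0
  have h1 := congrArg (fun f : Polynomial H2 =>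
    (f.coeff (e 0)).coeff (toLex (-((e 2 : ℕ) : ℚ), ((e 1 : ℕ) : ℚ)))) hQ
  have h2 : ∀ d : Fin 3 →₀ ℕ, algebraMap ℂ (Polynomial H2) (coeff d Q) * Polynomial.X ^ d 0 *
      Polynomial.C pp ^ d 1 * Polynomial.C zz ^ d 2 = Polynomial.monomial (d 0)
        (HahnSeries.single (toLex (-((d 2 : ℕ) : ℚ), ((d 1 : ℕ) : ℚ))) (coeff d Q)) := by
    intro d
    rw [← RevA.term_eq, ← Polynomial.C_mul_X_pow_eq_monomial, Polynomial.algebraMap_apply]
    simp only [map_mul, map_pow]
    ring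
  simp only [h2, Polynomial.finsetSum_coeff, HahnSeries.coeff_sum, Polynomial.coeff_zero,
    HahnSeries.coeff_zero] at h1
  rw [Finset.sum_eq_single e] at h1
  · rw [Polynomial.coeff_monomial, if_pos rfl, HahnSeries.coeff_single_same] at h1
    exact hne h1
  · intro d _ hde
    rw [Polynomial.coeff_monomial]
    split_ifs with h0
    · refine HahnSeries.coeff_single_of_ne fun h => hde ?_
      have h3 := toLex.injective h
      simp only [Prod.mk.injEq, neg_inj, Nat.cast_inj] at h3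
      ext i
      fin_cases i
      · exact h0
      · exact h3.2.symm
      · exact h3.1.symm
    · rfl
  · intro h
    exact absurd he h

end Pool.Agent.MP_c73ff6_gt.H73
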