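import Pool.Agent.MP_c73ff6_gt.H73.Spec

/-! The round cylinder satisfies the hypotheses (sanity check of the conventions). -/

namespace Pool.Agent.MP_c73ff6_gt.H73

open Filter Topology

namespace SanA

/-- A family of maps closed under the coordinate derivatives. -/
noncomputable def Y (A B C D : E3) (u : E2) : E3 :=
  Real.cos (u 0) • A + Real.sin (u 0) • B + u 1 • C + D

/-- Coordinate projection. -/
noncomputable def pr (i : Fin 2) : E2 →L[ℝ] ℝ := EuclideanSpace.proj i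

theorem pr_apply (i : Fin 2) (u : E2) : pr i u = u i := rfl

theorem hasF (A B C D : E3) (u : E2) :
    HasFDerivAt (Y A B C D)
      (((-Real.sin (u 0)) • pr 0).smulRight A + ((Real.cos (u 0)) • pr 0).smulRight B
        + (pr 1).smulRight C) u := by
  have h0 : HasFDerivAt (fun u : E2 => u 0) (pr 0) u := (pr 0).hasFDerivAt
  have h1 : HasFDerivAt (fun u : E2 => u 1) (pr 1) u := (pr 1).hasFDerivAt
  exact (((h0.cos.smul_const A).add (h0.sin.smul_const B)).add (h1.smul_const C)).add_const D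

theorem pd0 (A B C D : E3) : pd 0 (Y A B C D) = Y B (-A) 0 0 := by
  funext u
  rw [pd, (hasF A B C D u).fderiv]
  simp [Y, pr_apply, add_comm]

theorem pd1 (A B C D : E3) : pd 1 (Y A B C D) = Y 0 0 0 C := by
  funext u
  rw [pd, (hasF A B C D u).fderiv]
  simp [Y, pr_apply]

theorem anal (A B C D : E3) : AnalyticOnNhd ℝ (Y A B C D) Set.univ := by
  intro u _
  have h0 : AnalyticAt ℝ (fun u : E2 => u 0) u := (pr 0).analyticAt u
  have h1 : AnalyticAt ℝ (fun u : E2 => u 1) u := (pr 1).analyticAt u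
  have hc : AnalyticAt ℝ (fun u : E2 => Real.cos (u 0)) u := Real.analyticAt_cos.fun_comp h0
  have hs : AnalyticAt ℝ (fun u : E2 => Real.sin (u 0)) u := Real.analyticAt_sin.fun_comp h0
  exact (((hc.smul analyticAt_const).add (hs.smul analyticAt_const)).add
    (h1.smul analyticAt_const)).add analyticAt_const

theorem cyl_eq : (fun u : E2 => (!₂[√2 * Real.cos (u 0), √2 * Real.sin (u 0), u 1] : E3)) =
    Y !₂[√2, 0, 0] !₂[0, √2, 0] !₂[0, 0, 1] 0 := by
  funext u
  ext i
  fin_cases i <;> simp [Y, mul_comm]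

theorem inner3 (x y : E3) : inner ℝ x y = x 0 * y 0 + x 1 * y 1 + x 2 * y 2 := by
  simp [PiLp.inner_apply, Fin.sum_univ_three, mul_comm]

theorem shr : ShrinkerOn (Y !₂[√2, 0, 0] !₂[0, √2, 0] !₂[0, 0, 1] 0) Set.univ := by
  refine ⟨anal _ _ _ _, fun u _ => ?_⟩
  have h2 : √2 * √2 = (2 : ℝ) := Real.mul_self_sqrt (by norm_num)
  have hcs := Real.cos_sq_add_sin_sq (u 0)
  have g00 : gI (Y !₂[√2, 0, 0] !₂[0, √2, 0] !₂[0, 0, 1] 0) 0 0 u = 2 := by
    rw [gI, pd0, inner3]
    simp [Y]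
    linear_combination (Real.cos (u 0) ^ 2 + Real.sin (u 0) ^ 2) * h2 + 2 * hcs
  have g01 : gI (Y !₂[√2, 0, 0] !₂[0, √2, 0] !₂[0, 0, 1] 0) 0 1 u = 0 := by
    rw [gI, pd0, pd1, inner3]
    simp [Y]
  have g11 : gI (Y !₂[√2, 0, 0] !₂[0, √2, 0] !₂[0, 0, 1] 0) 1 1 u = 1 := by
    rw [gI, pd1, inner3]
    simp [Y]
  refine ⟨by rw [g00, g01, g11]; norm_num, fun n hn => ?_⟩
  have hn2 : n 2 = 0 := by
    have := hn 1
    rw [pd1, inner3] at this
    simpa [Y] using this
  rw [g00, g01, g11, pd0, pd0, pd1, pd0, pd1, inner3, inner3, inner3, inner3]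
  simp [Y, hn2]
  ring

theorem mem_end (t : ℝ) : (!₂[√2 * Real.cos t, √2 * Real.sin t, 0] : E3) ∈
    endPoints (fun u : E2 => (!₂[√2 * Real.cos (u 0), √2 * Real.sin (u 0), u 1] : E3))
      (EuclideanSpace.single 2 1) := by
  have h2 : √2 * √2 = (2 : ℝ) := Real.mul_self_sqrt (by norm_num)
  have hcs := Real.cos_sq_add_sin_sq t
  refine ⟨by simp [inner3], ?_, fun k => !₂[t, (k : ℝ)], ?_, ?_⟩
  · rw [← real_inner_self_eq_norm_sq, inner3]
    simp
    linear_combination (Real.cos t ^ 2 + Real.sin t ^ 2) * h2 + 2 * hcs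
  · simpa [inner3] using tendsto_natCast_atTop_atTop
  · refine tendsto_const_nhds.congr fun k => ?_
    ext i
    fin_cases i <;> simp [inner3]

end SanA

theorem san : StmtSAN := by
  refine ⟨by rw [SanA.cyl_eq]; exact SanA.shr, ?_⟩
  have hinf : (Set.Icc (0 : ℝ) Real.pi).Infinite := Set.Icc_infinite Real.pi_pos
  refine Set.infinite_of_injOn_mapsTo
    (f := fun t : ℝ => (!₂[√2 * Real.cos t, √2 * Real.sin t, 0] : E3)) ?_
    (fun t _ => SanA.mem_end t) hinf
  intro s hs t ht h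
  have h0 := congrArg (fun x : E3 => x 0) h
  have hp : (√2 : ℝ) ≠ 0 := by positivity
  simp only [Matrix.cons_val_zero] at h0
  exact Real.injOn_cos hs ht (mul_left_cancel₀ hp h0)

end Pool.Agent.MP_c73ff6_gt.H73
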