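import Pool.Agent.MP_c73ff6_gt.H73.Defs

/-!
Algebraic shrinkers with a cylindrical end are cylinders: common definitions and the statements of
the parts.  Null coordinates: variable `0` is `q = x - i y`, variable `1` is `p = x + i y`,
variable `2` is `z`.
-/

namespace Pool.Agent.MP_c73ff6_gt.H73

open MvPolynomial Filter Topology

/-- Polynomials in `q, p, z`. -/
abbrev P3 := MvPolynomial (Fin 3) ℂ

/-- `2 (|∇Q|² ΔQ - Hess Q (∇Q, ∇Q)) - |∇Q|² ⟨x, ∇Q⟩` for the metric `dp dq + dz²`. -/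
noncomputable def Phi (Q : P3) : P3 :=
  2 * ((4 * pderiv 0 Q * pderiv 1 Q + pderiv 2 Q ^ 2) *
        (4 * pderiv 0 (pderiv 1 Q) + pderiv 2 (pderiv 2 Q))
      - (4 * pderiv 1 Q ^ 2 * pderiv 0 (pderiv 0 Q) + 4 * pderiv 0 Q ^ 2 * pderiv 1 (pderiv 1 Q)
        + pderiv 2 Q ^ 2 * pderiv 2 (pderiv 2 Q)
        + 8 * pderiv 0 Q * pderiv 1 Q * pderiv 0 (pderiv 1 Q)
        + 4 * pderiv 1 Q * pderiv 2 Q * pderiv 0 (pderiv 2 Q)
        + 4 * pderiv 0 Q * pderiv 2 Q * pderiv 1 (pderiv 2 Q)))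
    - (4 * pderiv 0 Q * pderiv 1 Q + pderiv 2 Q ^ 2) *
        (X 0 * pderiv 0 Q + X 1 * pderiv 1 Q + X 2 * pderiv 2 Q)

/-- Reversal in the last variable: `w^m Q(q, p, 1/w)`, `m` the degree of `Q` in `z`. -/
noncomputable def rev (Q : P3) : P3 :=
  ∑ d ∈ Q.support, C (coeff d Q) * X 0 ^ d 0 * X 1 ^ d 1 * X 2 ^ (Q.degreeOf 2 - d 2)

/-- Null coordinates `(q, p, z)` of a point with respect to an orthonormal basis. -/
noncomputable def cz (b : OrthonormalBasis (Fin 3) ℝ E3) (x : E3) : Fin 3 → ℂ :=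
  ![(inner ℝ x (b 0) : ℝ) - Complex.I * (inner ℝ x (b 1) : ℝ),
    (inner ℝ x (b 0) : ℝ) + Complex.I * (inner ℝ x (b 1) : ℝ), (inner ℝ x (b 2) : ℝ)]

section th
set_option linter.unusedSectionVars false
variable {Γ : Type} [AddCommGroup Γ] [LinearOrder Γ] [IsOrderedAddMonoid Γ]

/-- Termwise multiplication of the coefficient of `t^g` by `χ g`. -/
noncomputable def thL (χ : Γ →+ ℚ) : HahnSeries Γ ℂ →ₗ[ℂ] HahnSeries Γ ℂ where
  toFun x := ⟨fun g => (χ g : ℂ) * x.coeff g,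
    x.isPWO_support.mono fun g hg h => hg (by simp [show x.coeff g = 0 from h])⟩
  map_add' x y := by ext g; simp [mul_add]
  map_smul' c x := by ext g; simp [mul_left_comm]

theorem thL_coeff (χ : Γ →+ ℚ) (x : HahnSeries Γ ℂ) (g : Γ) :
    (thL χ x).coeff g = (χ g : ℂ) * x.coeff g := rfl

theorem thL_support (χ : Γ →+ ℚ) (x : HahnSeries Γ ℂ) : (thL χ x).support ⊆ x.support :=
  fun g hg h => hg (by simp [thL_coeff, show x.coeff g = 0 from h])

theorem thL_mul (χ : Γ →+ ℚ) (x y : HahnSeries Γ ℂ) :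
    thL χ (x * y) = x * thL χ y + y * thL χ x := by
  ext g
  rw [HahnSeries.coeff_add, mul_comm y,
    HahnSeries.coeff_mul_right' y.isPWO_support (thL_support χ y),
    HahnSeries.coeff_mul_left' x.isPWO_support (thL_support χ x), thL_coeff,
    HahnSeries.coeff_mul, Finset.mul_sum, ← Finset.sum_add_distrib]
  refine Finset.sum_congr rfl fun ij hij => ?_
  obtain ⟨-, -, h⟩ := Finset.mem_antidiagonal.1 hij
  rw [thL_coeff, thL_coeff, ← h, map_add]
  push_cast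
  ring

/-- The termwise derivation `t^g ↦ χ(g) t^g` of the field of Hahn series. -/
noncomputable def th (χ : Γ →+ ℚ) : Derivation ℂ (HahnSeries Γ ℂ) (HahnSeries Γ ℂ) :=
  Derivation.mk' (thL χ) fun x y => by simpa [smul_eq_mul] using thL_mul χ x y

theorem th_coeff (χ : Γ →+ ℚ) (x : HahnSeries Γ ℂ) (g : Γ) :
    (th χ x).coeff g = (χ g : ℂ) * x.coeff g := rfl

theorem th_support (χ : Γ →+ ℚ) (x : HahnSeries Γ ℂ) : (th χ x).support ⊆ x.support :=
  thL_support χ x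

theorem th_single (χ : Γ →+ ℚ) (g : Γ) (c : ℂ) :
    th χ (HahnSeries.single g c) = HahnSeries.single g ((χ g : ℂ) * c) := by
  ext h
  rw [th_coeff]
  by_cases e : h = g
  · subst e; simp
  · simp [HahnSeries.coeff_single_of_ne e]

end th

/-- Exponents `(b, a)` of monomials `w^b p^a`, ordered lexicographically. -/
abbrev G2 := Lex (ℚ × ℚ)

/-- Hahn series in one variable. -/
abbrev H1 := HahnSeries ℚ ℂ

/-- Hahn series in `w = 1/z` and `p`. -/
abbrev H2 := HahnSeries G2 ℂ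

/-- The standard algebra structure (preferred to the one through power series). -/
noncomputable instance (priority := high) algH1 : Algebra ℂ H1 := HahnSeries.instAlgebra

instance charZeroH1 : CharZero H1 :=
  charZero_of_injective_algebraMap (algebraMap ℂ H1).injective

instance charZeroH2 : CharZero H2 :=
  charZero_of_injective_algebraMap (algebraMap ℂ H2).injective

/-- The level (exponent of `w`). -/
def lev : G2 →+ ℚ where
  toFun g := (ofLex g).1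
  map_zero' := rfl
  map_add' _ _ := rfl

/-- The exponent of `p`. -/
def pex : G2 →+ ℚ where
  toFun g := (ofLex g).2
  map_zero' := rfl
  map_add' _ _ := rfl

/-- The series `p`. -/
noncomputable def pp : H2 := HahnSeries.single (toLex (0, 1)) 1

/-- The series `w = 1/z`. -/
noncomputable def ww : H2 := HahnSeries.single (toLex (1, 0)) 1

/-- The series `z`. -/
noncomputable def zz : H2 := HahnSeries.single (toLex (-1, 0)) 1

/-- `p ∂/∂p`. -/
noncomputable def dA : Derivation ℂ H2 H2 := th pex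

/-- `z ∂/∂z`. -/
noncomputable def dB : Derivation ℂ H2 H2 := th (-lev)

/-- The shrinker equation of the graph `p q = F (p, z)`. -/
noncomputable def pde (F : H2) : H2 :=
  8 * (dA (dA F - F) - 2 * (dA F - F)) + 4 * (dA F - F) * (F - (dA F - F) - dB F)
    + ww ^ 2 * (8 * (dA F - F) * (dB (dB F) - dB F) - 8 * dB F * dB (dA F - F)
      - dB F ^ 2 * (F - (dA F - F) - dB F))

/-- All monomials of `Y` have positive level. -/
def Small (Y : H2) : Prop := ∀ g, Y.coeff g ≠ 0 → 0 < lev g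

/-- `F` is algebraic over the Laurent polynomials in `p, w`. -/
def Alg2 (F : H2) : Prop := IsAlgebraic (Algebra.adjoin ℂ ({pp, pp⁻¹, ww, zz} : Set H2)) F

/-- The series `ξ = s^γ`. -/
noncomputable def xi (γ : ℚ) : H1 := HahnSeries.single γ 1

/-- `ξ d/dξ = γ⁻¹ s d/ds`. -/
noncomputable def dX (γ : ℚ) : Derivation ℂ H1 H1 := th (AddMonoidHom.mulLeft γ⁻¹)

/-- `F` is algebraic over the Laurent polynomials in `ξ`. -/
def Alg1 (γ : ℚ) (F : H1) : Prop :=
  IsAlgebraic (Algebra.adjoin ℂ ({xi γ, (xi γ)⁻¹} : Set H1)) F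

/-- The self-similar curve-shortening equation with weight `γ`. -/
noncomputable def ode (γ : ℚ) (F : H1) : H1 :=
  2 * (dX γ (dX γ F - F) - 2 * (dX γ F - F))
    + (dX γ F - F) * (F - (dX γ F - F) + algebraMap ℂ H1 (γ : ℂ) * dX γ F)

/-- Hahn series over `ℂ` with divisible exponent group form an algebraically closed field. -/
def StmtHAHN : Prop := ∀ (Γ : Type) [AddCommGroup Γ] [LinearOrder Γ] [IsOrderedAddMonoid Γ],
  (∀ (g : Γ) (n : ℕ), 0 < n → ∃ h : Γ, n • h = g) → IsAlgClosed (HahnSeries Γ ℂ)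

/-- Transfer of a differential relation along an embedding. -/
def StmtTRANS : Prop := ∀ (D E : Derivation ℂ H1 H1) (S : Subalgebra ℂ H1) (σ : S →ₐ[ℂ] H1),
  Function.Injective σ → ∀ x e x' e' : S, D (x : H1) = (x' : H1) → D (e : H1) = (e' : H1) →
    IsAlgebraic (Algebra.adjoin ℂ ({(x : H1)} : Set H1)) (e : H1) →
    σ x' * E (σ e) = E (σ x) * σ e'

/-- Derivatives of algebraic elements are algebraic; inverting `x` adds nothing. -/
def StmtDALG : Prop := ∀ x e : H1, x ≠ 0 →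
  (∀ D : Derivation ℂ H1 H1, D x = x → IsAlgebraic (Algebra.adjoin ℂ ({x} : Set H1)) e →
    IsAlgebraic (Algebra.adjoin ℂ ({x} : Set H1)) (D e)) ∧
  (IsAlgebraic (Algebra.adjoin ℂ ({x, x⁻¹} : Set H1)) e →
    IsAlgebraic (Algebra.adjoin ℂ ({x} : Set H1)) e)

/-- A transcendental element of a function field can be sent to `s⁻¹`. -/
def StmtEMB : Prop := IsAlgClosed H1 → ∀ (S : Subalgebra ℂ H1) (x u : S),
  (∀ e : S, IsAlgebraic (Algebra.adjoin ℂ ({(x : H1)} : Set H1)) (e : H1)) →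
  Transcendental ℂ (u : H1) →
  ∃ σ : S →ₐ[ℂ] H1, Function.Injective σ ∧ σ u = HahnSeries.single (-1) 1

/-- Local analysis at a place where `u` has a pole (`γ ≠ 1`); `θ = s d/ds`. -/
def StmtLOC : Prop := ∀ (γ : ℂ) (x F G : H1), γ ≠ 1 → x ≠ 0 → G ≠ 0 →
  th (AddMonoidHom.id ℚ) x ≠ 0 →
  x * th (AddMonoidHom.id ℚ) F = th (AddMonoidHom.id ℚ) x * (F + G) →
  x * th (AddMonoidHom.id ℚ) G = th (AddMonoidHom.id ℚ) x * (HahnSeries.single (-1) 1 * G) →
  2 * HahnSeries.single (-1) 1 =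
    4 - (algebraMap ℂ H1 (1 + γ) * F - algebraMap ℂ H1 (1 - γ) * G) → False

/-- The limit equation has no algebraic solution branching off the circle. -/
def StmtODE : Prop := ∀ (j : ℚ) (Y : H1), 2 < j ^ 2 →
  (∀ b, Y.coeff b ≠ 0 → j ^ 2 - 2 ≤ b) → Y.coeff (j ^ 2 - 2) ≠ 0 →
  Alg1 ((j ^ 2 - 2) / j) (2 + Y) → ode ((j ^ 2 - 2) / j) (2 + Y) ≠ 0

/-- The support of a small solution lies in a half-plane. -/
def StmtSUPP : Prop := ∀ Y : H2, Y ≠ 0 → Small Y → pde (2 + Y) = 0 →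
  ∃ j : ℚ, 2 < j ^ 2 ∧ Y.coeff (toLex (j ^ 2 - 2, j)) ≠ 0 ∧
    ∀ g, Y.coeff g ≠ 0 → j ^ 2 - 2 ≤ lev g ∧ (j ^ 2 - 2) / j * pex g ≤ lev g

/-- Restriction to the face `b = γ a`. -/
def StmtFACE : Prop := ∀ (γ : ℚ) (Y : H2), γ ≠ 0 → (∀ g, Y.coeff g ≠ 0 → γ * pex g ≤ lev g) →
  Alg2 (2 + Y) → pde (2 + Y) = 0 →
  ∃ Y0 : H1, (∀ b, Y0.coeff b = Y.coeff (toLex (b, b / γ))) ∧ Alg1 γ (2 + Y0) ∧ ode γ (2 + Y0) = 0

/-- The leading coefficients in `z` of the members of `I` vanish at infinitely many points of the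
conic `p q = 2`. -/
def EndHyp (I : Ideal P3) : Prop :=
  ∀ Q ∈ I, {p0 : ℂ | p0 ≠ 0 ∧ eval ![2 / p0, p0, 0] (rev Q) = 0}.Infinite

/-- Properties of the reversal. -/
def StmtREV : Prop := ∀ Q : P3,
  (∀ (K : Type) [Field K] [Algebra ℂ K] (q p z : K), z ≠ 0 →
    aeval ![q, p, z⁻¹] (rev Q) * z ^ Q.degreeOf 2 = aeval ![q, p, z] Q) ∧
  (Q ≠ 0 → ∃ q0 p0 : ℂ, eval ![q0, p0, 0] (rev Q) ≠ 0) ∧
  ({p0 : ℂ | p0 ≠ 0 ∧ eval ![2 / p0, p0, 0] (rev Q) = 0}.Infinite →
    ∀ (K : Type) [Field K] [Algebra ℂ K] (p : K), p ≠ 0 → aeval ![2 / p, p, 0] (rev Q) = 0)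

/-- `p, z` are algebraically independent, in the form needed. -/
def StmtIND : Prop := Function.Injective
  (aeval ![Polynomial.X, Polynomial.C pp, Polynomial.C zz] : P3 →ₐ[ℂ] Polynomial H2)

/-- A root in the Hahn field close to the cylinder. -/
def StmtNEAR : Prop := IsAlgClosed H2 → ∀ Q : P3, Q ≠ 0 →
  {p0 : ℂ | p0 ≠ 0 ∧ eval ![2 / p0, p0, 0] (rev Q) = 0}.Infinite →
  ∃ f : H2, aeval ![f, pp, zz] Q = 0 ∧ Small (pp * f - 2)

/-- Roots of a member of least degree in `q` are generic points of the surface. -/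
def StmtKER : Prop := ∀ I : Ideal P3, I.IsPrime → I ≠ ⊥ →
  (∀ Q ∈ I, Q ≠ 0 → ∃ f : H2, aeval ![f, pp, zz] Q = 0) →
  ∃ Q0 ∈ I, Q0 ≠ 0 ∧ pderiv 0 Q0 ∉ I ∧ ∀ f : H2, aeval ![f, pp, zz] Q0 = 0 →
    ∀ Q : P3, aeval ![f, pp, zz] Q = 0 ↔ Q ∈ I

/-- The level-set equation gives the graph equation. -/
def StmtPDE : Prop := ∀ (f : H2) (Q : P3), aeval ![f, pp, zz] Q = 0 →
  aeval ![f, pp, zz] (Phi Q) = 0 → aeval ![f, pp, zz] (pderiv 0 Q) ≠ 0 → pde (pp * f) = 0

/-- The algebraic theorem. -/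
def StmtCORE : Prop := ∀ I : Ideal P3, I.IsPrime → I ≠ ⊥ → (∀ Q ∈ I, Phi Q ∈ I) → EndHyp I →
  X 0 * X 1 - 2 ∈ I

/-- In a chart, `Phi` preserves the polynomials vanishing on the surface. -/
def StmtCHART : Prop := ∀ (Xm : E2 → E3) (U : Set E2) (b : OrthonormalBasis (Fin 3) ℝ E3)
  (Q : P3), IsOpen U → ShrinkerOn Xm U → (∀ u ∈ U, eval (cz b (Xm u)) Q = 0) →
  ∀ u ∈ U, eval (cz b (Xm u)) (Phi Q) = 0

/-- The surface lies on the cylinder. -/
def StmtINC : Prop := ∀ (M : Type) [TopologicalSpace M] [PreconnectedSpace M] [ChartedSpace E2 M]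
  (Ψ : M → E3), (∀ m : M, ShrinkerOn (Ψ ∘ (chartAt E2 m).symm) (chartAt E2 m).target) →
  ∀ (P : MvPolynomial (Fin 3) ℝ) (W : Set M), P ≠ 0 → IsOpen W → W.Nonempty →
  (∀ m ∈ W, eval (fun i => Ψ m i) P = 0) → ∀ v : E3, ‖v‖ = 1 → (endPoints Ψ v).Infinite →
  Set.range Ψ ⊆ cylinder v

/-- A closed immersed surface inside the cylinder is the whole cylinder. -/
def StmtEQ : Prop := ∀ (M : Type) [TopologicalSpace M] [Nonempty M] [ChartedSpace E2 M]
  (Ψ : M → E3), (∀ m : M, ShrinkerOn (Ψ ∘ (chartAt E2 m).symm) (chartAt E2 m).target) →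
  ∀ v : E3, ‖v‖ = 1 → Set.range Ψ ⊆ cylinder v → IsClosed (Set.range Ψ) →
  Set.range Ψ = cylinder v

/-- Sanity check of the conventions: the round cylinder satisfies all hypotheses. -/
def StmtSAN : Prop :=
  ShrinkerOn (fun u : E2 => (!₂[√2 * Real.cos (u 0), √2 * Real.sin (u 0), u 1] : E3)) Set.univ ∧
  (endPoints (fun u : E2 => (!₂[√2 * Real.cos (u 0), √2 * Real.sin (u 0), u 1] : E3))
    (EuclideanSpace.single 2 1)).Infinite

end Pool.Agent.MP_c73ff6_gt.H73
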