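import Pool.Agent.MP_c73ff6_gt.H73.Spec

/-! The support of a small solution of the graph equation lies in a half-plane. -/

namespace Pool.Agent.MP_c73ff6_gt.H73

namespace SuppA

/-- All monomials have level at least `l`, and those of level below `l + δ` lie in the half-plane
`γ a ≤ b`. -/
def Good (γ δ l : ℚ) (x : H2) : Prop :=
  ∀ g, x.coeff g ≠ 0 → l ≤ lev g ∧ (lev g < l + δ → γ * pex g ≤ lev g)

variable {γ δ l l' : ℚ} {x y : H2}

theorem Good.mono (h : Good γ δ l x) (hl : l' ≤ l) : Good γ δ l' x := fun g hg =>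
  ⟨hl.trans (h g hg).1, fun e => (h g hg).2 (by linarith)⟩

theorem Good.add (hx : Good γ δ l x) (hy : Good γ δ l y) : Good γ δ l (x + y) := by
  intro g hg
  rw [HahnSeries.coeff_add] at hg
  by_cases e : x.coeff g = 0
  · exact hy g (by simpa [e] using hg)
  · exact hx g e

theorem Good.neg (hx : Good γ δ l x) : Good γ δ l (-x) := fun g hg =>
  hx g (by simpa using hg)

theorem Good.sub (hx : Good γ δ l x) (hy : Good γ δ l y) : Good γ δ l (x - y) := by
  rw [sub_eq_add_neg]
  exact hx.add hy.neg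

theorem Good.th (hx : Good γ δ l x) (χ : G2 →+ ℚ) : Good γ δ l (th χ x) := fun g hg =>
  hx g (th_support χ x hg)

theorem Good.dA (hx : Good γ δ l x) : Good γ δ l (dA x) := hx.th _

theorem Good.dB (hx : Good γ δ l x) : Good γ δ l (dB x) := hx.th _

theorem Good.mul (hx : Good γ δ l x) (hy : Good γ δ l' y) : Good γ δ (l + l') (x * y) := by
  intro g hg
  obtain ⟨g1, h1, g2, h2, rfl⟩ := HahnSeries.support_mul_subset (x := x) (y := y) hg
  obtain ⟨a1, b1⟩ := hx g1 h1
  obtain ⟨a2, b2⟩ := hy g2 h2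
  simp only [map_add]
  refine ⟨by linarith, fun e => ?_⟩
  have c1 := b1 (by linarith)
  have c2 := b2 (by linarith)
  linarith

theorem coeff_nat (n : ℕ) (x : H2) (g : G2) : ((n : H2) * x).coeff g = (n : ℂ) * x.coeff g := by
  induction n with
  | zero => simp
  | succ n ih =>
    rw [Nat.cast_succ, add_mul, one_mul, HahnSeries.coeff_add, ih]
    push_cast
    ring

theorem Good.nat (hx : Good γ δ l x) (n : ℕ) : Good γ δ l ((n : H2) * x) := fun g hg =>
  hx g fun e => hg (by rw [coeff_nat, e, mul_zero])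

theorem good_ww : Good γ δ 1 ww := by
  intro g hg
  have e : g = toLex (1, 0) := by
    by_contra e
    exact hg (HahnSeries.coeff_single_of_ne e)
  subst e
  refine ⟨le_of_eq rfl, fun _ => ?_⟩
  change γ * 0 ≤ 1
  simp

/-- The nonlinear part of the equation. -/
noncomputable def NN (Y : H2) : H2 :=
  ((4 : ℕ) : H2) * ((dA Y - Y) * (((2 : ℕ) : H2) * Y - dA Y - dB Y))
    + ww * ww * (((8 : ℕ) : H2) * ((dA Y - Y) * (dB (dB Y) - dB Y))
      - ((16 : ℕ) : H2) * (dB (dB Y) - dB Y) - ((8 : ℕ) : H2) * (dB Y * dB (dA Y - Y))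
      - ((4 : ℕ) : H2) * (dB Y * dB Y)
      - dB Y * dB Y * (((2 : ℕ) : H2) * Y - dA Y - dB Y))

theorem pde_eq (Y : H2) : pde (2 + Y) =
    ((8 : ℕ) : H2) * (dA (dA Y) - ((2 : ℕ) : H2) * Y + dB Y) + NN Y := by
  have a2 : dA (2 : H2) = 0 := by
    have := dA.map_natCast 2
    simpa using this
  have b2 : dB (2 : H2) = 0 := by
    have := dB.map_natCast 2
    simpa using this
  simp only [pde, NN, map_add, map_sub, a2, b2, zero_add]
  push_cast
  ring

theorem good_NN {β : ℚ} {Y : H2} (hβ : 0 < β) (h : Good γ δ β Y) :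
    Good γ δ (β + min β 2) (NN Y) := by
  have m1 := min_le_left β 2
  have m2 := min_le_right β 2
  have u1 : Good γ δ β (dA Y - Y) := h.dA.sub h
  have u2 : Good γ δ β (((2 : ℕ) : H2) * Y - dA Y - dB Y) := ((h.nat 2).sub h.dA).sub h.dB
  have u3 : Good γ δ β (dB (dB Y) - dB Y) := h.dB.dB.sub h.dB
  refine Good.add (((u1.mul u2).nat 4).mono (by linarith)) ?_
  refine Good.mono (l := 1 + 1 + β) (Good.mul (good_ww.mul good_ww) ?_) (by linarith)
  refine Good.sub (Good.sub (Good.sub (Good.sub ?_ (u3.nat 16)) ?_) ?_) ?_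
  · exact ((u1.mul u3).nat 8).mono (by linarith)
  · exact ((h.dB.mul u1.dB).nat 8).mono (by linarith)
  · exact ((h.dB.mul h.dB).nat 4).mono (by linarith)
  · exact ((h.dB.mul h.dB).mul u2).mono (by linarith)

theorem key {Y : H2} (hp : pde (2 + Y) = 0) {g : G2} (hg : Y.coeff g ≠ 0)
    (hN : (NN Y).coeff g = 0) : pex g ^ 2 = lev g + 2 := by
  have h0 : (pde (2 + Y)).coeff g = 0 := by rw [hp]; rfl
  rw [pde_eq, HahnSeries.coeff_add, hN, add_zero, coeff_nat, HahnSeries.coeff_add,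
    HahnSeries.coeff_sub, coeff_nat] at h0
  simp only [dA, dB, th_coeff, AddMonoidHom.neg_apply] at h0
  have h1 : (((pex g ^ 2 - (lev g + 2) : ℚ) : ℂ)) * Y.coeff g = 0 := by
    push_cast at h0 ⊢
    linear_combination h0 / 8
  have h2 := (mul_eq_zero.1 h1).resolve_right hg
  have h3 : pex g ^ 2 - (lev g + 2) = 0 := by exact_mod_cast h2
  linarith

theorem lev_mono {g h : G2} (e : g ≤ h) : lev g ≤ lev h := by
  rcases Prod.Lex.le_iff.1 e with e | e
  · exact le_of_lt e
  · exact le_of_eq e.1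

theorem lt_of_lev {g h : G2} (e : lev g < lev h) : g < h :=
  lt_of_not_ge fun e' => absurd (lev_mono e') (not_le.2 e)

theorem arith {j a b : ℚ} (hj : 2 < j ^ 2) (h1 : a ^ 2 = b + 2) (h2 : j ^ 2 - 2 ≤ b)
    (h3 : b < (j ^ 2 - 2) / j * a) : False := by
  have j0 : j ≠ 0 := by
    rintro rfl
    norm_num at hj
  have jj : 0 < j ^ 2 := by positivity
  have e : (j ^ 2 - 2) / j * a * j ^ 2 = (j ^ 2 - 2) * (a * j) := by
    field_simp
  have h4 : b * j ^ 2 < (j ^ 2 - 2) * (a * j) := by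
    rw [← e]
    exact mul_lt_mul_of_pos_right h3 jj
  have s0 : 0 < a * j := by
    by_contra hs
    push Not at hs
    have : (j ^ 2 - 2) * (a * j) ≤ 0 := mul_nonpos_of_nonneg_of_nonpos (by linarith) hs
    have : 0 < b * j ^ 2 := mul_pos (by linarith) jj
    linarith
  have s1 : (j ^ 2) ^ 2 ≤ (a * j) ^ 2 := by
    rw [mul_pow]
    nlinarith
  have s2 : j ^ 2 ≤ a * j := by
    by_contra hs
    push Not at hs
    nlinarith
  have s3 : (a * j) ^ 2 = (b + 2) * j ^ 2 := by rw [mul_pow, h1]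
  nlinarith [mul_nonneg (sub_nonneg.2 s2) (by linarith : (0 : ℚ) ≤ a * j + 2)]

end SuppA

open SuppA in
theorem supp : StmtSUPP := by
  intro Y hY hs hp
  have ho : Y.coeff Y.order ≠ 0 := fun e => hY (HahnSeries.coeff_order_eq_zero.1 e)
  have hβ : 0 < lev Y.order := hs _ ho
  have hm : 0 < min (lev Y.order) 2 := lt_min hβ (by norm_num)
  have hl : ∀ g, Y.coeff g ≠ 0 → lev Y.order ≤ lev g := fun g hg =>
    lev_mono (HahnSeries.order_le_of_coeff_ne_zero hg)
  have g1 : Good 0 0 (lev Y.order) Y := fun g hg =>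
    ⟨hl g hg, fun e => absurd (hl g hg) (by linarith)⟩
  have k1 : pex Y.order ^ 2 = lev Y.order + 2 := by
    refine key hp ho ?_
    by_contra e
    have := (good_NN hβ g1 _ e).1
    linarith
  have k2 : pex Y.order ^ 2 - 2 = lev Y.order := by linarith
  refine ⟨pex Y.order, by linarith, ?_, ?_⟩
  · rw [k2]
    exact ho
  · intro g hg
    refine ⟨k2 ▸ hl g hg, ?_⟩
    by_contra hbad
    set γ := (pex Y.order ^ 2 - 2) / pex Y.order with hγ
    have hw : Set.IsWF {g : G2 | Y.coeff g ≠ 0 ∧ lev g < γ * pex g} :=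
      Y.isWF_support.mono fun g hg => hg.1
    have hne : {g : G2 | Y.coeff g ≠ 0 ∧ lev g < γ * pex g}.Nonempty := ⟨g, hg, not_le.1 hbad⟩
    obtain ⟨h0, h1⟩ := hw.min_mem hne
    set g0 := hw.min hne with hg0
    have g2 : Good γ (lev g0 - lev Y.order) (lev Y.order) Y := by
      intro g hg
      refine ⟨hl g hg, fun e => ?_⟩
      by_contra e'
      exact hw.not_lt_min hne (a := g) ⟨hg, not_le.1 e'⟩ (lt_of_lev (by linarith))
    have k3 : pex g0 ^ 2 = lev g0 + 2 := by
      refine key hp h0 ?_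
      by_contra e
      have := (good_NN hβ g2 _ e).2 (by linarith)
      linarith
    exact arith (j := pex Y.order) (by linarith) k3 (k2 ▸ hl g0 h0) h1

end Pool.Agent.MP_c73ff6_gt.H73
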