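import Pool.Agent.MP_c73ff6_gt.H73.Spec

/-! Derivations on algebraic elements: transfer along an embedding, algebraicity of derivatives. -/

namespace Pool.Agent.MP_c73ff6_gt.H73

open Polynomial

namespace TransA

/-- value of a polynomial in two variables -/
noncomputable def ev {K : Type} [CommRing K] [Algebra ℂ K] (x e : K) (R : ℂ[X][X]) : K :=
  R.eval₂ (aeval x : ℂ[X] →ₐ[ℂ] K).toRingHom e

lemma ev_add {K : Type} [CommRing K] [Algebra ℂ K] (x e : K) (R Q : ℂ[X][X]) :
    ev x e (R + Q) = ev x e R + ev x e Q := eval₂_add _ _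

lemma ev_monomial {K : Type} [CommRing K] [Algebra ℂ K] (x e : K) (n : ℕ) (a : ℂ[X]) :
    ev x e (monomial n a) = aeval x a * e ^ n := eval₂_monomial _ _

lemma map_ev {K L : Type} [CommRing K] [Algebra ℂ K] [CommRing L] [Algebra ℂ L] (f : K →ₐ[ℂ] L)
    (x e : K) (R : ℂ[X][X]) : f (ev x e R) = ev (f x) (f e) R := by
  induction R using Polynomial.induction_on' with
  | add p q hp hq => rw [ev_add, ev_add, map_add, hp, hq]
  | monomial n a => rw [ev_monomial, ev_monomial, map_mul, map_pow, aeval_algHom_apply]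

lemma chain (R : ℂ[X][X]) : ∃ R1 : ℂ[X][X], ∀ (d : Derivation ℂ H1 H1) (x e : H1),
    d (ev x e R) = ev x e R1 * d x + ev x e (derivative R) * d e := by
  induction R using Polynomial.induction_on' with
  | add p q hp hq =>
    obtain ⟨p1, hp⟩ := hp
    obtain ⟨q1, hq⟩ := hq
    refine ⟨p1 + q1, fun d x e => ?_⟩
    rw [ev_add, map_add, hp, hq, derivative_add, ev_add, ev_add]
    ring
  | monomial n a =>
    refine ⟨monomial n (derivative a), fun d x e => ?_⟩
    rw [derivative_monomial, ev_monomial, ev_monomial, ev_monomial, Derivation.leibniz,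
      Derivation.leibniz_pow, Derivation.map_aeval, map_mul, map_natCast]
    simp only [smul_eq_mul, nsmul_eq_mul]
    ring

lemma ev_alg (x e : H1) (he : IsAlgebraic (Algebra.adjoin ℂ ({x} : Set H1)) e) (R : ℂ[X][X]) :
    IsAlgebraic (Algebra.adjoin ℂ ({x} : Set H1)) (ev x e R) := by
  induction R using Polynomial.induction_on' with
  | add p q hp hq => rw [ev_add]; exact hp.add hq
  | monomial n a =>
    rw [ev_monomial]
    refine IsAlgebraic.mul ?_ (he.pow n)
    exact isAlgebraic_algebraMap (R := Algebra.adjoin ℂ ({x} : Set H1))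
      ⟨aeval x a, aeval_mem_adjoin_singleton ℂ x⟩

lemma exists_sep (x e : H1) (he : IsAlgebraic (Algebra.adjoin ℂ ({x} : Set H1)) e) :
    ∃ R : ℂ[X][X], ev x e R = 0 ∧ ev x e (derivative R) ≠ 0 := by
  classical
  have hex : ∃ n, ∃ T : (Algebra.adjoin ℂ ({x} : Set H1))[X], T ≠ 0 ∧ aeval e T = 0 ∧ T.natDegree = n := by
    obtain ⟨T, h0, h1⟩ := he
    exact ⟨_, T, h0, h1, rfl⟩
  obtain ⟨T, h0, h1, h2⟩ := Nat.find_spec hex
  have hpos : T.natDegree ≠ 0 := by
    intro h
    rw [eq_C_of_natDegree_eq_zero h, aeval_C] at h1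
    apply h0
    rw [eq_C_of_natDegree_eq_zero h]
    have : T.coeff 0 = 0 := Subtype.ext h1
    rw [this, C_0]
  have hd : aeval e (derivative T) ≠ 0 := by
    intro h
    have hne : derivative T ≠ 0 := fun h' => hpos (derivative_eq_zero.mp h')
    have := Nat.find_min' hex ⟨derivative T, hne, h, rfl⟩
    have h3 := natDegree_derivative_lt hpos
    omega
  let φ : ℂ[X] →+* Algebra.adjoin ℂ ({x} : Set H1) :=
    (aeval x : ℂ[X] →ₐ[ℂ] H1).toRingHom.codRestrict (Algebra.adjoin ℂ ({x} : Set H1))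
      fun p => aeval_mem_adjoin_singleton ℂ x
  have hφ : Function.Surjective φ := by
    rintro ⟨y, hy⟩
    have hy' := hy
    rw [Algebra.adjoin_singleton_eq_range_aeval] at hy'
    obtain ⟨p, hp⟩ := hy'
    exact ⟨p, Subtype.ext hp⟩
  obtain ⟨R, hR⟩ := map_surjective φ hφ T
  have key : ∀ Q : ℂ[X][X], ev x e Q = aeval e (Q.map φ) := by
    intro Q
    rw [aeval_def, eval₂_map]
    rfl
  refine ⟨R, ?_, ?_⟩
  · rw [key, hR, h1]
  · rw [key, ← derivative_map, hR]
    exact hd

end TransA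

open TransA

theorem trans_ : StmtTRANS := by
  intro D E S σ hσ x e x' e' hx he halg
  obtain ⟨R, h0, h1⟩ := exists_sep _ _ halg
  obtain ⟨R1, hR⟩ := chain R
  have hv : ∀ Q : ℂ[X][X], ((ev x e Q : S) : H1) = ev (x : H1) (e : H1) Q := fun Q => map_ev S.val x e Q
  have hS0 : ev x e R = 0 := Subtype.ext (by rw [hv, h0]; rfl)
  have hS1 : ev x e (derivative R) ≠ 0 := fun h => h1 (by rw [← hv, h]; rfl)
  have hD := hR D x e
  rw [h0, map_zero, hx, he] at hD
  have hS2 : ev x e R1 * x' + ev x e (derivative R) * e' = 0 := by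
    apply Subtype.ext
    push_cast
    rw [hv, hv]
    exact hD.symm
  have hw : ∀ Q : ℂ[X][X], σ (ev x e Q) = ev (σ x) (σ e) Q := fun Q => map_ev σ x e Q
  have a0 : ev (σ x) (σ e) R = 0 := by rw [← hw, hS0, map_zero]
  have a1 : ev (σ x) (σ e) (derivative R) ≠ 0 := by
    rw [← hw]
    exact fun h => hS1 (hσ (by rw [h, map_zero]))
  have a2 := congrArg σ hS2
  rw [map_add, map_mul, map_mul, hw, hw, map_zero] at a2
  have a3 := hR E (σ x) (σ e)
  rw [a0, map_zero] at a3
  apply mul_left_cancel₀ a1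
  linear_combination (-(σ x')) * a3 - E (σ x) * a2

theorem dalg : StmtDALG := by
  intro x e hx
  have hxa : IsAlgebraic (Algebra.adjoin ℂ ({x} : Set H1)) x :=
    isAlgebraic_algebraMap (R := Algebra.adjoin ℂ ({x} : Set H1))
      ⟨x, Algebra.self_mem_adjoin_singleton ℂ x⟩
  refine ⟨fun D hD he => ?_, fun he => ?_⟩
  · obtain ⟨R, h0, h1⟩ := exists_sep _ _ he
    obtain ⟨R1, hR⟩ := chain R
    have h := hR D x e
    rw [h0, map_zero, hD] at h
    have e1 : D e = -(ev x e R1 * x) * (ev x e (derivative R))⁻¹ := by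
      field_simp
      linear_combination -h
    rw [e1]
    exact ((ev_alg x e he R1).mul hxa).neg.mul (ev_alg x e he _).inv
  · refine IsAlgebraic.adjoin_of_forall_isAlgebraic ?_ he
    rintro y ⟨hy, -⟩
    rcases hy with rfl | rfl
    · exact hxa
    · exact hxa.inv

end Pool.Agent.MP_c73ff6_gt.H73
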